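import Pool.Agent.Helper21.CT.Base

/-!
# Project CT, module L1: conjugation, restriction and signs of linear functions
-/

namespace SB

variable {Γ : Type*} [Group Γ]

theorem lin_single_L1 {D : Sys Γ} {U : Subgroup Γ} {χ : U →* ℂˣ} (h : OpC D U χ) :
    Lin D U (ext U χ) :=
  ⟨1, fun _ => 1, fun _ => χ, fun _ => h, by simp⟩

theorem cj_sum_L1 {ι : Type*} (s : Finset ι) (u : Γ) (φ : ι → Γ → ℂ) (n : ι → ℤ) :
    cj u (∑ i ∈ s, n i • φ i) = ∑ i ∈ s, n i • cj u (φ i) := by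
  funext g
  rw [cj_apply, Finset.sum_apply, Finset.sum_apply]
  rfl

theorem rs_sum_L1 {ι : Type*} (s : Finset ι) (H : Subgroup Γ) (φ : ι → Γ → ℂ) (n : ι → ℤ) :
    rs H (∑ i ∈ s, n i • φ i) = ∑ i ∈ s, n i • rs H (φ i) := by
  funext g
  by_cases hg : g ∈ H
  · rw [rs_mem _ hg, Finset.sum_apply, Finset.sum_apply]
    exact Finset.sum_congr rfl fun i _ => by rw [Pi.smul_apply, Pi.smul_apply, rs_mem _ hg]
  · rw [rs_not_mem _ hg, Finset.sum_apply]
    exact (Finset.sum_eq_zero fun i _ => by rw [Pi.smul_apply, rs_not_mem _ hg, smul_zero]).symm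

theorem rs_ext_L1 {H U : Subgroup Γ} (hHU : H ≤ U) (χ : U →* ℂˣ) :
    rs H (ext U χ) = ext H (χ.comp (Subgroup.inclusion hHU)) := by
  funext g
  by_cases hg : g ∈ H
  · rw [rs_mem _ hg, ext_mem _ hg, ext_mem _ (hHU hg)]
    rfl
  · rw [rs_not_mem _ hg, ext_not_mem _ hg]

/-- Conjugation by `u⁻¹` as a homomorphism of `H`. -/
def cjHom_L1 {H : Subgroup Γ} {u : Γ} (hu : ∀ h, h ∈ H ↔ u⁻¹ * h * u ∈ H) : H →* H where
  toFun h := ⟨u⁻¹ * (h : Γ) * u, (hu h).1 h.2⟩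
  map_one' := by
    apply Subtype.ext
    simp
  map_mul' a b := by
    apply Subtype.ext
    simp only [Subgroup.coe_mul]
    group

/-- CT-L. Conjugate the characters. -/
theorem lin_cj (D : Sys Γ) {H : Subgroup Γ} {φ : Γ → ℂ} (hφ : Lin D H φ) {u : Γ}
    (hu : ∀ h, h ∈ H ↔ u⁻¹ * h * u ∈ H) : Lin D H (cj u φ) := by
  obtain ⟨m, n, χ, hχ, rfl⟩ := hφ
  have e : ∀ i, cj u (ext H (χ i)) = ext H ((χ i).comp (cjHom_L1 hu)) := by
    intro i
    funext g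
    rw [cj_apply]
    by_cases hg : g ∈ H
    · rw [ext_mem _ hg, ext_mem _ ((hu g).1 hg)]
      rfl
    · rw [ext_not_mem _ hg, ext_not_mem _ (fun h => hg ((hu g).2 h))]
  rw [cj_sum_L1]
  refine lin_sum_G1 _ _ fun i _ => lin_zsmul_G1 _ ?_
  rw [e i]
  refine lin_single_L1 ?_
  obtain ⟨M, hM, hMH, h1⟩ := hχ i
  refine ⟨M, hM, hMH, fun g hg hgM => ?_⟩
  have hn := D.normal M hM
  have h2 : u⁻¹ * g * u ∈ M := by
    have := hn.conj_mem g hgM u⁻¹
    rwa [inv_inv] at this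
  exact h1 (u⁻¹ * g * u) ((hu g).1 hg) h2

/-- CT-L. `b s` = sum of the `n i` with `χ i s = -1`. -/
theorem lin_int (D : Sys Γ) {U : Subgroup Γ} {φ : Γ → ℂ} (h : Lin D U φ) :
    ∃ (n : ℤ) (b : Γ → ℤ), (Set.range b).Finite ∧ φ 1 = n ∧ (∀ s ∈ D.S, s ∈ U → φ s = n - 2 * b s) ∧
      ∀ s ∈ D.S, s ∈ U → ∀ u ∈ U, b (u * s * u⁻¹) = b s := by
  classical
  obtain ⟨m, n, χ, -, rfl⟩ := h
  refine ⟨∑ i, n i, fun s => ∑ i ∈ Finset.univ.filter (fun i => ext U (χ i) s = -1), n i, ?_, ?_, ?_, ?_⟩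
  · refine Set.Finite.subset
      (Finset.finite_toSet ((Finset.univ : Finset (Finset (Fin m))).image fun T => ∑ i ∈ T, n i)) ?_
    rintro _ ⟨s, rfl⟩
    rw [Finset.mem_coe, Finset.mem_image]
    exact ⟨_, Finset.mem_univ _, rfl⟩
  · rw [Finset.sum_apply, Int.cast_sum]
    refine Finset.sum_congr rfl fun i _ => ?_
    rw [Pi.smul_apply, ext_mem (χ i) U.one_mem]
    have h1 : (⟨1, U.one_mem⟩ : U) = 1 := rfl
    rw [h1, map_one, Units.val_one, zsmul_eq_mul, mul_one]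
  · intro s hs hsU
    have h2 : ∀ i, ext U (χ i) s = 1 ∨ ext U (χ i) s = -1 := by
      intro i
      rw [ext_mem (χ i) hsU, ← sq_eq_one_iff]
      rw [sq, ← Units.val_mul, ← map_mul]
      have h3 : (⟨s, hsU⟩ : U) * ⟨s, hsU⟩ = 1 := Subtype.ext (D.sq s hs)
      rw [h3, map_one, Units.val_one]
    rw [Finset.sum_apply, Int.cast_sum, Int.cast_sum, Finset.mul_sum, Finset.sum_filter,
      ← Finset.sum_sub_distrib]
    refine Finset.sum_congr rfl fun i _ => ?_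
    rw [Pi.smul_apply, zsmul_eq_mul]
    rcases h2 i with h3 | h3
    · rw [h3, if_neg (by norm_num)]
      ring
    · rw [h3, if_pos rfl]
      ring
  · intro s hs hsU u hu
    have h2 : ∀ i, ext U (χ i) (u * s * u⁻¹) = ext U (χ i) s := by
      intro i
      have := (cls_ext U (χ i)).2 u⁻¹ (U.inv_mem hu) s
      rwa [inv_inv] at this
    refine Finset.sum_congr ?_ fun _ _ => rfl
    ext i
    simp only [Finset.mem_filter, Finset.mem_univ, true_and]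
    rw [h2 i]

/-- CT-L. Restrict the characters (`M` is there so that the restrictions are `OpC`: intersect with `M`). -/
theorem lin_rs (D : Sys Γ) {M H U : Subgroup Γ} (hM : M ∈ D.N) (hMH : M ≤ H) (hHU : H ≤ U) {φ : Γ → ℂ}
    (hφ : Lin D U φ) : Lin D H (rs H φ) := by
  obtain ⟨m, n, χ, hχ, rfl⟩ := hφ
  rw [rs_sum_L1]
  refine lin_sum_G1 _ _ fun i _ => lin_zsmul_G1 _ ?_
  rw [rs_ext_L1 hHU]
  refine lin_single_L1 ?_
  obtain ⟨M₁, hM₁, hM₁U, h1⟩ := hχ i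
  exact ⟨M₁ ⊓ M, D.inf _ hM₁ _ hM, inf_le_right.trans hMH, fun g hg hgM => h1 g (hHU hg) hgM.1⟩

/-- CT-L. `φ` is a class function of `U` and `H` is normal in `U`. -/
theorem sum_rs {p : ℕ} {H U : Subgroup Γ} {t : Γ} (h : IsStep p H U t) {ψ : Γ → ℂ} (hψ : Cls U ψ) (g : Γ) :
    (∑ k ∈ Finset.range p, cj (t ^ k) (rs H ψ)) g = (p : ℂ) * rs H ψ g := by
  rw [Finset.sum_apply]
  have e : ∀ k ∈ Finset.range p, cj (t ^ k) (rs H ψ) g = rs H ψ g := by
    intro k _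
    have htk : t ^ k ∈ U := U.pow_mem h.mem k
    rw [cj_apply]
    by_cases hg : g ∈ H
    · have h1 : (t ^ k)⁻¹ * g * t ^ k ∈ H := by
        have := h.norm (t ^ k)⁻¹ (U.inv_mem htk) g hg
        rwa [inv_inv] at this
      rw [rs_mem _ h1, rs_mem _ hg, hψ.2 _ htk]
    · have h1 : (t ^ k)⁻¹ * g * t ^ k ∉ H := by
        intro h2
        apply hg
        have h3 := h.norm (t ^ k) htk _ h2
        have h4 : t ^ k * ((t ^ k)⁻¹ * g * t ^ k) * (t ^ k)⁻¹ = g := by group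
        rwa [h4] at h3
      rw [rs_not_mem _ h1, rs_not_mem _ hg]
  rw [Finset.sum_congr rfl e, Finset.sum_const, Finset.card_range, nsmul_eq_mul]

end SB
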