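import Pool.Agent.Helper21.CT.Base

/-!
# Project CT, module L2: induction of restrictions, linear functions with prescribed signs
-/

namespace SB

variable {Γ : Type*} [Group Γ]

theorem lin_single_L2 {D : Sys Γ} {U : Subgroup Γ} {χ : U →* ℂˣ} (h : OpC D U χ) :
    Lin D U (ext U χ) :=
  ⟨1, fun _ => 1, fun _ => χ, fun _ => h, by simp⟩

theorem rs_ext_L2 {H U : Subgroup Γ} (hHU : H ≤ U) (χ : U →* ℂˣ) :
    rs H (ext U χ) = ext H (χ.comp (Subgroup.inclusion hHU)) := by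
  funext g
  by_cases hg : g ∈ H
  · rw [rs_mem _ hg, ext_mem _ hg, ext_mem _ (hHU hg)]
    rfl
  · rw [rs_not_mem _ hg, ext_not_mem _ hg]

/-- CT-L. By `g2_sum` (SB/G2) for each character. -/
theorem lin_ind_rs (D : Sys Γ) {M : Subgroup Γ} (hM : M ∈ D.N) {p : ℕ} (hp : p.Prime) {H U : Subgroup Γ} {t : Γ}
    (h : IsStep p H U t) (hMH : M ≤ H) {ψ : Γ → ℂ} (hψ : Lin D U ψ) :
    Lin D U (∑ k ∈ Finset.range p, cj (t ^ k) (rs H ψ)) := by
  have : NeZero p := ⟨hp.pos.ne'⟩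
  obtain ⟨m, n, χ, hχ, rfl⟩ := hψ
  obtain ⟨κ, hκ⟩ := g2_kappa hp.pos h
  have e1 : (∑ k ∈ Finset.range p, cj (t ^ k) (rs H (∑ i, n i • ext U (χ i)))) =
      ∑ i, n i • ∑ j : ZMod p, ext U (χ i * g2eta κ j) := by
    have e2 : ∀ i, (∑ j : ZMod p, ext U (χ i * g2eta κ j)) =
        ∑ k ∈ Finset.range p, cj (t ^ k) (rs H (ext U (χ i))) := by
      intro i
      rw [← g2_sum h κ hκ (χ i), rs_ext_L2 h.le]
    have e3 : rs H (∑ i, n i • ext U (χ i)) = ∑ i, n i • rs H (ext U (χ i)) := by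
      funext g
      by_cases hg : g ∈ H
      · rw [rs_mem _ hg, Finset.sum_apply, Finset.sum_apply]
        exact Finset.sum_congr rfl fun i _ => by
          rw [Pi.smul_apply, Pi.smul_apply, rs_mem _ hg]
      · rw [rs_not_mem _ hg, Finset.sum_apply]
        exact (Finset.sum_eq_zero fun i _ => by
          rw [Pi.smul_apply, rs_not_mem _ hg, smul_zero]).symm
    rw [e3]
    funext g
    rw [Finset.sum_apply, Finset.sum_apply]
    have e4 : ∀ i ∈ (Finset.univ : Finset (Fin m)), (n i • ∑ j : ZMod p, ext U (χ i * g2eta κ j)) g =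
        ∑ k ∈ Finset.range p, n i • (rs H (ext U (χ i))) ((t ^ k)⁻¹ * g * t ^ k) := by
      intro i _
      rw [e2, Pi.smul_apply, Finset.sum_apply, Finset.smul_sum]
      rfl
    rw [Finset.sum_congr rfl e4, Finset.sum_comm]
    refine Finset.sum_congr rfl fun k _ => ?_
    rw [cj_apply, Finset.sum_apply]
    rfl
  rw [e1]
  refine lin_sum_G1 _ _ fun i _ => lin_zsmul_G1 _ (lin_sum_G1 _ _ fun j _ => lin_single_L2 ?_)
  obtain ⟨M₁, hM₁, hM₁U, h1⟩ := hχ i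
  refine ⟨M₁ ⊓ M, D.inf _ hM₁ _ hM, inf_le_left.trans hM₁U, fun g hg hgM => ?_⟩
  rw [MonoidHom.mul_apply, h1 g hg hgM.1, one_mul]
  exact g2eta_ker κ j _ ((hκ g hg).2 (hMH hgM.2))

/-- CT-L. `φ = Σ_j j (x_j - 1)`, `j` in the range of `β`, `x_j` the quadratic character negative exactly at
`{s ∈ S ∩ H | β s = j}`. -/
theorem exists_lin_of_sign (D : Sys Γ) (hnt : NtU D) {M H : Subgroup Γ} (hM : M ∈ D.N) (hMH : M ≤ H)
    (β : Γ → ℤ) (hfin : (Set.range β).Finite)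
    (hβ : ∀ s ∈ D.S, s ∈ H → ∀ u ∈ H, β (u * s * u⁻¹) = β s) :
    ∃ φ, Lin D H φ ∧ φ 1 = 0 ∧ ∀ s ∈ D.S, s ∈ H → φ s = -2 * β s := by
  have hex : ∀ j : ℤ, ∃ M' ∈ D.N, M' ≤ M ∧ ∃ x : H →* ℤˣ,
      (∀ g (h : g ∈ H), g ∈ M' → x ⟨g, h⟩ = 1) ∧
      ∀ s (h : s ∈ H), s ∈ D.S → (x ⟨s, h⟩ = -1 ↔ s ∈ {s | s ∈ D.S ∧ s ∈ H ∧ β s = j}) := by
    intro j
    refine hnt M hM H hMH {s | s ∈ D.S ∧ s ∈ H ∧ β s = j} (fun s hs => hs.1) (fun s hs => hs.2.1) ?_
    intro s hs u hu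
    exact ⟨D.conj s hs.1 u, H.mul_mem (H.mul_mem hu hs.2.1) (H.inv_mem hu), by
      rw [hβ s hs.1 hs.2.1 u hu, hs.2.2]⟩
  choose M' hM'N hM'M x hx1 hx2 using hex
  refine ⟨∑ j ∈ hfin.toFinset, j • (ext H (qc (x j)) - ext H 1), ?_, ?_, ?_⟩
  · refine lin_sum_G1 _ _ fun j _ => lin_zsmul_G1 _ ?_
    rw [sub_eq_add_neg, ← neg_one_zsmul]
    refine lin_add_G1 (lin_single_L2 ⟨M' j, hM'N j, (hM'M j).trans hMH, fun g hg hgM => ?_⟩)
      (lin_zsmul_G1 _ (lin_single_L2 ⟨M, hM, hMH, fun g hg hgM => rfl⟩))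
    have := hx1 j g hg hgM
    simp [qc, this]
  · rw [Finset.sum_apply]
    refine Finset.sum_eq_zero fun j _ => ?_
    rw [Pi.smul_apply, Pi.sub_apply, ext_mem _ H.one_mem, ext_mem _ H.one_mem]
    have h1 : (⟨1, H.one_mem⟩ : H) = 1 := rfl
    rw [h1, map_one, map_one, sub_self, smul_zero]
  · intro s hs hsH
    rw [Finset.sum_apply]
    have key : ∀ j ∈ hfin.toFinset, (j • (ext H (qc (x j)) - ext H 1)) s =
        if j = β s then -2 * (β s : ℂ) else 0 := by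
      intro j _
      rw [Pi.smul_apply, Pi.sub_apply, ext_mem _ hsH, ext_mem _ hsH]
      by_cases hj : j = β s
      · have h2 := (hx2 j s hsH hs).2 ⟨hs, hsH, hj.symm⟩
        rw [if_pos hj]
        have h3 : ((qc (x j) ⟨s, hsH⟩ : ℂˣ) : ℂ) = -1 := by
          simp [qc, h2]
        rw [h3, MonoidHom.one_apply, Units.val_one, zsmul_eq_mul, hj]
        ring
      · have h2 : x j ⟨s, hsH⟩ ≠ -1 := fun h => hj ((hx2 j s hsH hs).1 h).2.2.symm
        have h4 : x j ⟨s, hsH⟩ = 1 := (Int.units_eq_one_or _).resolve_right h2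
        rw [if_neg hj]
        have h3 : ((qc (x j) ⟨s, hsH⟩ : ℂˣ) : ℂ) = 1 := by
          simp [qc, h4]
        rw [h3, MonoidHom.one_apply, Units.val_one, sub_self, smul_zero]
    rw [Finset.sum_congr rfl key, Finset.sum_ite_eq', if_pos]
    rw [Set.Finite.mem_toFinset]
    exact ⟨s, rfl⟩

end SB
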