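import Pool.Agent.Helper21.CT.Base

/-!
# Project CT, module P: prime steps
-/

namespace SB

universe u

/-! ### CT-P: prime steps -/
section P
variable {Γ : Type*} [Group Γ]

/-- CT-P. The representatives of the cosets are `1, t, ..., t^(p-1)`. -/
theorem relIndex_isStep {p : ℕ} {W U : Subgroup Γ} {t : Γ} (h : IsStep p W U t) :
    W.relIndex U = p := by
  rw [Subgroup.relIndex, Subgroup.index_eq_card, ← Nat.card_fin p]
  refine (Nat.card_congr (Equiv.ofBijective (fun k : Fin p =>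
    (QuotientGroup.mk (⟨t ^ (k : ℕ), U.pow_mem h.mem k⟩ : U) : U ⧸ W.subgroupOf U)) ⟨?_, ?_⟩)).symm
  · intro j k hjk
    have h1 := QuotientGroup.eq.1 hjk
    rw [Subgroup.mem_subgroupOf] at h1
    exact Fin.ext (h.uniq_A1 j.2 k.2 (by simpa using h1))
  · intro q
    obtain ⟨⟨u, hu⟩, rfl⟩ := QuotientGroup.mk_surjective q
    obtain ⟨k, hk, hkW⟩ := h.cover u hu
    refine ⟨⟨k, hk⟩, QuotientGroup.eq.2 ?_⟩
    rw [Subgroup.mem_subgroupOf]
    simpa using hkW

/-- CT-P. The quotient is cyclic of prime order; `t` = a lift of a generator. -/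
theorem exists_isStep {W U : Subgroup Γ} (hle : W ≤ U) (hn : ∀ u ∈ U, ∀ w ∈ W, u * w * u⁻¹ ∈ W)
    (hp : (W.relIndex U).Prime) : ∃ t, IsStep (W.relIndex U) W U t := by
  classical
  have hN : (W.subgroupOf U).Normal := by
    refine ⟨fun n hn' g => ?_⟩
    rw [Subgroup.mem_subgroupOf] at hn' ⊢
    simpa using hn g g.2 n hn'
  have hcard : Nat.card (U ⧸ W.subgroupOf U) = W.relIndex U := by
    rw [Subgroup.relIndex, Subgroup.index_eq_card]
  have hfact : Fact (W.relIndex U).Prime := ⟨hp⟩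
  have hfin : Finite (U ⧸ W.subgroupOf U) := Nat.finite_of_card_ne_zero (by rw [hcard]; exact hp.ne_zero)
  have hnt : Nontrivial (U ⧸ W.subgroupOf U) :=
    Finite.one_lt_card_iff_nontrivial.1 (by rw [hcard]; exact hp.one_lt)
  obtain ⟨g, hg⟩ := exists_ne (1 : U ⧸ W.subgroupOf U)
  have htop : Subgroup.zpowers g = ⊤ := zpowers_eq_top_of_prime_card hcard hg
  have hord : orderOf g = W.relIndex U := by
    rw [← hcard]; exact orderOf_eq_card_of_zpowers_eq_top htop
  obtain ⟨⟨t, ht⟩, rfl⟩ := QuotientGroup.mk_surjective g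
  refine ⟨t, hle, ht, hn, fun u hu => ?_, fun k hk hkW => ?_⟩
  · have h1 : (QuotientGroup.mk (⟨u, hu⟩ : U) : U ⧸ W.subgroupOf U) ∈
        Subgroup.zpowers (QuotientGroup.mk (⟨t, ht⟩ : U) : U ⧸ W.subgroupOf U) := by
      rw [htop]; exact Subgroup.mem_top _
    rw [mem_zpowers_iff_mem_range_orderOf, hord, Finset.mem_image] at h1
    obtain ⟨k, hk, hkeq⟩ := h1
    refine ⟨k, Finset.mem_range.1 hk, ?_⟩
    have h2 : (QuotientGroup.mk ((⟨t, ht⟩ : U) ^ k) : U ⧸ W.subgroupOf U) =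
        QuotientGroup.mk (⟨u, hu⟩ : U) := by
      rw [← hkeq]; rfl
    have h3 := QuotientGroup.eq.1 h2
    rw [Subgroup.mem_subgroupOf] at h3
    simpa using h3
  · have h2 : (QuotientGroup.mk (⟨t, ht⟩ : U) : U ⧸ W.subgroupOf U) ^ k = 1 := by
      have h3 : (QuotientGroup.mk ((⟨t, ht⟩ : U) ^ k) : U ⧸ W.subgroupOf U) = 1 := by
        rw [QuotientGroup.eq_one_iff, Subgroup.mem_subgroupOf]
        simpa using hkW
      rw [← h3]; rfl
    have h4 := orderOf_dvd_of_pow_eq_one h2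
    rw [hord] at h4
    exact Nat.eq_zero_of_dvd_of_lt h4 hk

/-- CT-P. -/
theorem tower_step {S : Set Γ} {p : ℕ} (hp : p.Prime) {W U : Subgroup Γ} {t : Γ} (h : IsStep p W U t)
    (hU : Tower S U) : Tower S W :=
  Tower.step hU h.le h.norm (by rw [relIndex_isStep h]; exact hp)

/-- CT-P. -/
theorem tower_fin {S : Set Γ} {U : Subgroup Γ} (h : Tower S U) : U.FiniteIndex := by
  induction h with
  | base h _ => exact h
  | step _ hle _ hp ih =>
    refine ⟨?_⟩
    rw [← Subgroup.relIndex_mul_index hle]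
    exact mul_ne_zero hp.ne_zero ih.index_ne_zero

/-- CT-P. As `fam_of_tow` in SB/A2, by induction on `TowA`. -/
theorem fam_of_towA (D : Sys Γ) {U : Subgroup Γ} (hU : Tower D.S U) {φ : Γ → ℂ} (h : TowA D U φ) :
    Fam D (Tower D.S) (Ind U φ) := by
  induction h with
  | base h =>
    obtain ⟨χ, χ', h1, h2, h3, rfl⟩ := h
    refine fam_of_fintype_A2 D (Tower D.S) (ι := Unit) (fun _ => 1) (fun _ => _) (fun _ => χ)
      (fun _ => χ') (fun _ => hU) (fun _ => h1) (fun _ => h2) (fun _ => h3) (fun g => ?_)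
    rw [Ind_sub_A2 (tower_fin hU)]
    simp
  | zero U =>
    have h0 : Ind U (0 : Γ → ℂ) = fun _ => 0 := funext fun g => Ind_zero_A2 g
    rw [h0]
    exact fam_zero D _
  | @add U φ ψ _ _ ih1 ih2 =>
    have h0 : Ind U (φ + ψ) = fun g => Ind U φ g + Ind U ψ g :=
      funext fun g => Ind_add_A2 (tower_fin hU) φ ψ g
    rw [h0]
    exact fam_add D _ (ih1 hU) (ih2 hU)
  | @neg U φ _ ih =>
    have h0 : Ind U (-φ) = fun g => ((-1 : ℤ) : ℂ) * Ind U φ g :=
      funext fun g => by rw [Ind_neg_A2]; push_cast; ring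
    rw [h0]
    exact fam_zmul D _ (-1) (ih hU)
  | step hp t hs hW ih =>
    rw [Ind_step hp.pos (tower_fin hU) hs hW.cls]
    exact ih (tower_step hp hs hU)

end P

end SB
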