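import Pool.Agent.Helper21.CT.Base
import Pool.Agent.Helper21.CT.P
import Pool.Agent.Helper21.CT.L1
import Pool.Agent.Helper21.CT.L2

namespace SB

universe u

section B
variable {Γ : Type u} [Group Γ]

theorem PChain.le_B3 {L V : Subgroup Γ} (h : PChain L V) : L ≤ V := by
  induction h with
  | refl => exact le_rfl
  | step _ hle _ _ ih => exact ih.trans hle

theorem rs_rs_B3 {L V : Subgroup Γ} (h : L ≤ V) (φ : Γ → ℂ) : rs L (rs V φ) = rs L φ := by
  funext g
  by_cases hg : g ∈ L
  · rw [rs_mem _ hg, rs_mem _ hg, rs_mem _ (h hg)]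
  · rw [rs_not_mem _ hg, rs_not_mem _ hg]

/-- CT-B3. Induction on the chain; each step by `sum_rs`, `lin_ind_rs`, `lin_towA`, `Ind_step`. -/
theorem chain_rat (D : Sys Γ) {L V : Subgroup Γ} (hL : L ∈ D.N) (hS : D.S ⊆ L) (hc : PChain L V)
    {ψ : Γ → ℂ} (hψ : Lin D V ψ) :
    Fam D (Tower D.S) (fun g => (L.relIndex V : ℂ) * Ind V ψ g - Ind L (rs L ψ) g) := by
  induction hc generalizing ψ with
  | refl =>
    have h1 : rs L ψ = ψ := by
      funext g
      by_cases hg : g ∈ L
      · rw [rs_mem _ hg]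
      · rw [rs_not_mem _ hg, (cls_lin hψ).1 g hg]
    have h2 : (fun g => (L.relIndex L : ℂ) * Ind L ψ g - Ind L (rs L ψ) g) = fun _ => 0 := by
      funext g
      rw [h1, Subgroup.relIndex_self]
      simp
    rw [h2]
    exact fam_zero D _
  | @step V W hVL hVW hn hp ih =>
    have hLV : L ≤ V := hVL.le_B3
    have hfL : L.FiniteIndex := D.fin L hL
    have hfV : V.FiniteIndex := Subgroup.finiteIndex_of_le hLV
    have hfW : W.FiniteIndex := Subgroup.finiteIndex_of_le (hLV.trans hVW)
    obtain ⟨t, ht⟩ := exists_isStep hVW hn hp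
    set p := V.relIndex W with hpdef
    have hψ' : Lin D V (rs V ψ) := lin_rs D hL hLV hVW hψ
    have hψW : Lin D W (∑ k ∈ Finset.range p, cj (t ^ k) (rs V ψ)) := lin_ind_rs D hL hp ht hLV hψ
    set Rψ := ∑ k ∈ Finset.range p, cj (t ^ k) (rs V ψ) with hR
    have hsum : ∀ g, Rψ g = (p : ℂ) * rs V ψ g := fun g => sum_rs ht (cls_lin hψ) g
    have hlin : Lin D W ((p : ℤ) • ψ + (-1 : ℤ) • Rψ) :=
      lin_add_G1 (lin_zsmul_G1 _ hψ) (lin_zsmul_G1 _ hψW)
    have hval : ∀ g ∈ V, ((p : ℤ) • ψ + (-1 : ℤ) • Rψ) g = 0 := by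
      intro g hg
      rw [Pi.add_apply, Pi.smul_apply, Pi.smul_apply, hsum, rs_mem _ hg]
      simp
    have hT : TowA D W ((p : ℤ) • ψ + (-1 : ℤ) • Rψ) :=
      lin_towA D hlin (hval 1 V.one_mem) fun s hs _ => hval s (hLV (hS hs))
    have hTow : Tower D.S W := Tower.base hfW fun s hs => hVW (hLV (hS hs))
    have hfam := fam_of_towA D hTow hT
    have hst : Ind W Rψ = Ind V (rs V ψ) := Ind_step hp.pos hfW ht (cls_lin hψ')
    have hI : ∀ g, Ind W ((p : ℤ) • ψ + (-1 : ℤ) • Rψ) g = (p : ℂ) * Ind W ψ g - Ind V (rs V ψ) g := by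
      intro g
      have h1 : (p : ℤ) • ψ + (-1 : ℤ) • Rψ = (p : ℤ) • ψ - Rψ := by
        rw [neg_smul, one_smul, sub_eq_add_neg]
      rw [h1, Ind_sub_A2 hfW, hst]
      congr 1
      unfold Ind
      have : Finite (Γ ⧸ W) := W.finite_quotient_of_finiteIndex
      have hfintU : Fintype (Γ ⧸ W) := Fintype.ofFinite _
      rw [finsum_eq_sum_of_fintype, finsum_eq_sum_of_fintype, Finset.mul_sum]
      refine Finset.sum_congr rfl fun q _ => ?_
      rw [Pi.smul_apply, zsmul_eq_mul]
      simp
    have hih := ih hψ'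
    have key := fam_add D _ (fam_zmul D _ (L.relIndex V : ℤ) hfam) hih
    have heq : (fun g => (L.relIndex W : ℂ) * Ind W ψ g - Ind L (rs L ψ) g) = fun g =>
        ((L.relIndex V : ℤ) : ℂ) * Ind W ((p : ℤ) • ψ + (-1 : ℤ) • Rψ) g +
          ((L.relIndex V : ℂ) * Ind V (rs V ψ) g - Ind L (rs L (rs V ψ)) g) := by
      funext g
      rw [hI, rs_rs_B3 hLV, ← Subgroup.relIndex_mul_relIndex L V W hLV hVW]
      push_cast
      ring
    rw [heq]
    exact key

theorem exists_prime_index_B3 (G : Type*) [Group G] [Finite G] [Nontrivial G] [Group.IsSolvable G] :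
    ∃ N : Subgroup G, N.Normal ∧ N.index.Prime := by
  have h := Group.IsSolvable.commutator_lt_top_of_nontrivial G
  obtain ⟨M, hM, hle⟩ := (IsCoatomic.eq_top_or_exists_le_coatom (commutator G)).resolve_left h.ne
  have hn : M.Normal := Subgroup.Normal.of_commutator_le G hle
  refine ⟨M, hn, ?_⟩
  let _ : CommGroup (G ⧸ M) :=
    { (inferInstance : Group (G ⧸ M)) with
      mul_comm := fun a b => by
        obtain ⟨x, rfl⟩ := QuotientGroup.mk_surjective a
        obtain ⟨y, rfl⟩ := QuotientGroup.mk_surjective b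
        rw [← QuotientGroup.mk_mul, ← QuotientGroup.mk_mul, QuotientGroup.eq]
        refine hle ?_
        have h7 : (x * y)⁻¹ * (y * x) = y⁻¹ * x⁻¹ * y⁻¹⁻¹ * x⁻¹⁻¹ := by group
        rw [h7]
        exact Subgroup.commutator_mem_commutator (Subgroup.mem_top y⁻¹) (Subgroup.mem_top x⁻¹) }
  have hnt : Nontrivial (G ⧸ M) := QuotientGroup.nontrivial_iff.2 hM.1
  have hs : IsSimpleGroup (G ⧸ M) := by
    refine { hnt with eq_bot_or_eq_top_of_normal := fun K _ => ?_ }
    have h1 : M ≤ K.comap (QuotientGroup.mk' M) := by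
      intro x hx
      rw [Subgroup.mem_comap]
      have : QuotientGroup.mk' M x = 1 := (QuotientGroup.eq_one_iff x).2 hx
      rw [this]; exact K.one_mem
    rcases hM.le_iff.1 h1 with h2 | h2
    · right
      rw [eq_top_iff]
      intro q _
      obtain ⟨x, rfl⟩ := QuotientGroup.mk_surjective q
      have : x ∈ K.comap (QuotientGroup.mk' M) := by rw [h2]; exact Subgroup.mem_top x
      exact this
    · left
      rw [eq_bot_iff]
      intro q hq
      obtain ⟨x, rfl⟩ := QuotientGroup.mk_surjective q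
      have : x ∈ M := by rw [← h2]; exact hq
      rw [Subgroup.mem_bot]
      exact (QuotientGroup.eq_one_iff x).2 this
  exact CommGroup.is_simple_iff_prime_card.1 hs

/-- CT-B3. A finite solvable group has a normal subgroup of prime index, if it is not trivial. -/
theorem chain_of_solvable {L V : Subgroup Γ} (hLV : L ≤ V) [hn : (L.subgroupOf V).Normal]
    (hfin : L.relIndex V ≠ 0) (hsol : Group.IsSolvable (V ⧸ L.subgroupOf V)) : PChain L V := by
  obtain ⟨n, hnn⟩ : ∃ n, L.relIndex V = n := ⟨_, rfl⟩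
  induction n using Nat.strong_induction_on generalizing V with
  | _ n ih =>
    by_cases h1 : L.relIndex V = 1
    · have h2 : V = L := le_antisymm (Subgroup.relIndex_eq_one.1 h1) hLV
      subst h2
      exact PChain.refl
    · have hf : Finite (V ⧸ L.subgroupOf V) := by
        refine Nat.finite_of_card_ne_zero ?_
        exact hfin
      have hnt : Nontrivial (V ⧸ L.subgroupOf V) := by
        rw [QuotientGroup.nontrivial_iff]
        intro h2
        apply h1
        unfold Subgroup.relIndex
        rw [h2, Subgroup.index_top]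
      obtain ⟨N, hN, hprime⟩ := exists_prime_index_B3 (V ⧸ L.subgroupOf V)
      set N' : Subgroup V := N.comap (QuotientGroup.mk' (L.subgroupOf V)) with hN'
      set V' : Subgroup Γ := N'.map V.subtype with hV'
      have hV'V : V' ≤ V := Subgroup.map_subtype_le N'
      have hmem : ∀ (x : Γ) (hx : x ∈ V), x ∈ V' ↔ (⟨x, hx⟩ : V) ∈ N' := by
        intro x hx
        rw [hV', Subgroup.mem_map]
        constructor
        · rintro ⟨y, hy, rfl⟩
          exact hy
        · intro h
          exact ⟨⟨x, hx⟩, h, rfl⟩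
      have hsub : V'.subgroupOf V = N' := by
        ext x
        rw [Subgroup.mem_subgroupOf]
        exact hmem x.1 x.2
      have hrel : V'.relIndex V = N.index := by
        unfold Subgroup.relIndex
        rw [hsub, hN', Subgroup.index_comap_of_surjective _ (QuotientGroup.mk'_surjective _)]
      have hLV' : L ≤ V' := by
        intro x hx
        rw [hmem x (hLV hx), hN', Subgroup.mem_comap]
        have : QuotientGroup.mk' (L.subgroupOf V) ⟨x, hLV hx⟩ = 1 :=
          (QuotientGroup.eq_one_iff _).2 (Subgroup.mem_subgroupOf.2 hx)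
        rw [this]; exact N.one_mem
      have hmul := Subgroup.relIndex_mul_relIndex L V' V hLV' hV'V
      have hp2 : 2 ≤ V'.relIndex V := by rw [hrel]; exact hprime.two_le
      have hne : L.relIndex V' ≠ 0 := by
        intro h0; rw [h0, zero_mul] at hmul; exact hfin hmul.symm
      have hlt : L.relIndex V' < n := by
        rw [← hnn, ← hmul]
        have : 0 < L.relIndex V' := Nat.pos_of_ne_zero hne
        nlinarith
      have hn' : (L.subgroupOf V').Normal := by
        refine ⟨fun x hx g => ?_⟩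
        rw [Subgroup.mem_subgroupOf] at hx ⊢
        have h3 := hn.conj_mem ⟨x.1, hV'V x.2⟩ (Subgroup.mem_subgroupOf.2 hx) ⟨g.1, hV'V g.2⟩
        exact Subgroup.mem_subgroupOf.1 h3
      have hsol' : Group.IsSolvable (V' ⧸ L.subgroupOf V') := by
        have hle : L.subgroupOf V' ≤ (L.subgroupOf V).comap (Subgroup.inclusion hV'V) := by
          intro x hx
          exact hx
        refine Group.isSolvable_of_isSolvable_injective
          (f := QuotientGroup.map (L.subgroupOf V') (L.subgroupOf V) (Subgroup.inclusion hV'V) hle) ?_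
        rw [injective_iff_map_eq_one]
        intro q hq
        obtain ⟨x, rfl⟩ := QuotientGroup.mk_surjective q
        rw [QuotientGroup.map_mk, QuotientGroup.eq_one_iff] at hq
        rw [QuotientGroup.eq_one_iff]
        exact hq
      refine PChain.step (ih _ hlt hLV' (hn := hn') hne hsol' rfl) hV'V ?_ (by rw [hrel]; exact hprime)
      intro w hw v hv
      have hvV := hV'V hv
      have h4 : (⟨v, hvV⟩ : V) ∈ N' := (hmem v hvV).1 hv
      have hN'n : N'.Normal := hN.comap _
      have h5 := hN'n.conj_mem _ h4 ⟨w, hw⟩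
      exact (hmem _ (V.mul_mem (V.mul_mem hw hvV) (V.inv_mem hw))).2 h5

end B

end SB
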