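import Pool.Agent.Helper21.CT.Base
import Pool.Agent.Helper21.CT.B3

namespace SB

universe u

section B
variable {Γ : Type u} [Group Γ]

/-- Transitivity of induction. -/
theorem ind_trans_B4 {U : Subgroup Γ} (hU : U.FiniteIndex) (W' : Subgroup U) (hW' : W'.FiniteIndex)
    {φ : Γ → ℂ} (hφ : Cls (W'.map U.subtype) φ) (g : Γ) :
    Ind (W'.map U.subtype) φ g = ∑ᶠ q : Γ ⧸ U, (open Classical in
      if h : q.out⁻¹ * g * q.out ∈ U then Ind W' (fun u : U => φ u) ⟨_, h⟩ else 0) := by
  classical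
  set W : Subgroup Γ := W'.map U.subtype with hW
  have hWU : W ≤ U := Subgroup.map_subtype_le W'
  have hmem : ∀ (x : U), (x : Γ) ∈ W ↔ x ∈ W' := by
    intro x
    rw [hW, Subgroup.mem_map]
    constructor
    · rintro ⟨y, hy, hyx⟩
      have : y = x := Subtype.ext hyx
      rwa [← this]
    · intro h
      exact ⟨x, h, rfl⟩
  have hfU : Finite (Γ ⧸ U) := U.finite_quotient_of_finiteIndex
  have hfW' : Finite (U ⧸ W') := W'.finite_quotient_of_finiteIndex
  have hft1 : Fintype (Γ ⧸ U) := Fintype.ofFinite _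
  have hft2 : Fintype (U ⧸ W') := Fintype.ofFinite _
  have hbij : Function.Bijective (fun x : (Γ ⧸ U) × (U ⧸ W') =>
      (QuotientGroup.mk (x.1.out * (x.2.out : Γ)) : Γ ⧸ W)) := by
    constructor
    · rintro ⟨q, r⟩ ⟨q', r'⟩ hqr
      have h1 : (q.out * (r.out : Γ))⁻¹ * (q'.out * (r'.out : Γ)) ∈ W := QuotientGroup.eq.1 hqr
      have hq : q = q' := by
        rw [← QuotientGroup.out_eq' q, ← QuotientGroup.out_eq' q', QuotientGroup.eq]
        have h2 : q.out⁻¹ * q'.out = (r.out : Γ) *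
            ((q.out * (r.out : Γ))⁻¹ * (q'.out * (r'.out : Γ))) * (r'.out : Γ)⁻¹ := by group
        rw [h2]
        exact U.mul_mem (U.mul_mem r.out.2 (hWU h1)) (U.inv_mem r'.out.2)
      subst hq
      have h3 : (q.out * (r.out : Γ))⁻¹ * (q.out * (r'.out : Γ)) =
          ((r.out⁻¹ * r'.out : U) : Γ) := by
        rw [Subgroup.coe_mul, Subgroup.coe_inv]; group
      rw [h3, hmem] at h1
      have h4 : r = r' := by
        rw [← QuotientGroup.out_eq' r, ← QuotientGroup.out_eq' r', QuotientGroup.eq]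
        exact h1
      rw [h4]
    · intro z
      obtain ⟨x, rfl⟩ := QuotientGroup.mk_surjective z
      have h1 : (QuotientGroup.mk x : Γ ⧸ U).out⁻¹ * x ∈ U := by
        rw [← QuotientGroup.eq, QuotientGroup.out_eq']
      set y : U := ⟨_, h1⟩ with hy
      refine ⟨⟨QuotientGroup.mk x, QuotientGroup.mk y⟩, ?_⟩
      rw [QuotientGroup.eq]
      have h2 : (QuotientGroup.mk y : U ⧸ W').out⁻¹ * y ∈ W' := by
        rw [← QuotientGroup.eq, QuotientGroup.out_eq']
      have h3 : ((QuotientGroup.mk x : Γ ⧸ U).out * ((QuotientGroup.mk y : U ⧸ W').out : Γ))⁻¹ * x =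
          (((QuotientGroup.mk y : U ⧸ W').out⁻¹ * y : U) : Γ) := by
        rw [Subgroup.coe_mul, Subgroup.coe_inv, hy]
        simp only
        group
      simp only
      rw [h3, hmem]
      exact h2
  have h2 : Ind W φ g = ∑ᶠ x : (Γ ⧸ U) × (U ⧸ W'),
      φ ((x.1.out * (x.2.out : Γ))⁻¹ * g * (x.1.out * (x.2.out : Γ))) := by
    unfold Ind
    refine (finsum_eq_of_bijective _ hbij fun x => ?_).symm
    symm
    refine cls_coset_A1 hφ ?_ g
    obtain ⟨w, hw⟩ := QuotientGroup.mk_out_eq_mul W (x.1.out * (x.2.out : Γ))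
    rw [hw, inv_mul_cancel_left]
    exact w.2
  rw [h2, finsum_eq_sum_of_fintype, finsum_eq_sum_of_fintype, Fintype.sum_prod_type]
  refine Finset.sum_congr rfl fun q _ => ?_
  by_cases h : q.out⁻¹ * g * q.out ∈ U
  · rw [dif_pos h]
    unfold Ind
    rw [finsum_eq_sum_of_fintype]
    refine Finset.sum_congr rfl fun r _ => ?_
    congr 1
    rw [Subgroup.coe_mul, Subgroup.coe_mul, Subgroup.coe_inv]
    simp only
    group
  · rw [dif_neg h]
    refine Finset.sum_eq_zero fun r _ => hφ.1 _ fun hr => h ?_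
    have h5 : q.out⁻¹ * g * q.out = (r.out : Γ) *
        ((q.out * (r.out : Γ))⁻¹ * g * (q.out * (r.out : Γ))) * (r.out : Γ)⁻¹ := by group
    rw [h5]
    exact U.mul_mem (U.mul_mem r.out.2 (hWU hr)) (U.inv_mem r.out.2)

theorem solvable_of_abExt_B4 {G : Type*} [Group G] {p : ℕ} (hp : p.Prime) {M C V : Subgroup G}
    (hM : M.Normal) (h : AbExt p M C V) : Group.IsSolvable (V ⧸ M.subgroupOf V) := by
  obtain ⟨hmc, hcv, hnorm, hcomm, n, hidx⟩ := h
  have hCn : (C.subgroupOf V).Normal := by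
    refine ⟨fun x hx g => ?_⟩
    rw [Subgroup.mem_subgroupOf] at hx ⊢
    exact hnorm g.1 g.2 x.1 hx
  have hcard : Nat.card (V ⧸ C.subgroupOf V) = p ^ n := hidx
  have hfin : Finite (V ⧸ C.subgroupOf V) :=
    Nat.finite_of_card_ne_zero (by rw [hcard]; exact pow_ne_zero _ hp.ne_zero)
  have hfact : Fact p.Prime := ⟨hp⟩
  have hpg : IsPGroup p (V ⧸ C.subgroupOf V) := IsPGroup.of_card hcard
  have hnil : Group.IsNilpotent (V ⧸ C.subgroupOf V) := hpg.isNilpotent
  have hs2 : Group.IsSolvable (V ⧸ C.subgroupOf V) := inferInstance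
  have hs1 : Group.IsSolvable (C ⧸ M.subgroupOf C) := by
    refine Group.isSolvable_of_comm fun a b => ?_
    obtain ⟨x, rfl⟩ := QuotientGroup.mk_surjective a
    obtain ⟨y, rfl⟩ := QuotientGroup.mk_surjective b
    rw [← QuotientGroup.mk_mul, ← QuotientGroup.mk_mul, QuotientGroup.eq, Subgroup.mem_subgroupOf]
    have h1 := hcomm (y.1⁻¹) (C.inv_mem y.2) (x.1⁻¹) (C.inv_mem x.2)
    have h2 : (((x * y)⁻¹ * (y * x) : C) : G) = y.1⁻¹ * x.1⁻¹ * y.1⁻¹⁻¹ * x.1⁻¹⁻¹ := by
      push_cast
      group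
    rw [h2]
    exact h1
  refine Group.isSolvable_of_ker_le_range
    (QuotientGroup.map (M.subgroupOf C) (M.subgroupOf V) (Subgroup.inclusion hcv) fun x hx => hx)
    (QuotientGroup.map (M.subgroupOf V) (C.subgroupOf V) (MonoidHom.id V) fun x hx => hmc hx) ?_
  intro q hq
  obtain ⟨x, rfl⟩ := QuotientGroup.mk_surjective q
  rw [MonoidHom.mem_ker, QuotientGroup.map_mk, QuotientGroup.eq_one_iff] at hq
  have hx : x.1 ∈ C := hq
  exact ⟨QuotientGroup.mk ⟨x.1, hx⟩, rfl⟩

theorem PChain.map_B4 {U : Subgroup Γ} {M V : Subgroup U} (h : PChain M V) :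
    PChain (M.map U.subtype) (V.map U.subtype) := by
  induction h with
  | refl => exact PChain.refl
  | @step V W _ hVW hn hp ih =>
    refine PChain.step ih (Subgroup.map_mono hVW) ?_ ?_
    · rintro _ ⟨w, hw, rfl⟩ _ ⟨v, hv, rfl⟩
      exact ⟨w * v * w⁻¹, hn w hw v hv, by simp⟩
    · rw [Subgroup.relIndex_map_map_of_injective _ _ U.subtype_injective]
      exact hp

/-- CT-B4. `gSolPull` for the group `↥U` and `M = L.subgroupOf U`; transitivity of induction. -/
theorem solomon_inner {L U : Subgroup Γ} (hL : L.Normal) (hLU : L ≤ U) (hU : U.FiniteIndex)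
    (hLf : L.FiniteIndex) :
    ∃ (m : ℕ) (a : Fin m → ℤ) (W : Fin m → Subgroup Γ), (∀ i, W i ≤ U) ∧ (∀ i, PChain L (W i)) ∧
      ∀ ψ : Γ → ℂ, Cls U ψ → ∀ g, Ind U ψ g = ∑ i, (a i : ℂ) * Ind (W i) (rs (W i) ψ) g := by
  classical
  set M : Subgroup U := L.subgroupOf U with hM
  have hMn : M.Normal := hL.subgroupOf U
  have hMf : M.FiniteIndex := by rw [hM]; infer_instance
  obtain ⟨m, a, p, V, C, hp, hab, -, -, hsum⟩ := gSolPull M hMn hMf
  have hML : M.map U.subtype = L := Subgroup.map_subgroupOf_eq_of_le hLU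
  have hMV : ∀ i, M ≤ V i := fun i => (hab i).mc.trans (hab i).cu
  have hVf : ∀ i, (V i).FiniteIndex := fun i => Subgroup.finiteIndex_of_le (hMV i)
  refine ⟨m, a, fun i => (V i).map U.subtype, fun i => Subgroup.map_subtype_le _, fun i => ?_,
    fun ψ hψ g => ?_⟩
  · rw [← hML]
    refine PChain.map_B4 ?_
    have hn : (M.subgroupOf (V i)).Normal := hMn.subgroupOf _
    refine chain_of_solvable (hMV i) ?_ (solvable_of_abExt_B4 (hp i) hMn (hab i))
    have := hMf.index_ne_zero
    rw [← Subgroup.relIndex_mul_index (hMV i)] at this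
    exact left_ne_zero_of_mul this
  · have hmem : ∀ i (x : U), (x : Γ) ∈ (V i).map U.subtype ↔ x ∈ V i := by
      intro i x
      rw [Subgroup.mem_map]
      constructor
      · rintro ⟨y, hy, hyx⟩
        have : y = x := Subtype.ext hyx
        rwa [← this]
      · intro h
        exact ⟨x, h, rfl⟩
    have hcls : ∀ i, Cls ((V i).map U.subtype) (rs ((V i).map U.subtype) ψ) := by
      intro i
      refine ⟨fun x hx => rs_not_mem _ hx, fun u hu x => ?_⟩
      have huU : u ∈ U := Subgroup.map_subtype_le _ hu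
      by_cases hx : x ∈ (V i).map U.subtype
      · rw [rs_mem _ hx, rs_mem _ (Subgroup.mul_mem _ (Subgroup.mul_mem _ (Subgroup.inv_mem _ hu) hx) hu)]
        exact hψ.2 u huU x
      · rw [rs_not_mem _ hx, rs_not_mem]
        intro h
        apply hx
        have h2 := Subgroup.mul_mem _ (Subgroup.mul_mem _ hu h) (Subgroup.inv_mem _ hu)
        have h3 : u * (u⁻¹ * x * u) * u⁻¹ = x := by group
        rwa [h3] at h2
    have hv := hsum (fun u : U => ψ u) (fun u x => by
      have := hψ.2 x.1 x.2 u.1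
      simpa using this)
    have hfU : Finite (Γ ⧸ U) := U.finite_quotient_of_finiteIndex
    have hft1 : Fintype (Γ ⧸ U) := Fintype.ofFinite _
    have hI : ∀ i, Ind ((V i).map U.subtype) (rs ((V i).map U.subtype) ψ) g =
        ∑ q : Γ ⧸ U, (if h : q.out⁻¹ * g * q.out ∈ U then
          Ind (V i) (Set.indicator (V i : Set U) (fun u : U => ψ u)) ⟨_, h⟩ else 0) := by
      intro i
      rw [ind_trans_B4 hU (V i) (hVf i) (hcls i) g, finsum_eq_sum_of_fintype]
      refine Finset.sum_congr rfl fun q _ => ?_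
      congr 1
      funext h
      congr 1
      funext u
      by_cases hu : u ∈ V i
      · rw [rs_mem _ ((hmem i u).2 hu), Set.indicator_of_mem hu]
      · rw [rs_not_mem _ (fun h => hu ((hmem i u).1 h)), Set.indicator_of_notMem hu]
    have hR : ∑ i, (a i : ℂ) * Ind ((V i).map U.subtype) (rs ((V i).map U.subtype) ψ) g =
        ∑ q : Γ ⧸ U, ∑ i, (a i : ℂ) * (if h : q.out⁻¹ * g * q.out ∈ U then
          Ind (V i) (Set.indicator (V i : Set U) (fun u : U => ψ u)) ⟨_, h⟩ else 0) := by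
      rw [Finset.sum_comm]
      refine Finset.sum_congr rfl fun i _ => ?_
      rw [hI, Finset.mul_sum]
    rw [hR]
    unfold Ind
    rw [finsum_eq_sum_of_fintype]
    refine Finset.sum_congr rfl fun q _ => ?_
    by_cases h : q.out⁻¹ * g * q.out ∈ U
    · have := hv ⟨_, h⟩
      simp only at this
      rw [this]
      refine Finset.sum_congr rfl fun i _ => ?_
      rw [dif_pos h]
      rfl
    · rw [hψ.1 _ h]
      symm
      refine Finset.sum_eq_zero fun i _ => ?_
      rw [dif_neg h, mul_zero]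

end B

end SB
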