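import Pool.Agent.Helper21.CT.K7

/-!
# CT3-U: degree zero, no condition at `S`
-/

namespace SB

universe u

section
variable {Γ : Type u} [Group Γ]

/-- The same system with `S = ∅`. -/
def Sys.emp (D : Sys Γ) : Sys Γ where
  S := ∅
  N := D.N
  normal := D.normal
  fin := D.fin
  inf := D.inf
  conj := fun s hs => absurd hs (Set.notMem_empty s)
  sq := fun s hs => absurd hs (Set.notMem_empty s)
  nt := fun M hM _ _ _ _ _ _ _ => ⟨M, hM, le_rfl, 1, fun _ _ _ => rfl, fun s _ hs => absurd hs (Set.notMem_empty s)⟩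

theorem fam_emp {D : Sys Γ} {P : Subgroup Γ → Prop} {v : Γ → ℂ} (h : Fam D P v) : Fam D.emp P v := by
  obtain ⟨m, n, U, χ, χ', h1, h2, h3, -, h4⟩ := h
  exact ⟨m, n, U, χ, χ', h1, h2, h3, fun i s _ hs => absurd hs (Set.notMem_empty s), h4⟩

/-- A linear function is, up to the family, its degree times the trivial character. -/
theorem lin_unit (D : Sys Γ) {P : Subgroup Γ → Prop} {U : Subgroup Γ} (hU : U.FiniteIndex) (hP : P U) {ψ : Γ → ℂ}
    (hψ : Lin D U ψ) : ∃ d : ℤ, ψ 1 = d ∧ Fam D.emp P (fun g => Ind U ψ g - (d : ℂ) * Ind U (ext U 1) g) := by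
  obtain ⟨m, n, χ, hχ, rfl⟩ := hψ
  refine ⟨∑ i, n i, ?_, ?_⟩
  · rw [Finset.sum_apply]
    push_cast
    refine Finset.sum_congr rfl fun i _ => ?_
    rw [Pi.smul_apply, ext_mem _ U.one_mem]
    have h5 : (⟨1, U.one_mem⟩ : U) = 1 := rfl
    rw [h5, map_one]
    simp
  · have key : ∀ i, Fam D.emp P (fun g => Ind U (ext U (χ i)) g - Ind U (ext U 1) g) := by
      intro i
      refine fam_of_fintype_A2 D.emp P (ι := Unit) (fun _ => 1) (fun _ => U) (fun _ => χ i) (fun _ => 1)
        (fun _ => hP) (fun _ => hχ i) (fun _ => ?_) (fun _ s _ hs => absurd hs (Set.notMem_empty s)) fun g => by simp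
      obtain ⟨M, hM, hMU, -⟩ := hχ i
      exact ⟨M, hM, hMU, fun _ _ _ => rfl⟩
    refine fam_congr (fam_sum D.emp P n _ key) fun g => ?_
    have h1 : Ind U (∑ i, n i • ext U (χ i)) g = ∑ i, (n i : ℂ) * Ind U (ext U (χ i)) g := by
      have : Finite (Γ ⧸ U) := U.finite_quotient_of_finiteIndex
      have : Fintype (Γ ⧸ U) := Fintype.ofFinite _
      unfold Ind
      simp only [finsum_eq_sum_of_fintype, Finset.mul_sum]
      rw [Finset.sum_comm]
      refine Finset.sum_congr rfl fun q _ => ?_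
      rw [Finset.sum_apply]
      exact Finset.sum_congr rfl fun i _ => by rw [Pi.smul_apply, zsmul_eq_mul]
    rw [h1]
    push_cast
    rw [Finset.sum_mul, ← Finset.sum_sub_distrib]
    exact Finset.sum_congr rfl fun i _ => by ring

theorem rs_ext_one {W U : Subgroup Γ} (hle : W ≤ U) : rs W (ext U 1) = ext W 1 := by
  funext g
  by_cases h : g ∈ W
  · rw [rs_mem _ h, ext_one_apply U (hle h), ext_one_apply W h]
  · rw [rs_not_mem _ h, ext_not_mem _ h]

theorem index_eq {W U : Subgroup Γ} (hle : W ≤ U) : (W.index : ℂ) = (W.relIndex U : ℂ) * (U.index : ℂ) := by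
  rw [← Subgroup.relIndex_mul_index hle]
  push_cast
  ring

theorem tower3_unit (D : Sys Γ) (hup : ∀ M ∈ D.N, ∀ M' : Subgroup Γ, M'.Normal → M ≤ M' → M' ∈ D.N)
    {U : Subgroup Γ} (hU : Tower3 D.S U) {M : Subgroup Γ} (hM : M ∈ D.N) (hMU : M ≤ U) :
    Fam D.emp (Tower3 D.S) (fun g => Ind U (ext U 1) g - (U.index : ℂ)) := by
  -- a normal step
  have hstep : ∀ {W U : Subgroup Γ} (_ : Tower3 D.S U) (_ : W ≤ U) (_ : ∀ u ∈ U, ∀ w ∈ W, u * w * u⁻¹ ∈ W)
      (_ : (W.relIndex U).Prime)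
      (_ : Fam D.emp (Tower3 D.S) (fun g => Ind U (ext U 1) g - (U.index : ℂ))) (_ : M ≤ W),
      Fam D.emp (Tower3 D.S) (fun g => Ind W (ext W 1) g - (W.index : ℂ)) := by
    intro W U hTU hle hn hpr ih hMW
    obtain ⟨t, ht⟩ := exists_isStep hle hn hpr
    have hfin := tower3_fin hTU
    have hl : Lin D U (ext U 1) := lin_ext (opc_one hM (hMW.trans hle))
    have hl2 := lin_ind_rs D hM hpr ht hMW hl
    rw [rs_ext_one hle] at hl2
    obtain ⟨d, hd, hf⟩ := lin_unit D hfin hTU hl2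
    rw [Ind_step hpr.pos hfin ht (cls_ext W 1)] at hf
    have hd2 : (d : ℂ) = (W.relIndex U : ℂ) := by
      rw [← hd, sum_cj_A1, Finset.sum_congr rfl fun k _ => by
        rw [mul_one, inv_mul_cancel, ext_one_apply W W.one_mem], Finset.sum_const, Finset.card_range]
      simp
    refine fam_congr (fam_add D.emp _ hf (fam_zmul D.emp _ d ih)) fun g => ?_
    rw [index_eq hle, ← hd2]
    ring
  induction hU with
  | base hfin hS =>
    exact fam_emp (fam_mono (fun _ => tower3_of_tower) (brauer0 D hup hM hMU hS))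
  | @step W U hTU hle hn hpr ih => exact hstep hTU hle hn hpr (ih (hMU.trans hle)) hMU
  | @cubic W U hTU hle h3 ih =>
    by_cases hn : ∀ u ∈ U, ∀ w ∈ W, u * w * u⁻¹ ∈ W
    · exact hstep hTU hle hn (by rw [h3]; exact Nat.prime_three) (ih (hMU.trans hle)) hMU
    · obtain ⟨W₀, U₂, r, τ, hc⟩ := exists_cubic hle h3 hn
      have hfin := tower3_fin hTU
      have hfW := tower3_fin (Tower3.cubic hTU hle h3)
      have hl : Lin D U (ext U 1) := lin_ext (opc_one hM (hMU.trans hle))
      obtain ⟨ψ, hψ, ht⟩ := cubic_rs D hM hc hMU hl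
      have hv := ht.vanish
      have hf1 := fam_emp (fam3_of_towA D hTU ht)
      rw [rs_ext_one hle] at hv hf1
      obtain ⟨d, hd, hf2⟩ := lin_unit D hfin hTU hψ
      have hd2 : (d : ℂ) = (W.relIndex U : ℂ) := by
        have h1 := hv.1
        rw [Pi.sub_apply, sum_cj_A1, Finset.sum_congr rfl fun k _ => by
          rw [mul_one, inv_mul_cancel, ext_one_apply W W.one_mem], Finset.sum_const, Finset.card_range, hd] at h1
        rw [h3]
        push_cast
        simp at h1
        linear_combination -h1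
      refine fam_congr (fam_add D.emp _ (fam_add D.emp _ hf1 hf2) (fam_zmul D.emp _ d (ih (hMU.trans hle)))) fun g => ?_
      rw [Ind_sub_A2 hfin, Ind_cos hfin hfW hc.isCos (cls_ext W 1), index_eq hle, ← hd2]
      ring

end

end SB
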