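import Pool.Agent.Helper21.CT.K10
import Pool.Agent.Helper21.CT.U

/-!
# CT3-K11: degree zero
-/

namespace SB

/-- The system with `S = ∅`. -/
noncomputable def sysE : Sys GQ where
  S := ∅
  N := NAll
  normal := fun _ hM => nAll_normal hM
  fin := fun _ hM => nAll_fin hM
  inf := fun _ hM _ hM' => nAll_inf hM hM'
  conj := fun s hs => absurd hs (Set.notMem_empty s)
  sq := fun s hs => absurd hs (Set.notMem_empty s)
  nt := fun M hM _ _ _ _ _ _ _ => ⟨M, hM, le_rfl, 1, fun _ _ _ => rfl, fun s _ hs => absurd hs (Set.notMem_empty s)⟩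

theorem famE_of_fam {D : Sys GQ} (hD : D.N = NAll) {P : Subgroup GQ → Prop} {v : GQ → ℂ} (h : Fam D P v) :
    Fam sysE P v := by
  obtain ⟨m, n, U, χ, χ', h1, h2, h3, -, h4⟩ := h
  refine ⟨m, n, U, χ, χ', h1, fun i => ?_, fun i => ?_, fun i s _ hs => absurd hs (Set.notMem_empty s), h4⟩
  · obtain ⟨M, hM, h⟩ := h2 i
    exact ⟨M, by change M ∈ NAll; rw [← hD]; exact hM, h⟩
  · obtain ⟨M, hM, h⟩ := h3 i
    exact ⟨M, by change M ∈ NAll; rw [← hD]; exact hM, h⟩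

theorem unit_of_fintype {P : Subgroup GQ → Prop} {N : Subgroup GQ} {v : GQ → ℂ} {ι : Type} [Fintype ι]
    (n : ι → ℤ) (U : ι → Subgroup GQ) (χ : ∀ i, U i →* ℂˣ) (h : ∀ i, P (U i) ∧ N ≤ U i ∧ TrivOn N (χ i))
    (hv : ∀ g, v g = ∑ i, (n i : ℂ) * (IndChr (U i) (χ i) g - IndChr (U i) 1 g)) : UnitComb N P v := by
  let e := (Fintype.equivFin ι).symm
  refine ⟨Fintype.card ι, fun i => n (e i), fun i => U (e i), fun i => χ (e i), fun i => h _, fun g => ?_⟩
  rw [hv g]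
  exact (e.sum_comp (fun i => (n i : ℂ) * (IndChr (U i) (χ i) g - IndChr (U i) 1 g))).symm

theorem unit_of_famE {P : Subgroup GQ → Prop} {v : GQ → ℂ} (h : Fam sysE P v) :
    ∃ K : IntermediateField ℚ Qb, FinGal ℚ K ∧ UnitComb (Γ := GQ) K.fixingSubgroup P v := by
  obtain ⟨m, n, U, χ, χ', h1, h2, h3, -, h4⟩ := h
  choose M1 hM1 hM1U hM1χ using h2
  choose M2 hM2 hM2U hM2χ using h3
  obtain ⟨M', hM', -, hcom⟩ := exists_common sysAll (M := ⊤) top_nAll (fun i => M1 i ⊓ M2 i)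
    fun i => nAll_inf (hM1 i) (hM2 i)
  obtain ⟨K, hfd, hn, rfl⟩ := hM'
  refine ⟨K, ⟨hfd, isGalois_iff.2 ⟨inferInstance, hn⟩⟩, ?_⟩
  refine unit_of_fintype (ι := Fin m ⊕ Fin m) (Sum.elim n (fun j => -n j)) (Sum.elim U U)
    (fun i => Sum.rec (fun i => χ i) (fun i => χ' i) i) (fun i => ?_) fun g => ?_
  · rcases i with j | j
    · exact ⟨h1 j, (hcom j).trans (inf_le_left.trans (hM1U j)), fun g hg hgN => hM1χ j g hg (hcom j hgN).1⟩
    · exact ⟨h1 j, (hcom j).trans (inf_le_left.trans (hM1U j)), fun g hg hgN => hM2χ j g hg (hcom j hgN).2⟩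
  · rw [h4 g, Fintype.sum_sum_type]
    change _ = ∑ i, (n i : ℂ) * (IndChr (U i) (χ i) g - IndChr (U i) 1 g) +
      ∑ i, ((-n i : ℤ) : ℂ) * (IndChr (U i) (χ' i) g - IndChr (U i) 1 g)
    rw [← Finset.sum_add_distrib]
    refine Finset.sum_congr rfl fun i _ => ?_
    unfold IndChr
    push_cast
    ring

theorem indChr_one {U : Subgroup GQ} (hU : U.FiniteIndex) (χ : U →* ℂˣ) : Ind U (ext U χ) 1 = (U.index : ℂ) := by
  rw [← ind_ext_one_one_B1 hU]
  unfold Ind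
  refine finsum_congr fun q => ?_
  have e : q.out⁻¹ * 1 * q.out = 1 := by group
  rw [e, ext_mem _ U.one_mem, ext_mem _ U.one_mem]
  have h5 : (⟨1, U.one_mem⟩ : U) = 1 := rfl
  rw [h5, map_one, map_one]

theorem ct3_unit (v : GQ → ℂ) (N : Subgroup GQ) (hN : IsOpen (N : Set GQ)) (h1 : v 1 = 0)
    (h : MonComb N (TTower CC) v) :
    ∃ K : IntermediateField ℚ Qb, FinGal ℚ K ∧ UnitComb (Γ := GQ) K.fixingSubgroup (TTower CC) v := by
  obtain ⟨M, hM, hMN⟩ := open_nAll hN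
  obtain ⟨m, n, U, χ, hU, hv⟩ := h
  have hfin : ∀ i, (U i).FiniteIndex := fun i => fin_of_N sysAll hM (hMN.trans (hU i).2.1)
  have ht : ∀ i, Tower3 CC (U i) := fun i => tower3_of_ttower (hU i).1 (hfin i)
  have hop : ∀ i, OpC sysAll (U i) (χ i) := fun i =>
    ⟨M, hM, hMN.trans (hU i).2.1, fun g hg hgM => (hU i).2.2 g hg (hMN hgM)⟩
  have key : ∀ i, Fam sysAll.emp (Tower3 CC) (fun g => Ind (U i) (ext (U i) (χ i)) g - ((U i).index : ℂ)) := by
    intro i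
    obtain ⟨d, hd, hf⟩ := lin_unit sysAll (hfin i) (ht i) (lin_ext (hop i))
    have hd1 : (d : ℂ) = 1 := by
      rw [← hd, ext_mem _ (U i).one_mem]
      have h5 : (⟨1, (U i).one_mem⟩ : U i) = 1 := rfl
      rw [h5, map_one, Units.val_one]
    refine fam_congr (fam_add _ _ hf (tower3_unit sysAll up_all (ht i) hM (hMN.trans (hU i).2.1))) fun g => ?_
    rw [hd1]
    ring
  have hsum := fam_sum sysAll.emp (Tower3 CC) n _ key
  have h2 : Fam sysE (TTower CC) v := by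
    refine famE_of_fam (D := sysAll.emp) rfl (fam_mono (fun _ => ttower_of_tower3) (fam_congr hsum fun g => ?_))
    have e1 : v g = ∑ i, (n i : ℂ) * Ind (U i) (ext (U i) (χ i)) g := hv g
    have e2 : (0 : ℂ) = ∑ i, (n i : ℂ) * ((U i).index : ℂ) := by
      rw [← h1, hv 1]
      exact Finset.sum_congr rfl fun i _ => by rw [← indChr_one (hfin i) (χ i)]; rfl
    rw [e1, ← sub_zero (∑ i, (n i : ℂ) * Ind (U i) (ext (U i) (χ i)) g), e2, ← Finset.sum_sub_distrib]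
    exact Finset.sum_congr rfl fun i _ => by ring
  exact unit_of_famE h2

end SB
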