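import Pool.Agent.Helper21.CT.Base3

/-!
# Project CT3, module K1: a subgroup of index three which is not normal gives the symmetric group of degree three
-/

namespace SB

variable {Γ : Type*} [Group Γ]

namespace K1

open Equiv

private theorem sgn_cases (ρ : Perm (Fin 3)) : Perm.sign ρ = 1 ∨ Perm.sign ρ = -1 :=
  Int.units_eq_one_or _

private theorem even_fix : ∀ (a : Fin 3) (ρ : Perm (Fin 3)), Perm.sign ρ = 1 → ρ a = a → ρ = 1 := by
  decide

private theorem odd_fix_eq : ∀ (a : Fin 3) (ρ τ : Perm (Fin 3)), ρ ≠ 1 → τ ≠ 1 → ρ a = a → τ a = a →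
    ρ = τ := by
  decide

private theorem fix_odd : ∀ (a : Fin 3) (τ : Perm (Fin 3)), τ ≠ 1 → τ a = a →
    Perm.sign τ = -1 := by
  decide

private theorem pow_cov : ∀ (a : Fin 3) (ρ : Perm (Fin 3)), Perm.sign ρ = 1 → ρ a ≠ a →
    ∀ x, ∃ k < 3, (ρ ^ k) a = x := by
  decide

private theorem pow_all : ∀ (a : Fin 3) (ρ ν : Perm (Fin 3)), Perm.sign ρ = 1 → ρ a ≠ a →
    Perm.sign ν = 1 → ∃ k < 3, ρ ^ k = ν := by
  decide

private theorem pow_inj : ∀ (a : Fin 3) (ρ : Perm (Fin 3)), Perm.sign ρ = 1 → ρ a ≠ a →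
    ∀ k < 3, ρ ^ k = 1 → k = 0 := by
  decide

private theorem inv_rel : ∀ (ρ τ : Perm (Fin 3)), Perm.sign ρ = 1 → Perm.sign τ = -1 →
    τ⁻¹ * ρ * τ * ρ = 1 := by
  decide

private theorem exists_ne (a : Fin 3) : ∃ b, b ≠ a := by
  revert a
  decide

/-- the kernel, as a subgroup of the big group -/
private def ker {U : Subgroup Γ} {G : Type*} [Group G] (f : U →* G) : Subgroup Γ :=
  f.ker.map U.subtype

private theorem mem_ker {U : Subgroup Γ} {G : Type*} [Group G] (f : U →* G) (u : U) :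
    (u : Γ) ∈ ker f ↔ f u = 1 := by
  unfold ker
  rw [Subgroup.mem_map]
  constructor
  · rintro ⟨x, hx, hxu⟩
    have h1 : x = u := Subtype.ext hxu
    rw [← h1]
    exact hx
  · intro h
    exact ⟨u, h, rfl⟩

private theorem ker_le {U : Subgroup Γ} {G : Type*} [Group G] (f : U →* G) : ker f ≤ U := by
  rintro g hg
  unfold ker at hg
  rw [Subgroup.mem_map] at hg
  obtain ⟨x, -, hx⟩ := hg
  rw [← hx]
  exact x.2

private theorem ker_norm {U : Subgroup Γ} {G : Type*} [Group G] (f : U →* G) :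
    ∀ u ∈ U, ∀ w ∈ ker f, u * w * u⁻¹ ∈ ker f := by
  intro u hu w hw
  have hwU := ker_le f hw
  have h1 : f ⟨w, hwU⟩ = 1 := (mem_ker f ⟨w, hwU⟩).1 hw
  have h2 := (mem_ker f (⟨u, hu⟩ * ⟨w, hwU⟩ * (⟨u, hu⟩ : U)⁻¹)).2 (by
    rw [map_mul, map_mul, h1, map_inv]
    group)
  exact h2

/-- the abstract form -/
private theorem main {W U : Subgroup Γ} (hle : W ≤ U) (f : U →* Perm (Fin 3)) (a : Fin 3)
    (hst : ∀ u : U, f u a = a ↔ (u : Γ) ∈ W) (htr : ∀ x, ∃ u : U, f u a = x)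
    (hnn : ¬ ∀ u ∈ U, ∀ w ∈ W, u * w * u⁻¹ ∈ W) : ∃ W₀ U₂ r τ, Cubic W U W₀ U₂ r τ := by
  -- the transposition
  have hτ : ∃ τ : U, (τ : Γ) ∈ W ∧ f τ ≠ 1 := by
    by_contra hcon
    apply hnn
    intro u hu w hw
    have h1 : f ⟨w, hle hw⟩ = 1 := by
      by_contra h2
      exact hcon ⟨⟨w, hle hw⟩, hw, h2⟩
    have h2 := (hst (⟨u, hu⟩ * ⟨w, hle hw⟩ * (⟨u, hu⟩ : U)⁻¹)).1 (by
      rw [map_mul, map_mul, h1, map_inv, mul_one, mul_inv_cancel]
      rfl)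
    exact h2
  obtain ⟨τ, hτW, hτ1⟩ := hτ
  have hτa : f τ a = a := (hst τ).2 hτW
  have hτs : Perm.sign (f τ) = -1 := fix_odd a _ hτ1 hτa
  -- the rotation
  have hr : ∃ r : U, Perm.sign (f r) = 1 ∧ f r a ≠ a := by
    obtain ⟨b, hb⟩ := exists_ne a
    obtain ⟨u, hu⟩ := htr b
    rcases sgn_cases (f u) with h | h
    · exact ⟨u, h, by rw [hu]; exact hb⟩
    · refine ⟨u * τ, ?_, ?_⟩
      · rw [map_mul, Perm.sign_mul, h, hτs]
        rfl
      · rw [map_mul, Perm.mul_apply, hτa, hu]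
        exact hb
  obtain ⟨r, hrs, hra⟩ := hr
  set s : U →* ℤˣ := Perm.sign.comp f with hs
  have hsf : ∀ u : U, s u = Perm.sign (f u) := fun u => rfl
  have hk1 : ∀ u : U, (u : Γ) ∈ ker f → s u = 1 := fun u hu => by
    rw [hsf, (mem_ker f u).1 hu]
    exact Perm.sign_one
  have hKW : ker f ≤ W := by
    intro g hg
    have hgU := ker_le f hg
    have h1 := (mem_ker f ⟨g, hgU⟩).1 hg
    exact (hst ⟨g, hgU⟩).1 (by rw [h1]; rfl)
  have hKs : ker f ≤ ker s := by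
    intro g hg
    have hgU := ker_le f hg
    exact (mem_ker s ⟨g, hgU⟩).2 (hk1 ⟨g, hgU⟩ hg)
  refine ⟨ker f, ker s, (r : Γ), (τ : Γ), hle, ?_, ?_, ?_, ker_norm f, ?_, ?_, ?_, ?_⟩
  · refine ⟨hKW, hτW, fun u hu w hw => ker_norm f u (hle hu) w hw, ?_, ?_⟩
    · intro u hu
      by_cases h : f ⟨u, hle hu⟩ = 1
      · refine ⟨0, by norm_num, ?_⟩
        rw [pow_zero, inv_one, one_mul]
        exact (mem_ker f ⟨u, hle hu⟩).2 h
      · refine ⟨1, by norm_num, ?_⟩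
        rw [pow_one]
        have h1 : f ⟨u, hle hu⟩ = f τ :=
          odd_fix_eq a _ _ h hτ1 ((hst ⟨u, hle hu⟩).2 hu) hτa
        refine (mem_ker f (τ⁻¹ * ⟨u, hle hu⟩)).2 ?_
        rw [map_mul, map_inv, h1, inv_mul_cancel]
    · intro k hk hk2
      interval_cases k
      · rfl
      · exfalso
        rw [pow_one] at hk2
        exact hτ1 ((mem_ker f τ).1 hk2)
  · refine ⟨hKs, (mem_ker s r).2 hrs, fun u hu w hw => ker_norm f u (ker_le s hu) w hw, ?_, ?_⟩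
    · intro u hu
      have hu2 : Perm.sign (f ⟨u, ker_le s hu⟩) = 1 := (mem_ker s ⟨u, ker_le s hu⟩).1 hu
      obtain ⟨k, hk, hk2⟩ := pow_all a (f r) _ hrs hra hu2
      refine ⟨k, hk, ?_⟩
      refine (mem_ker f ((r ^ k)⁻¹ * ⟨u, ker_le s hu⟩)).2 ?_
      rw [map_mul, map_inv, map_pow, hk2, inv_mul_cancel]
    · intro k hk hk2
      have h1 := (mem_ker f (r ^ k)).1 hk2
      rw [map_pow] at h1
      exact pow_inj a (f r) hrs hra k hk h1
  · refine ⟨ker_le s, τ.2, ker_norm s, ?_, ?_⟩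
    · intro u hu
      rcases sgn_cases (f ⟨u, hu⟩) with h | h
      · refine ⟨0, by norm_num, ?_⟩
        rw [pow_zero, inv_one, one_mul]
        exact (mem_ker s ⟨u, hu⟩).2 h
      · refine ⟨1, by norm_num, ?_⟩
        rw [pow_one]
        refine (mem_ker s (τ⁻¹ * ⟨u, hu⟩)).2 ?_
        rw [map_mul, map_inv, hsf, hsf, h, hτs]
        rfl
    · intro k hk hk2
      interval_cases k
      · rfl
      · exfalso
        rw [pow_one] at hk2
        have h1 : Perm.sign (f τ) = 1 := (mem_ker s τ).1 hk2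
        rw [hτs] at h1
        exact absurd h1 (by decide)
  · intro g hgW hgs
    have hgU := hle hgW
    refine (mem_ker f ⟨g, hgU⟩).2 ?_
    exact even_fix a _ ((mem_ker s ⟨g, hgU⟩).1 hgs) ((hst ⟨g, hgU⟩).2 hgW)
  · intro u hu
    obtain ⟨k, hk, hk2⟩ := pow_cov a (f r) hrs hra (f ⟨u, hu⟩ a)
    refine ⟨k, hk, ?_⟩
    refine (hst ((r ^ k)⁻¹ * ⟨u, hu⟩)).1 ?_
    rw [map_mul, map_inv, map_pow, Perm.mul_apply, ← hk2, Perm.inv_eq_iff_eq]
  · intro g hgU hg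
    refine (mem_ker f ⟨g, hgU⟩).2 ?_
    ext x
    obtain ⟨u, hu⟩ := htr x
    have h1 := (hst (u⁻¹ * ⟨g, hgU⟩ * (u⁻¹)⁻¹)).2 (hg ((u⁻¹ : U) : Γ) (u⁻¹).2)
    rw [map_mul, map_mul, inv_inv, map_inv, Perm.mul_apply, Perm.mul_apply, hu] at h1
    rw [Perm.inv_eq_iff_eq] at h1
    rw [h1, hu]
    rfl
  · refine (mem_ker f (τ⁻¹ * r * τ * r)).2 ?_
    rw [map_mul, map_mul, map_mul, map_inv]
    exact inv_rel (f r) (f τ) hrs hτs

end K1

/-- CT3-K1. -/
theorem exists_cubic {W U : Subgroup Γ} (hle : W ≤ U) (h3 : W.relIndex U = 3)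
    (hnn : ¬ ∀ u ∈ U, ∀ w ∈ W, u * w * u⁻¹ ∈ W) : ∃ W₀ U₂ r τ, Cubic W U W₀ U₂ r τ := by
  have hc : Nat.card (U ⧸ W.subgroupOf U) = 3 := h3
  haveI : Finite (U ⧸ W.subgroupOf U) := Nat.finite_of_card_ne_zero (by rw [hc]; norm_num)
  let e : (U ⧸ W.subgroupOf U) ≃ Fin 3 := Finite.equivFinOfCardEq hc
  let f : U →* Equiv.Perm (Fin 3) :=
    (e.permCongrHom.toMonoidHom).comp (MulAction.toPermHom U (U ⧸ W.subgroupOf U))
  have hf : ∀ (u : U) (x : U ⧸ W.subgroupOf U), f u (e x) = e (u • x) := by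
    intro u x
    have h1 : f u (e x) = e (u • e.symm (e x)) := rfl
    rw [h1, e.symm_apply_apply]
  refine K1.main hle f (e (QuotientGroup.mk 1)) ?_ ?_ hnn
  · intro u
    rw [hf, e.apply_eq_iff_eq]
    have h1 : u • (QuotientGroup.mk 1 : U ⧸ W.subgroupOf U) = QuotientGroup.mk (u * 1) := rfl
    rw [h1, mul_one, eq_comm, QuotientGroup.eq, inv_one, one_mul, Subgroup.mem_subgroupOf]
  · intro x
    obtain ⟨u, hu⟩ := QuotientGroup.mk_surjective (e.symm x)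
    refine ⟨u, ?_⟩
    rw [hf]
    have h1 : u • (QuotientGroup.mk 1 : U ⧸ W.subgroupOf U) = QuotientGroup.mk (u * 1) := rfl
    rw [h1, mul_one, hu, e.apply_symm_apply]

end SB
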