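import Pool.Agent.Helper21.CT.Base

/-!
# Project CT, module C: the coboundary lemma
-/

namespace SB

universe u

/-! ### CT-C: the coboundary lemma -/
section C
variable {Γ : Type*} [Group Γ]

/-- conjugacy under a subgroup -/
private def hcC (H : Subgroup Γ) (x y : Γ) : Prop := ∃ h ∈ H, y = h * x * h⁻¹

private theorem hcC.refl (H : Subgroup Γ) (x : Γ) : hcC H x x := ⟨1, H.one_mem, by simp⟩

private theorem hcC.symm {H : Subgroup Γ} {x y : Γ} (h : hcC H x y) : hcC H y x := by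
  obtain ⟨a, ha, rfl⟩ := h
  exact ⟨a⁻¹, H.inv_mem ha, by group⟩

private theorem hcC.trans {H : Subgroup Γ} {x y z : Γ} (h : hcC H x y) (h' : hcC H y z) :
    hcC H x z := by
  obtain ⟨a, ha, rfl⟩ := h
  obtain ⟨b, hb, rfl⟩ := h'
  exact ⟨b * a, H.mul_mem hb ha, by group⟩

private theorem hcC.conj {H U : Subgroup Γ} (hn : ∀ u ∈ U, ∀ w ∈ H, u * w * u⁻¹ ∈ H) {x y : Γ}
    (h : hcC H x y) {u : Γ} (hu : u ∈ U) : hcC H (u * x * u⁻¹) (u * y * u⁻¹) := by
  obtain ⟨a, ha, rfl⟩ := h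
  exact ⟨u * a * u⁻¹, hn u hu a ha, by group⟩

private theorem hcC.mono {H U : Subgroup Γ} (hl : H ≤ U) {x y : Γ} (h : hcC H x y) : hcC U x y := by
  obtain ⟨a, ha, e⟩ := h
  exact ⟨a, hl ha, e⟩

private def stC (U : Subgroup Γ) : Setoid Γ :=
  ⟨hcC U, fun x => hcC.refl U x, fun h => h.symm, fun h h' => h.trans h'⟩

private noncomputable def repC (U : Subgroup Γ) (s : Γ) : Γ := (Quotient.mk (stC U) s).out

private theorem repC_spec (U : Subgroup Γ) (s : Γ) : hcC U (repC U s) s :=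
  Quotient.exact (s := stC U) (Quotient.out_eq (Quotient.mk (stC U) s))

private theorem repC_eq {U : Subgroup Γ} {s s' : Γ} (h : hcC U s s') : repC U s = repC U s' := by
  unfold repC
  rw [Quotient.sound (s := stC U) h]

private noncomputable def kC (p : ℕ) (H U : Subgroup Γ) (t s : Γ) : ℕ :=
  sInf {k | k < p ∧ hcC H (t ^ k * repC U s * (t ^ k)⁻¹) s}

private theorem kC_spec {p : ℕ} {H U : Subgroup Γ} {t : Γ} (h : IsStep p H U t) (s : Γ) :
    kC p H U t s < p ∧ hcC H (t ^ kC p H U t s * repC U s * (t ^ kC p H U t s)⁻¹) s := by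
  have hne : {k | k < p ∧ hcC H (t ^ k * repC U s * (t ^ k)⁻¹) s}.Nonempty := by
    obtain ⟨u, hu, e⟩ := repC_spec U s
    obtain ⟨k, hk, hw⟩ := h.cover u hu
    refine ⟨k, hk, t ^ k * ((t ^ k)⁻¹ * u) * (t ^ k)⁻¹,
      h.norm _ (U.pow_mem h.mem k) _ hw, e.trans ?_⟩
    generalize repC U s = r
    group
  exact Nat.sInf_mem hne

private theorem kC_le {p : ℕ} {H U : Subgroup Γ} {t s : Γ} {k : ℕ} (hk : k < p)
    (h : hcC H (t ^ k * repC U s * (t ^ k)⁻¹) s) : kC p H U t s ≤ k :=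
  Nat.sInf_le ⟨hk, h⟩

private theorem kC_congr {p : ℕ} {H U : Subgroup Γ} {t : Γ} (h : IsStep p H U t) {s s' : Γ}
    (hs : hcC H s s') : kC p H U t s = kC p H U t s' := by
  have hr : repC U s = repC U s' := repC_eq (hs.mono h.le)
  apply le_antisymm
  · obtain ⟨h1, h2⟩ := kC_spec h s'
    refine kC_le h1 ?_
    rw [hr]
    exact h2.trans hs.symm
  · obtain ⟨h1, h2⟩ := kC_spec h s
    refine kC_le h1 ?_
    rw [← hr]
    exact h2.trans hs

/-- the sum over the conjugates -/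
private def BC (p : ℕ) (t : Γ) (b : Γ → ℤ) (s : Γ) : ℤ :=
  ∑ k ∈ Finset.range p, b ((t ^ k)⁻¹ * s * t ^ k)

private theorem BC_t {p : ℕ} (hp : 0 < p) {H : Subgroup Γ} {t : Γ} (htp : t ^ p ∈ H) {b : Γ → ℤ}
    {s : Γ} (hb : ∀ u ∈ H, b (u * ((t ^ (p - 1))⁻¹ * s * t ^ (p - 1)) * u⁻¹) =
      b ((t ^ (p - 1))⁻¹ * s * t ^ (p - 1))) : BC p t b (t * s * t⁻¹) = BC p t b s := by
  obtain ⟨q, rfl⟩ : ∃ q, p = q + 1 := ⟨p - 1, by omega⟩
  rw [Nat.add_sub_cancel] at hb
  unfold BC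
  rw [Finset.sum_range_succ', Finset.sum_range_succ]
  congr 1
  · refine Finset.sum_congr rfl fun k _ => ?_
    congr 1
    rw [pow_succ']
    group
  · rw [← hb _ htp]
    congr 1
    rw [pow_succ']
    group

private theorem pow_memC {H : Subgroup Γ} {t : Γ} {p : ℕ} (htp : t ^ p ∈ H) (q : ℕ) :
    t ^ (p * q) ∈ H := by
  rw [pow_mul]; exact H.pow_mem htp q

/-- CT-C. Integers only. See the plan, section C. -/
theorem coboundary {p : ℕ} (hp : p.Prime) {H U : Subgroup Γ} {t : Γ} (h : IsStep p H U t) (S : Set Γ)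
    (hSU : ∀ s ∈ S, s ∈ U → s ∈ H) (hconj : ∀ s ∈ S, ∀ g, g * s * g⁻¹ ∈ S) (b : Γ → ℤ)
    (hfin : (Set.range b).Finite) (hb : ∀ s ∈ S, s ∈ H → ∀ u ∈ H, b (u * s * u⁻¹) = b s)
    (hdiv : ∀ s ∈ S, s ∈ H → ∃ m : ℤ, ∑ k ∈ Finset.range p, b ((t ^ k)⁻¹ * s * t ^ k) = p * m) :
    ∃ m β : Γ → ℤ, (Set.range m).Finite ∧ (Set.range β).Finite ∧
      (∀ s ∈ S, s ∈ H → ∀ u ∈ U, m (u * s * u⁻¹) = m s) ∧ (∀ s ∈ S, s ∈ H → ∀ u ∈ H, β (u * s * u⁻¹) = β s) ∧
      ∀ s ∈ S, s ∈ H → b s = m s + β s - β (t⁻¹ * s * t) := by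
  classical
  have hp0 : 0 < p := hp.pos
  have htp : t ^ p ∈ H := h.pow_mem
  -- the set `X` of the elements of `S` in `H`
  have hXU : ∀ s, (s ∈ S ∧ s ∈ H) → ∀ u ∈ U, (u * s * u⁻¹ ∈ S ∧ u * s * u⁻¹ ∈ H) :=
    fun s hs u hu => ⟨hconj s hs.1 u, h.norm u hu s hs.2⟩
  have hXt : ∀ s, (s ∈ S ∧ s ∈ H) → ∀ k : ℕ,
      ((t ^ k)⁻¹ * s * t ^ k ∈ S ∧ (t ^ k)⁻¹ * s * t ^ k ∈ H) := by
    intro s hs k
    have := hXU s hs (t ^ k)⁻¹ (U.inv_mem (U.pow_mem h.mem k))
    rwa [inv_inv] at this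
  -- invariance of `BC`
  have hBH : ∀ s, (s ∈ S ∧ s ∈ H) → ∀ u ∈ H, BC p t b (u * s * u⁻¹) = BC p t b s := by
    intro s hs u hu
    unfold BC
    refine Finset.sum_congr rfl fun k _ => ?_
    have h1 := hXt s hs k
    have h2 : (t ^ k)⁻¹ * u * t ^ k ∈ H := by
      have := h.norm (t ^ k)⁻¹ (U.inv_mem (U.pow_mem h.mem k)) u hu
      rwa [inv_inv] at this
    rw [← hb _ h1.1 h1.2 _ h2]
    congr 1
    group
  have hBt : ∀ s, (s ∈ S ∧ s ∈ H) → BC p t b (t * s * t⁻¹) = BC p t b s := by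
    intro s hs
    have h1 := hXt s hs (p - 1)
    exact BC_t hp0 htp (hb _ h1.1 h1.2)
  have hBtk : ∀ (k : ℕ) s, (s ∈ S ∧ s ∈ H) → BC p t b (t ^ k * s * (t ^ k)⁻¹) = BC p t b s := by
    intro k
    induction k with
    | zero => intro s _; simp
    | succ k ih =>
      intro s hs
      rw [← ih s hs, ← hBt _ (hXU s hs _ (U.pow_mem h.mem k))]
      congr 1
      rw [pow_succ']
      group
  have hBU : ∀ s, (s ∈ S ∧ s ∈ H) → ∀ u ∈ U, BC p t b (u * s * u⁻¹) = BC p t b s := by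
    intro s hs u hu
    obtain ⟨k, _, hk⟩ := h.cover u hu
    have e : u * s * u⁻¹ = t ^ k * (((t ^ k)⁻¹ * u) * s * ((t ^ k)⁻¹ * u)⁻¹) * (t ^ k)⁻¹ := by
      group
    rw [e, hBtk k _ (hXU s hs _ (h.le hk)), hBH s hs _ hk]
  -- definitions
  obtain ⟨m, hm⟩ : ∃ m : Γ → ℤ, ∀ s, m s = BC p t b s / p := ⟨_, fun _ => rfl⟩
  obtain ⟨c, hc⟩ : ∃ c : Γ → ℤ, ∀ s, c s = b s - m s := ⟨_, fun _ => rfl⟩
  obtain ⟨β, hβ⟩ : ∃ β : Γ → ℤ, ∀ s, β s =
      ∑ i ∈ Finset.range (kC p H U t s), c (t ^ (i + 1) * repC U s * (t ^ (i + 1))⁻¹) :=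
    ⟨_, fun _ => rfl⟩
  have hmU : ∀ s, (s ∈ S ∧ s ∈ H) → ∀ u ∈ U, m (u * s * u⁻¹) = m s := by
    intro s hs u hu
    rw [hm, hm, hBU s hs u hu]
  have hmp : ∀ s, (s ∈ S ∧ s ∈ H) → (p : ℤ) * m s = BC p t b s := by
    intro s hs
    obtain ⟨M, hM⟩ := hdiv s hs.1 hs.2
    have h1 : BC p t b s = p * M := hM
    rw [hm, h1, Int.mul_ediv_cancel_left _ (by exact_mod_cast hp0.ne')]
  have hcH : ∀ s s', (s ∈ S ∧ s ∈ H) → hcC H s s' → c s' = c s := by
    rintro s _ hs ⟨u, hu, rfl⟩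
    rw [hc, hc, hb s hs.1 hs.2 u hu, hmU s hs u (h.le hu)]
  -- the sum of `c` over the conjugates vanishes
  have hsum : ∀ r, (r ∈ S ∧ r ∈ H) →
      ∑ j ∈ Finset.range p, c (t ^ j * r * (t ^ j)⁻¹) = 0 := by
    intro r hr
    have h1 : BC p t b (t ^ (p - 1) * r * (t ^ (p - 1))⁻¹) =
        ∑ j ∈ Finset.range p, b (t ^ j * r * (t ^ j)⁻¹) := by
      unfold BC
      rw [← Finset.sum_range_reflect]
      refine Finset.sum_congr rfl fun k hk => ?_
      have hk' : k < p := Finset.mem_range.1 hk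
      congr 1
      have e : t ^ (p - 1) = t ^ (p - 1 - k) * t ^ k := by
        rw [← pow_add]; congr 1; omega
      have e2 : p - 1 - (p - 1 - k) = k := by omega
      rw [e]
      group
    have h2 : ∀ j ∈ Finset.range p, c (t ^ j * r * (t ^ j)⁻¹) =
        b (t ^ j * r * (t ^ j)⁻¹) - m r := by
      intro j _
      rw [hc, hmU r hr _ (U.pow_mem h.mem j)]
    rw [Finset.sum_congr rfl h2, Finset.sum_sub_distrib, ← h1, hBtk _ r hr, ← hmp r hr]
    simp
  -- bounds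
  obtain ⟨C, hC⟩ : ∃ C : ℤ, ∀ g, |b g| ≤ C := by
    obtain ⟨C, hC⟩ := (hfin.image (fun x : ℤ => |x|)).bddAbove
    exact ⟨C, fun g => hC ⟨b g, ⟨g, rfl⟩, rfl⟩⟩
  have hC0 : 0 ≤ C := (abs_nonneg _).trans (hC 1)
  have hmC : ∀ s, |m s| ≤ p * C := by
    intro s
    rw [hm]
    refine (Int.abs_ediv_le_abs _ _).trans ?_
    refine (Finset.abs_sum_le_sum_abs _ _).trans ?_
    refine (Finset.sum_le_card_nsmul _ _ C fun k _ => hC _).trans ?_
    simp
  have hcB : ∀ s, |c s| ≤ C + p * C := by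
    intro s
    rw [hc]
    exact (abs_sub _ _).trans (add_le_add (hC s) (hmC s))
  have hfinC : ∀ (f : Γ → ℤ) (D : ℤ), (∀ s, |f s| ≤ D) → (Set.range f).Finite := by
    intro f D hf
    refine (Set.finite_Icc (-D) D).subset ?_
    rintro _ ⟨s, rfl⟩
    exact abs_le.1 (hf s)
  refine ⟨m, β, hfinC m _ hmC, hfinC β (p * (C + p * C)) ?_,
    fun s h1 h2 u hu => hmU s ⟨h1, h2⟩ u hu, ?_, ?_⟩
  · intro s
    rw [hβ]
    refine (Finset.abs_sum_le_sum_abs _ _).trans ?_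
    refine (Finset.sum_le_card_nsmul _ _ (C + p * C) fun k _ => hcB _).trans ?_
    rw [Finset.card_range, nsmul_eq_mul]
    have h1 : (kC p H U t s : ℤ) ≤ p := by exact_mod_cast (kC_spec h s).1.le
    have h2 : 0 ≤ C + p * C := by positivity
    exact mul_le_mul_of_nonneg_right h1 h2
  · intro s _ _ u hu
    have h1 : hcC H s (u * s * u⁻¹) := ⟨u, hu, rfl⟩
    rw [hβ, hβ, ← kC_congr h h1, ← repC_eq (h1.mono h.le)]
  · intro s h1 h2
    have hs : s ∈ S ∧ s ∈ H := ⟨h1, h2⟩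
    suffices hmain : c s = β s - β (t⁻¹ * s * t) by
      rw [hc] at hmain; linarith
    -- the representative
    have hrs := repC_spec U s
    have hr' : repC U (t⁻¹ * s * t) = repC U s :=
      repC_eq ⟨t, h.mem, by group⟩
    obtain ⟨k1, k2⟩ := kC_spec h s
    obtain ⟨l1, l2⟩ := kC_spec h (t⁻¹ * s * t)
    rw [hβ, hβ, hr']
    rw [hr'] at l2
    have kz : hcC H (repC U s) s → kC p H U t s = 0 := by
      intro hh
      exact Nat.le_zero.1 (kC_le hp0 (by simpa using hh))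
    have lz : hcC H (repC U s) (t⁻¹ * s * t) → kC p H U t (t⁻¹ * s * t) = 0 := by
      intro hh
      exact Nat.le_zero.1 (kC_le hp0 (by rw [hr']; simpa using hh))
    generalize hr : repC U s = r at *
    have hrX : r ∈ S ∧ r ∈ H := by
      obtain ⟨u, hu, e⟩ := hrs.symm
      rw [e]; exact hXU s hs u hu
    have hTX : ∀ j : ℕ, (t ^ j * r * (t ^ j)⁻¹ ∈ S ∧ t ^ j * r * (t ^ j)⁻¹ ∈ H) :=
      fun j => hXU r hrX _ (U.pow_mem h.mem j)
    have hcs : c s = c (t ^ kC p H U t s * r * (t ^ kC p H U t s)⁻¹) := hcH _ _ (hTX _) k2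
    have l3 : hcC H (t ^ (kC p H U t (t⁻¹ * s * t) + 1) * r *
        (t ^ (kC p H U t (t⁻¹ * s * t) + 1))⁻¹) s := by
      have := l2.conj h.norm h.mem
      have e1 : t * (t⁻¹ * s * t) * t⁻¹ = s := by group
      rw [e1] at this
      convert this using 1
      rw [pow_succ']
      group
    have hsr := hsum r hrX
    have hpq : ∀ q j : ℕ, hcC H (t ^ j * r * (t ^ j)⁻¹)
        (t ^ (p * q + j) * r * (t ^ (p * q + j))⁻¹) := by
      intro q j
      refine ⟨t ^ (p * q), pow_memC htp q, ?_⟩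
      rw [pow_add]
      group
    generalize kC p H U t s = k at *
    generalize kC p H U t (t⁻¹ * s * t) = l at *
    by_cases hA : ∃ j, 0 < j ∧ j < p ∧ hcC H r (t ^ j * r * (t ^ j)⁻¹)
    · -- all conjugates are conjugate under `H`
      obtain ⟨j, hj0, hjp, hj⟩ := hA
      have hadd : ∀ i i' : ℕ, hcC H r (t ^ i * r * (t ^ i)⁻¹) → hcC H r (t ^ i' * r * (t ^ i')⁻¹) →
          hcC H r (t ^ (i + i') * r * (t ^ (i + i'))⁻¹) := by
        intro i i' h3 h4
        have h5 := h4.conj h.norm (U.pow_mem h.mem i)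
        have e : t ^ i * (t ^ i' * r * (t ^ i')⁻¹) * (t ^ i)⁻¹ =
            t ^ (i + i') * r * (t ^ (i + i'))⁻¹ := by
          rw [pow_add]; group
        rw [e] at h5
        exact h3.trans h5
      have h0 : hcC H r (t ^ 0 * r * (t ^ 0)⁻¹) := by
        simpa using hcC.refl H r
      have hmul : ∀ (i a : ℕ), hcC H r (t ^ i * r * (t ^ i)⁻¹) →
          hcC H r (t ^ (i * a) * r * (t ^ (i * a))⁻¹) := by
        intro i a hi
        induction a with
        | zero => simpa using hcC.refl H r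
        | succ a ih => rw [Nat.mul_succ]; exact hadd _ _ ih hi
      have hcop : Nat.Coprime j p :=
        (Nat.coprime_of_lt_prime hj0.ne' hjp hp).symm
      obtain ⟨a, -, ha⟩ := Nat.exists_mul_mod_eq_one_of_coprime hcop hp.one_lt
      have h1' : hcC H r (t ^ 1 * r * (t ^ 1)⁻¹) := by
        have h3 := hmul j a hj
        have e : j * a = p * (j * a / p) + 1 := by
          have := Nat.div_add_mod (j * a) p
          omega
        rw [e] at h3
        exact h3.trans (hpq (j * a / p) 1).symm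
      have hall : ∀ i : ℕ, hcC H r (t ^ i * r * (t ^ i)⁻¹) := by
        intro i
        have := hmul 1 i h1'
        rwa [one_mul] at this
      rw [kz ((hall k).trans k2), lz ((hall l).trans l2), hcs]
      have hconst : ∀ i : ℕ, c (t ^ i * r * (t ^ i)⁻¹) = c r := fun i => hcH _ _ hrX (hall i)
      rw [hconst]
      rw [Finset.sum_congr rfl fun i _ => hconst i] at hsr
      rw [Finset.sum_const, Finset.card_range, nsmul_eq_mul] at hsr
      have hp' : (p : ℤ) ≠ 0 := by exact_mod_cast hp0.ne'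
      have h3 : c r = 0 := (mul_eq_zero.1 hsr).resolve_left hp'
      simp [h3]
    · have huniq : ∀ i j : ℕ, i ≤ j → j < p →
          hcC H (t ^ i * r * (t ^ i)⁻¹) (t ^ j * r * (t ^ j)⁻¹) → i = j := by
        intro i j hij hj hh
        by_contra hne
        apply hA
        refine ⟨j - i, by omega, by omega, ?_⟩
        have h5 := hh.conj h.norm (U.inv_mem (U.pow_mem h.mem i))
        have e1 : (t ^ i)⁻¹ * (t ^ i * r * (t ^ i)⁻¹) * (t ^ i)⁻¹⁻¹ = r := by group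
        have e2 : (t ^ i)⁻¹ * (t ^ j * r * (t ^ j)⁻¹) * (t ^ i)⁻¹⁻¹ =
            t ^ (j - i) * r * (t ^ (j - i))⁻¹ := by
          have e3 : t ^ j = t ^ i * t ^ (j - i) := by
            rw [← pow_add]; congr 1; omega
          rw [e3]; group
        rw [e1, e2] at h5
        exact h5
      have huniq' : ∀ i j : ℕ, i < p → j < p →
          hcC H (t ^ i * r * (t ^ i)⁻¹) (t ^ j * r * (t ^ j)⁻¹) → i = j := by
        intro i j hi hj hh
        rcases le_total i j with h3 | h3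
        · exact huniq i j h3 hj hh
        · exact (huniq j i h3 hi hh.symm).symm
      rcases lt_or_ge (l + 1) p with hl | hl
      · have e : k = l + 1 := huniq' k (l + 1) k1 hl (k2.trans l3.symm)
        rw [hcs, e, Finset.sum_range_succ]
        ring
      · have hlp : l + 1 = p := by omega
        have h3 : hcC H (t ^ 0 * r * (t ^ 0)⁻¹) s := by
          refine (hpq 1 0).trans ?_
          rw [mul_one, add_zero, ← hlp]
          exact l3
        have e : k = 0 := huniq' k 0 k1 hp0 (k2.trans h3.symm)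
        rw [hcs, e]
        rw [← hlp, Finset.sum_range_succ'] at hsr
        rw [Finset.sum_range_zero]
        linarith

end C


end SB
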