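import Pool.Agent.Helper21.CT.P
import Pool.Agent.Helper21.CT.L1
import Pool.Agent.Helper21.CT.L2
import Pool.Agent.Helper21.CT.C

/-!
# CT-S: the odd step, the two step, normal form of balanced functions
-/

namespace SB

variable {Γ : Type*} [Group Γ]

theorem sum_cj_sub (p : ℕ) (t : Γ) (φ ψ : Γ → ℂ) :
    (∑ k ∈ Finset.range p, cj (t ^ k) (φ - ψ)) =
      (∑ k ∈ Finset.range p, cj (t ^ k) φ) - ∑ k ∈ Finset.range p, cj (t ^ k) ψ := by
  rw [← Finset.sum_sub_distrib]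
  rfl

theorem sum_cj_add (p : ℕ) (t : Γ) (φ ψ : Γ → ℂ) :
    (∑ k ∈ Finset.range p, cj (t ^ k) (φ + ψ)) =
      (∑ k ∈ Finset.range p, cj (t ^ k) φ) + ∑ k ∈ Finset.range p, cj (t ^ k) ψ := by
  rw [← Finset.sum_add_distrib]
  rfl

theorem sum_cj_zsmul (p : ℕ) (t : Γ) (φ : Γ → ℂ) (n : ℤ) :
    (∑ k ∈ Finset.range p, cj (t ^ k) (n • φ)) = n • ∑ k ∈ Finset.range p, cj (t ^ k) φ := by
  rw [Finset.smul_sum]
  rfl

/-- Conjugation by `t` does not change the induced function. -/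
theorem sum_cj_shift {p : ℕ} {H U : Subgroup Γ} {t : Γ} (h : IsStep p H U t) {φ : Γ → ℂ} (hφ : Cls H φ) :
    (∑ k ∈ Finset.range p, cj (t ^ k) (cj t φ)) = ∑ k ∈ Finset.range p, cj (t ^ k) φ := by
  have h1 : ∀ k, cj (t ^ k) (cj t φ) = cj (t ^ (k + 1)) φ := by
    intro k
    funext g
    simp only [cj_apply]
    congr 1
    rw [pow_succ]
    group
  simp only [h1]
  have h2 := Finset.sum_range_succ' (fun k => cj (t ^ k) φ) p
  have h3 := Finset.sum_range_succ (fun k => cj (t ^ k) φ) p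
  rw [h2] at h3
  have h4 : cj (t ^ p) φ = cj (t ^ 0) φ := by
    funext g
    rw [cj_apply, cj_apply, pow_zero, hφ.2 _ h.pow_mem]
    simp
  rw [h4] at h3
  exact add_right_cancel h3

theorem lin_sub {D : Sys Γ} {U : Subgroup Γ} {φ ψ : Γ → ℂ} (h : Lin D U φ) (h' : Lin D U ψ) :
    Lin D U (φ - ψ) := by
  rw [sub_eq_add_neg]
  exact lin_add_G1 h (by simpa using lin_zsmul_G1 (-1) h')

theorem lin_ext {D : Sys Γ} {U : Subgroup Γ} {χ : U →* ℂˣ} (h : OpC D U χ) : Lin D U (ext U χ) :=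
  ⟨1, fun _ => 1, fun _ => χ, fun _ => h, by simp⟩

theorem ext_one_apply (U : Subgroup Γ) {g : Γ} (h : g ∈ U) : ext U (1 : U →* ℂˣ) g = 1 := by
  rw [ext_mem _ h]; rfl

theorem opc_one {D : Sys Γ} {M U : Subgroup Γ} (hM : M ∈ D.N) (hMU : M ≤ U) : OpC D U (1 : U →* ℂˣ) :=
  ⟨M, hM, hMU, fun _ _ _ => rfl⟩

/-- In a step of odd index all elements of order two of the big group are in the small one. -/
theorem mem_of_odd {p : ℕ} (hp : p.Prime) (hp2 : p ≠ 2) {H U : Subgroup Γ} {t : Γ} (h : IsStep p H U t)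
    {s : Γ} (hs : s * s = 1) (hsU : s ∈ U) : s ∈ H := by
  obtain ⟨κ, hκ⟩ := g2_kappa hp.pos h
  rw [← hκ s hsU]
  have h1 : κ ⟨s, hsU⟩ ^ 2 = 1 := by
    have h5 : (⟨s, hsU⟩ : U) ^ 2 = 1 := by
      rw [pow_two]
      exact Subtype.ext hs
    rw [← map_pow, h5, map_one]
  have hpz : (κ ⟨s, hsU⟩) ^ p = 1 := by
    have : Multiplicative.toAdd ((κ ⟨s, hsU⟩) ^ p) = 0 := by
      rw [toAdd_pow, nsmul_eq_mul, CharP.cast_eq_zero, zero_mul]
    exact Multiplicative.toAdd.injective this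
  have h7 : orderOf (κ ⟨s, hsU⟩) ∣ Nat.gcd p 2 :=
    Nat.dvd_gcd (orderOf_dvd_of_pow_eq_one hpz) (orderOf_dvd_of_pow_eq_one h1)
  have h8 : Nat.Coprime p 2 := (Nat.coprime_primes hp Nat.prime_two).2 hp2
  rw [Nat.Coprime.gcd_eq_one h8] at h7
  exact orderOf_eq_one_iff.1 (Nat.dvd_one.1 h7)

theorem odd_step (D : Sys Γ) (hnt : NtU D) {M : Subgroup Γ} (hM : M ∈ D.N) {p : ℕ} (hp : p.Prime) (hp2 : p ≠ 2)
    {H U : Subgroup Γ} {t : Γ} (h : IsStep p H U t) (hMH : M ≤ H) {φ : Γ → ℂ} (hφ : Lin D H φ)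
    (hdiv : ∀ s ∈ D.S, s ∈ U → ∃ b : ℤ,
      (∑ k ∈ Finset.range p, cj (t ^ k) φ) 1 - (∑ k ∈ Finset.range p, cj (t ^ k) φ) s = 2 * p * b) :
    ∃ ψ, Lin D U ψ ∧ TowA D U ((∑ k ∈ Finset.range p, cj (t ^ k) φ) - ψ) := by
  obtain ⟨n, b, hbfin, h1, hs, hbi⟩ := lin_int D hφ
  have hSH : ∀ s ∈ D.S, s ∈ U → s ∈ H := fun s hsS hsU => mem_of_odd hp hp2 h (D.sq s hsS) hsU
  have hMU : M ≤ U := hMH.trans h.le
  -- conjugates of elements of S by powers of t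
  have hcjH : ∀ (k : ℕ) (s : Γ), s ∈ H → (t ^ k)⁻¹ * s * t ^ k ∈ H := fun k s hsH => (g2_conj_mem h k s).2 hsH
  have hcjS : ∀ (g s : Γ), s ∈ D.S → g⁻¹ * s * g ∈ D.S := by
    intro g s hsS
    have := D.conj s hsS g⁻¹
    rwa [inv_inv] at this
  have hdiv' : ∀ s ∈ D.S, s ∈ H → ∃ m : ℤ, ∑ k ∈ Finset.range p, b ((t ^ k)⁻¹ * s * t ^ k) = p * m := by
    intro s hsS hsH
    obtain ⟨m, hm⟩ := hdiv s hsS (h.le hsH)
    refine ⟨m, ?_⟩
    rw [sum_cj_A1, sum_cj_A1, ← Finset.sum_sub_distrib] at hm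
    have h2 : ∀ k ∈ Finset.range p, φ ((t ^ k)⁻¹ * 1 * t ^ k) - φ ((t ^ k)⁻¹ * s * t ^ k) =
        2 * (b ((t ^ k)⁻¹ * s * t ^ k) : ℂ) := by
      intro k _
      rw [mul_one, inv_mul_cancel, h1, hs _ (hcjS _ _ hsS) (hcjH k s hsH)]
      ring
    rw [Finset.sum_congr rfl h2, ← Finset.mul_sum, mul_assoc] at hm
    have h3 : (∑ k ∈ Finset.range p, (b ((t ^ k)⁻¹ * s * t ^ k) : ℂ)) = (p : ℂ) * m :=
      mul_left_cancel₀ two_ne_zero hm
    exact_mod_cast h3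
  obtain ⟨m, β, hmfin, hβfin, hmU, hβH, hcob⟩ := coboundary hp h D.S hSH D.conj b hbfin hbi hdiv'
  obtain ⟨ψ1, hψ1, hψ11, hψ1s⟩ := exists_lin_of_sign D hnt hM hMU m hmfin
    (fun s hsS hsU u hu => hmU s hsS (hSH s hsS hsU) u hu)
  obtain ⟨φ4, hφ4, hφ41, hφ4s⟩ := exists_lin_of_sign D hnt hM hMH β hβfin hβH
  let ψ0 : Γ → ℂ := n • ext U 1 + ψ1
  have hψ0 : Lin D U ψ0 := lin_add_G1 (lin_zsmul_G1 n (lin_ext (opc_one hM hMU))) hψ1
  have hψ01 : ψ0 1 = n := by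
    change n • ext U 1 1 + ψ1 1 = n
    rw [ext_one_apply U U.one_mem, hψ11]
    simp
  have hψ0s : ∀ s ∈ D.S, s ∈ U → ψ0 s = n - 2 * m s := by
    intro s hsS hsU
    change n • ext U 1 s + ψ1 s = n - 2 * m s
    rw [ext_one_apply U hsU, hψ1s s hsS hsU]
    simp
    ring
  have htconj : ∀ g, g ∈ H ↔ t⁻¹ * g * t ∈ H := by
    intro g
    have := g2_conj_mem h 1 g
    rw [pow_one] at this
    exact this.symm
  have hlin : Lin D H (φ - rs H ψ0 - (φ4 - cj t φ4)) :=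
    lin_sub (lin_sub hφ (lin_rs D hM hMH h.le hψ0)) (lin_sub hφ4 (lin_cj D hφ4 htconj))
  have htow : TowA D H (φ - rs H ψ0 - (φ4 - cj t φ4)) := by
    refine lin_towA D hlin ?_ ?_
    · simp only [Pi.sub_apply, cj_apply]
      rw [rs_mem _ H.one_mem, h1, hψ01, hφ41, mul_one, inv_mul_cancel, hφ41]
      ring
    · intro s hsS hsH
      have h2 : t⁻¹ * s * t ∈ H := (htconj s).1 hsH
      simp only [Pi.sub_apply, cj_apply]
      rw [rs_mem _ hsH, hs s hsS hsH, hψ0s s hsS (h.le hsH), hφ4s s hsS hsH, hφ4s _ (hcjS t s hsS) h2]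
      have h3 := hcob s hsS hsH
      have h4 : (b s : ℂ) = m s + β s - β (t⁻¹ * s * t) := by exact_mod_cast h3
      rw [h4]
      ring
  have hst := TowA.step hp t h htow
  rw [sum_cj_sub, sum_cj_sub, sum_cj_sub, sum_cj_shift h (cls_lin hφ4), sub_self, sub_zero] at hst
  exact ⟨_, lin_ind_rs D hM hp h hMH hψ0, hst⟩

theorem two_step (D : Sys Γ) {H U : Subgroup Γ} {t : Γ} (h : IsStep 2 H U t) {φ : Γ → ℂ} (hφ : Lin D H φ) :
    ∃ ψ, Lin D U ψ ∧ TowA D U ((∑ k ∈ Finset.range 2, cj (t ^ k) φ) - ψ) := by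
  obtain ⟨m, n, χ, hχ, rfl⟩ := hφ
  choose ψ hψ hψt using fun i => gStep2 D h (χ i) (hχ i)
  refine ⟨∑ i, n i • ψ i, lin_sum_G1 _ _ fun i _ => lin_zsmul_G1 (n i) (hψ i), ?_⟩
  have h1 : (∑ k ∈ Finset.range 2, cj (t ^ k) (∑ i, n i • ext H (χ i))) - ∑ i, n i • ψ i =
      ∑ i, n i • ((∑ k ∈ Finset.range 2, cj (t ^ k) (ext H (χ i))) - ψ i) := by
    have h2 : ∀ k, cj (t ^ k) (∑ i, n i • ext H (χ i)) = ∑ i, n i • cj (t ^ k) (ext H (χ i)) := by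
      intro k
      funext g
      simp [cj_apply, Finset.sum_apply]
    simp only [h2]
    rw [Finset.sum_comm, ← Finset.sum_sub_distrib]
    refine Finset.sum_congr rfl fun i _ => ?_
    rw [smul_sub, Finset.smul_sum]
  rw [h1]
  exact TowA.sum _ _ fun i _ => ((hψt i).towA Nat.prime_two).zsmul (n i)

theorem bal_nf (D : Sys Γ) (hnt : NtU D) {U : Subgroup Γ} {φ : Γ → ℂ} (h : Bal D U φ) :
    (∃ M ∈ D.N, M ≤ U) ∧ ∃ ψ, Lin D U ψ ∧ TowA D U (φ - ψ) := by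
  induction h with
  | @char U χ hχ =>
    obtain ⟨M, hM, hMU, h1⟩ := id hχ
    exact ⟨⟨M, hM, hMU⟩, ext U χ, lin_ext hχ, by rw [sub_self]; exact TowA.zero U⟩
  | @step p hp W U φ t h _ hdiv ih =>
    obtain ⟨⟨M, hM, hMW⟩, ψ, hψ, ht⟩ := ih
    refine ⟨⟨M, hM, hMW.trans h.le⟩, ?_⟩
    have hst := TowA.step hp t h ht
    rw [sum_cj_sub] at hst
    have key : ∃ ψ', Lin D U ψ' ∧ TowA D U ((∑ k ∈ Finset.range p, cj (t ^ k) ψ) - ψ') := by
      by_cases hp2 : p = 2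
      · subst hp2
        exact two_step D h hψ
      · refine odd_step D hnt hM hp hp2 h hMW hψ fun s hsS hsU => ?_
        obtain ⟨b, hb⟩ := hdiv hp2 s hsS hsU
        refine ⟨b, ?_⟩
        have hv := hst.vanish
        have e1 := hv.1
        have e2 := hv.2 s hsS
        rw [Pi.sub_apply, sub_eq_zero] at e1 e2
        rw [← e1, ← e2, hb]
    obtain ⟨ψ', hψ', ht'⟩ := key
    refine ⟨ψ', hψ', ?_⟩
    have := hst.add ht'
    have e : (∑ k ∈ Finset.range p, cj (t ^ k) φ) - ψ' =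
        (∑ k ∈ Finset.range p, cj (t ^ k) φ) - (∑ k ∈ Finset.range p, cj (t ^ k) ψ) +
          ((∑ k ∈ Finset.range p, cj (t ^ k) ψ) - ψ') := by abel
    rw [e]
    exact this

end SB
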