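import Pool.Agent.Helper21.CT.Base3
import Pool.Agent.Helper21.CT.S

/-!
# Project CT3, module K2: the cubic step for restrictions of functions of the big group
-/

namespace SB

variable {Γ : Type*} [Group Γ]

/-- Product of a combination of linear characters with a linear character. -/
theorem lin_mul_K2 (D : Sys Γ) {U : Subgroup Γ} {ψ : Γ → ℂ} (hψ : Lin D U ψ) {η : U →* ℂˣ}
    (hη : OpC D U η) : Lin D U (fun g => ext U η g * ψ g) := by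
  obtain ⟨m, n, χ, hχ, rfl⟩ := hψ
  have e : (fun g => ext U η g * (∑ i, n i • ext U (χ i)) g) = ∑ i, n i • ext U (η * χ i) := by
    funext g
    rw [Finset.sum_apply, Finset.sum_apply, Finset.mul_sum]
    refine Finset.sum_congr rfl fun i _ => ?_
    rw [Pi.smul_apply, Pi.smul_apply, mul_smul_comm]
    by_cases hg : g ∈ U
    · rw [ext_mem _ hg, ext_mem _ hg, ext_mem _ hg, MonoidHom.mul_apply, Units.val_mul]
    · rw [ext_not_mem _ hg, ext_not_mem _ hg, ext_not_mem _ hg, zero_mul]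
  rw [e]
  refine lin_sum_G1 _ _ fun i _ => lin_zsmul_G1 _ (lin_ext ?_)
  obtain ⟨M₁, hM₁, hM₁U, h1⟩ := hη
  obtain ⟨M₂, hM₂, hM₂U, h2⟩ := hχ i
  exact ⟨M₁ ⊓ M₂, D.inf _ hM₁ _ hM₂, inf_le_left.trans hM₁U, fun g hg hgM => by
    rw [MonoidHom.mul_apply, h1 g hg hgM.1, h2 g hg hgM.2, one_mul]⟩

theorem g2eta_ne_K2 {p : ℕ} [NeZero p] {U : Subgroup Γ} (κ : U →* Multiplicative (ZMod p)) (u : U)
    (h : κ u ≠ 1) : g2eta κ 1 u ≠ 1 := by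
  intro h1
  apply h
  rw [Units.ext_iff, g2eta_apply, one_mul, Units.val_one] at h1
  have h2 := ZMod.injective_stdAddChar (h1.trans (AddChar.map_zero_eq_one _).symm)
  exact Multiplicative.toAdd.injective h2

/-- Conjugation by `τ` inverts the cubic characters. -/
theorem kappa_inv_K2 {W U W₀ U₂ : Subgroup Γ} {r τ : Γ} (h : Cubic W U W₀ U₂ r τ)
    {κ : U₂ →* Multiplicative (ZMod 3)} (hκ : ∀ g (hg : g ∈ U₂), κ ⟨g, hg⟩ = 1 ↔ g ∈ W₀)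
    {g : Γ} (hg : g ∈ U₂) (hg' : τ⁻¹ * g * τ ∈ U₂) :
    κ ⟨τ⁻¹ * g * τ, hg'⟩ = (κ ⟨g, hg⟩)⁻¹ := by
  have hc : ∀ x, x ∈ U₂ ↔ τ⁻¹ * x * τ ∈ U₂ := by
    intro x
    have := g2_conj_mem h.u2u 1 x
    rw [pow_one] at this
    exact this.symm
  obtain ⟨k, -, hk⟩ := h.w0u2.cover g hg
  have hr : r ∈ U₂ := h.w0u2.mem
  have hw : (r ^ k)⁻¹ * g ∈ U₂ := h.w0u2.le hk
  have e1 : (⟨g, hg⟩ : U₂) = ⟨r, hr⟩ ^ k * ⟨(r ^ k)⁻¹ * g, hw⟩ := by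
    apply Subtype.ext
    change g = r ^ k * ((r ^ k)⁻¹ * g)
    rw [mul_inv_cancel_left]
  have e2 : (⟨τ⁻¹ * g * τ, hg'⟩ : U₂) = cjHom_L1 hc ⟨g, hg⟩ := rfl
  have e3 : κ (cjHom_L1 hc ⟨r, hr⟩) = (κ ⟨r, hr⟩)⁻¹ := by
    rw [eq_inv_iff_mul_eq_one, ← map_mul]
    exact (hκ _ (U₂.mul_mem ((hc r).1 hr) hr)).2 h.inv
  have e4 : κ (cjHom_L1 hc ⟨(r ^ k)⁻¹ * g, hw⟩) = 1 := by
    refine (hκ _ ((hc _).1 hw)).2 ?_
    have h1 := h.norm τ⁻¹ (U.inv_mem h.u2u.mem) _ hk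
    rwa [inv_inv] at h1
  have e5 : κ ⟨(r ^ k)⁻¹ * g, hw⟩ = 1 := (hκ _ hw).2 hk
  rw [e2, e1, map_mul, map_mul, map_pow, map_pow, e3, e4, mul_one, map_mul, e5, mul_one, map_pow,
    inv_pow]

theorem count_K2 : ∀ a b : ZMod 3, a ≠ 0 →
    ((0 * a + b + 0 * a = 0 ∧ ¬ (1 * a + b + 1 * a = 0) ∧ ¬ (2 * a + b + 2 * a = 0)) ∨
    (¬ (0 * a + b + 0 * a = 0) ∧ (1 * a + b + 1 * a = 0) ∧ ¬ (2 * a + b + 2 * a = 0)) ∨
    (¬ (0 * a + b + 0 * a = 0) ∧ ¬ (1 * a + b + 1 * a = 0) ∧ (2 * a + b + 2 * a = 0))) := by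
  decide

/-- The value of the induced function on the elements outside `U₂`. -/
theorem cubic_val_K2 {W U W₀ U₂ : Subgroup Γ} {r τ : Γ} (h : Cubic W U W₀ U₂ r τ)
    {κ : U₂ →* Multiplicative (ZMod 3)} (hκ : ∀ g (hg : g ∈ U₂), κ ⟨g, hg⟩ = 1 ↔ g ∈ W₀)
    {ψ : Γ → ℂ} (hψ : Cls U ψ) {g : Γ} (hg : g ∈ U) (hg2 : g ∉ U₂) :
    (∑ k ∈ Finset.range 3, cj (r ^ k) (rs W ψ)) g = ψ g := by
  have hr : r ∈ U₂ := h.w0u2.mem
  have hrU : r ∈ U := h.u2u.le hr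
  have hτW : τ ∈ W := h.w0w.mem
  have hc : ∀ x, x ∈ U₂ ↔ τ⁻¹ * x * τ ∈ U₂ := by
    intro x
    have := g2_conj_mem h.u2u 1 x
    rw [pow_one] at this
    exact this.symm
  have hv : τ⁻¹ * g ∈ U₂ := by
    obtain ⟨k, hk, hk2⟩ := h.u2u.cover g hg
    interval_cases k
    · exact absurd (by simpa using hk2) hg2
    · simpa using hk2
  have hval : ∀ k : ℕ, (r ^ k)⁻¹ * g * r ^ k ∈ W ↔
      (k : ZMod 3) * Multiplicative.toAdd (κ ⟨r, hr⟩) + Multiplicative.toAdd (κ ⟨τ⁻¹ * g, hv⟩) +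
        (k : ZMod 3) * Multiplicative.toAdd (κ ⟨r, hr⟩) = 0 := by
    intro k
    have hrk : (r ^ k)⁻¹ ∈ U₂ := U₂.inv_mem (U₂.pow_mem hr k)
    have h1 : (r ^ k)⁻¹ * g * r ^ k = τ * (τ⁻¹ * (r ^ k)⁻¹ * τ * (τ⁻¹ * g) * r ^ k) := by group
    have hx : τ⁻¹ * (r ^ k)⁻¹ * τ * (τ⁻¹ * g) * r ^ k ∈ U₂ :=
      U₂.mul_mem (U₂.mul_mem ((hc _).1 hrk) hv) (U₂.pow_mem hr k)
    have h2 : (⟨τ⁻¹ * (r ^ k)⁻¹ * τ * (τ⁻¹ * g) * r ^ k, hx⟩ : U₂) =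
        ⟨τ⁻¹ * (r ^ k)⁻¹ * τ, (hc _).1 hrk⟩ * ⟨τ⁻¹ * g, hv⟩ * ⟨r, hr⟩ ^ k := rfl
    have h3 : (⟨(r ^ k)⁻¹, hrk⟩ : U₂) = (⟨r, hr⟩ ^ k)⁻¹ := rfl
    rw [h1, W.mul_mem_cancel_left hτW]
    have h4 : τ⁻¹ * (r ^ k)⁻¹ * τ * (τ⁻¹ * g) * r ^ k ∈ W ↔
        τ⁻¹ * (r ^ k)⁻¹ * τ * (τ⁻¹ * g) * r ^ k ∈ W₀ :=
      ⟨fun h5 => h.inf _ h5 hx, fun h5 => h.w0w.le h5⟩
    rw [h4, ← hκ _ hx, h2, map_mul, map_mul, kappa_inv_K2 h hκ hrk, h3, map_inv, inv_inv, map_pow,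
      ← Multiplicative.toAdd.injective.eq_iff, toAdd_mul, toAdd_mul, toAdd_pow, toAdd_one, nsmul_eq_mul]
  have ha : Multiplicative.toAdd (κ ⟨r, hr⟩) ≠ 0 := by
    intro h1
    have h2 : κ ⟨r, hr⟩ = 1 := Multiplicative.toAdd.injective h1
    have h3 := (hκ r hr).1 h2
    have := h.w0u2.inj 1 (by norm_num) (by simpa using h3)
    omega
  have hin : ∀ k : ℕ, (r ^ k)⁻¹ * g * r ^ k ∈ W → rs W ψ ((r ^ k)⁻¹ * g * r ^ k) = ψ g := by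
    intro k hk
    rw [rs_mem _ hk, hψ.2 _ (U.pow_mem hrU k)]
  have hout : ∀ k : ℕ, (r ^ k)⁻¹ * g * r ^ k ∉ W → rs W ψ ((r ^ k)⁻¹ * g * r ^ k) = 0 := by
    intro k hk
    rw [rs_not_mem _ hk]
  have h0 := hval 0
  have h1 := hval 1
  have h2 := hval 2
  rw [Nat.cast_zero] at h0
  rw [Nat.cast_one] at h1
  rw [Nat.cast_ofNat] at h2
  rw [sum_cj_A1, Finset.sum_range_succ, Finset.sum_range_succ, Finset.sum_range_succ,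
    Finset.sum_range_zero]
  rcases count_K2 _ (Multiplicative.toAdd (κ ⟨τ⁻¹ * g, hv⟩)) ha with ⟨c0, c1, c2⟩ | ⟨c0, c1, c2⟩ |
    ⟨c0, c1, c2⟩
  · rw [hin 0 (h0.2 c0), hout 1 (fun c => c1 (h1.1 c)), hout 2 (fun c => c2 (h2.1 c))]
    ring
  · rw [hout 0 (fun c => c0 (h0.1 c)), hin 1 (h1.2 c1), hout 2 (fun c => c2 (h2.1 c))]
    ring
  · rw [hout 0 (fun c => c0 (h0.1 c)), hout 1 (fun c => c1 (h1.1 c)), hin 2 (h2.2 c2)]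
    ring

/-- CT3-K2. -/
theorem cubic_rs (D : Sys Γ) {M W U W₀ U₂ : Subgroup Γ} {r τ : Γ} (hM : M ∈ D.N) (h : Cubic W U W₀ U₂ r τ)
    (hMW : M ≤ W) {ψ : Γ → ℂ} (hψ : Lin D U ψ) :
    ∃ ψ', Lin D U ψ' ∧ TowA D U ((∑ k ∈ Finset.range 3, cj (r ^ k) (rs W ψ)) - ψ') := by
  have hMn := D.normal M hM
  have hMW₀ : M ≤ W₀ := fun m hm => h.core m (h.le (hMW hm)) fun u _ => hMW (hMn.conj_mem m hm u)
  have hMU₂ : M ≤ U₂ := hMW₀.trans h.w0u2.le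
  have hMU : M ≤ U := hMW.trans h.le
  have hr : r ∈ U₂ := h.w0u2.mem
  have hrU : r ∈ U := h.u2u.le hr
  have hτU : τ ∈ U := h.u2u.mem
  have hcls := cls_lin hψ
  obtain ⟨κ₁, hκ₁⟩ := g2_kappa (by norm_num : 0 < 2) h.u2u
  obtain ⟨κ, hκ⟩ := g2_kappa (by norm_num : 0 < 3) h.w0u2
  -- the quadratic character
  have hη1 : ∀ g (hg : g ∈ U), g ∈ U₂ → g2eta κ₁ 1 ⟨g, hg⟩ = 1 :=
    fun g hg hg2 => g2eta_ker κ₁ 1 _ ((hκ₁ g hg).2 hg2)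
  have hη2 : ∀ g (hg : g ∈ U), g ∉ U₂ → ((g2eta κ₁ 1 ⟨g, hg⟩ : ℂˣ) : ℂ) = -1 := by
    intro g hg hg2
    have h1 : g2eta κ₁ 1 ⟨g, hg⟩ ≠ 1 := g2eta_ne_K2 κ₁ _ (fun c => hg2 ((hκ₁ g hg).1 c))
    have h2 : g2eta κ₁ 1 ⟨g, hg⟩ ^ 2 = 1 := g2eta_pow κ₁ 1 _
    rw [Units.ext_iff, Units.val_pow_eq_pow_val, Units.val_one, sq_eq_one_iff] at h2
    rcases h2 with h2 | h2
    · exact absurd (Units.ext h2) h1
    · exact h2
  have hηop : OpC D U (g2eta κ₁ 1) := ⟨M, hM, hMU, fun g hg hgM => hη1 g hg (hMU₂ hgM)⟩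
  -- the cubic character
  have hω1 : ∀ g (hg : g ∈ U₂), g ∈ W₀ → g2eta κ 1 ⟨g, hg⟩ = 1 :=
    fun g hg hg2 => g2eta_ker κ 1 _ ((hκ g hg).2 hg2)
  have hω2 : ∀ g (hg : g ∈ U₂), g ∉ W₀ →
      ((g2eta κ 1 ⟨g, hg⟩ : ℂˣ) : ℂ) + (((g2eta κ 1 ⟨g, hg⟩)⁻¹ : ℂˣ) : ℂ) = -1 := by
    intro g hg hg2
    have h1 : g2eta κ 1 ⟨g, hg⟩ ≠ 1 := g2eta_ne_K2 κ _ (fun c => hg2 ((hκ g hg).1 c))
    have h2 : g2eta κ 1 ⟨g, hg⟩ ^ 3 = 1 := g2eta_pow κ 1 _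
    generalize g2eta κ 1 ⟨g, hg⟩ = z at h1 h2
    have h3 : z⁻¹ = z ^ 2 := by
      rw [inv_eq_iff_mul_eq_one, ← pow_succ']
      exact h2
    rw [h3, Units.val_pow_eq_pow_val]
    rw [Units.ext_iff, Units.val_pow_eq_pow_val, Units.val_one] at h2
    have h4 : (z : ℂ) - 1 ≠ 0 := by
      intro h5
      exact h1 (Units.ext (by rw [Units.val_one]; exact sub_eq_zero.1 h5))
    have h5 : ((z : ℂ) - 1) * ((z : ℂ) + (z : ℂ) ^ 2 + 1) = 0 := by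
      linear_combination h2
    have h6 := (mul_eq_zero.1 h5).resolve_left h4
    linear_combination h6
  have hωop : OpC D U₂ (g2eta κ 1) := ⟨M, hM, hMU₂, fun g hg hgM => hω1 g hg (hMW₀ hgM)⟩
  have hωinv : ∀ g (hg : g ∈ U₂) (hg' : τ⁻¹ * g * τ ∈ U₂),
      g2eta κ 1 ⟨τ⁻¹ * g * τ, hg'⟩ = (g2eta κ 1 ⟨g, hg⟩)⁻¹ := by
    intro g hg hg'
    have h1 := kappa_inv_K2 h hκ hg hg'
    rw [eq_inv_iff_mul_eq_one, Units.ext_iff, Units.val_mul, g2eta_apply, g2eta_apply, h1, toAdd_inv,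
      one_mul, one_mul, ← AddChar.map_add_eq_mul, neg_add_cancel, AddChar.map_zero_eq_one, Units.val_one]
  -- the functions
  have hrsL : Lin D U₂ (rs U₂ ψ) := lin_rs D hM hMU₂ h.u2u.le hψ
  have hφL : Lin D U₂ ((fun g => ext U₂ (g2eta κ 1) g * rs U₂ ψ g) - rs U₂ ψ) :=
    lin_sub (lin_mul_K2 D hrsL hωop) hrsL
  have hφW₀ : ∀ g, g ∈ W₀ → ((fun g => ext U₂ (g2eta κ 1) g * rs U₂ ψ g) - rs U₂ ψ) g = 0 := by
    intro g hg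
    have hg2 := h.w0u2.le hg
    rw [Pi.sub_apply]
    rw [ext_mem _ hg2, hω1 g hg2 hg, Units.val_one, one_mul, sub_self]
  have hφT : TowA D U₂ ((fun g => ext U₂ (g2eta κ 1) g * rs U₂ ψ g) - rs U₂ ψ) := by
    refine lin_towA D hφL (hφW₀ 1 W₀.one_mem) fun s hs hsU => hφW₀ s ?_
    exact mem_of_odd Nat.prime_three (by norm_num) h.w0u2 (D.sq s hs) hsU
  have hφU₂ : ∀ g, g ∈ U₂ → g ∉ W₀ →
      ((fun g => ext U₂ (g2eta κ 1) g * rs U₂ ψ g) - rs U₂ ψ) g +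
        ((fun g => ext U₂ (g2eta κ 1) g * rs U₂ ψ g) - rs U₂ ψ) (τ⁻¹ * g * τ) = -3 * ψ g := by
    intro g hg hg0
    have hg' : τ⁻¹ * g * τ ∈ U₂ := by
      have := (g2_conj_mem h.u2u 1 g).2 hg
      rwa [pow_one] at this
    rw [Pi.sub_apply, Pi.sub_apply]
    rw [ext_mem _ hg, ext_mem _ hg', hωinv g hg hg', rs_mem _ hg, rs_mem _ hg', hcls.2 τ hτU]
    linear_combination (ψ g) * hω2 g hg hg0
  have hφn : ∀ g, g ∉ U₂ → ((fun g => ext U₂ (g2eta κ 1) g * rs U₂ ψ g) - rs U₂ ψ) g = 0 := by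
    intro g hg
    rw [Pi.sub_apply]
    rw [ext_not_mem _ hg, rs_not_mem _ hg, zero_mul, sub_self]
  have hst := TowA.step Nat.prime_two τ h.u2u hφT
  refine ⟨(2 : ℤ) • ψ + (fun g => ext U (g2eta κ₁ 1) g * ψ g),
    lin_add_G1 (lin_zsmul_G1 2 hψ) (lin_mul_K2 D hψ hηop), ?_⟩
  have key : (∑ k ∈ Finset.range 3, cj (r ^ k) (rs W ψ)) -
      ((2 : ℤ) • ψ + (fun g => ext U (g2eta κ₁ 1) g * ψ g)) =
      ∑ k ∈ Finset.range 2, cj (τ ^ k)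
        ((fun g => ext U₂ (g2eta κ 1) g * rs U₂ ψ g) - rs U₂ ψ) := by
    funext g
    have e2 : (∑ k ∈ Finset.range 2, cj (τ ^ k)
        ((fun g => ext U₂ (g2eta κ 1) g * rs U₂ ψ g) - rs U₂ ψ)) g =
        ((fun g => ext U₂ (g2eta κ 1) g * rs U₂ ψ g) - rs U₂ ψ) g +
        ((fun g => ext U₂ (g2eta κ 1) g * rs U₂ ψ g) - rs U₂ ψ) (τ⁻¹ * g * τ) := by
      rw [sum_cj_A1, Finset.sum_range_succ, Finset.sum_range_succ, Finset.sum_range_zero, pow_zero, pow_one,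
        inv_one, one_mul, mul_one, zero_add]
    rw [e2, Pi.sub_apply, Pi.add_apply, Pi.smul_apply]
    have hgc : ∀ x, (x ∈ U₂ ↔ τ⁻¹ * x * τ ∈ U₂) := by
      intro x
      have := g2_conj_mem h.u2u 1 x
      rw [pow_one] at this
      exact this.symm
    by_cases hgU : g ∈ U
    · by_cases hg2 : g ∈ U₂
      · rw [ext_mem _ hgU, hη1 g hgU hg2, Units.val_one]
        by_cases hg0 : g ∈ W₀
        · have h1 : τ⁻¹ * g * τ ∈ W₀ := by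
            have := h.norm τ⁻¹ (U.inv_mem hτU) g hg0
            rwa [inv_inv] at this
          rw [hφW₀ g hg0, hφW₀ _ h1, sum_cj_A1]
          have h2 : ∀ k ∈ Finset.range 3, rs W ψ ((r ^ k)⁻¹ * g * r ^ k) = ψ g := by
            intro k _
            have h3 : (r ^ k)⁻¹ * g * r ^ k ∈ W₀ := (g2_conj_mem h.w0u2 k g).2 hg0
            rw [rs_mem _ (h.w0w.le h3), hcls.2 _ (U.pow_mem hrU k)]
          rw [Finset.sum_congr rfl h2, Finset.sum_const, Finset.card_range, nsmul_eq_mul, zsmul_eq_mul]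
          push_cast
          ring
        · rw [hφU₂ g hg2 hg0, sum_cj_A1]
          have h2 : ∀ k ∈ Finset.range 3, rs W ψ ((r ^ k)⁻¹ * g * r ^ k) = 0 := by
            intro k _
            refine rs_not_mem _ fun h3 => hg0 ?_
            have h4 : (r ^ k)⁻¹ * g * r ^ k ∈ U₂ :=
              U₂.mul_mem (U₂.mul_mem (U₂.inv_mem (U₂.pow_mem hr k)) hg2) (U₂.pow_mem hr k)
            exact (g2_conj_mem h.w0u2 k g).1 (h.inf _ h3 h4)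
          rw [Finset.sum_congr rfl h2, Finset.sum_const_zero, zsmul_eq_mul]
          push_cast
          ring
      · rw [cubic_val_K2 h hκ hcls hgU hg2, ext_mem _ hgU, hη2 g hgU hg2, hφn g hg2,
          hφn _ (fun c => hg2 ((hgc g).2 c)), zsmul_eq_mul]
        push_cast
        ring
    · have hg2 : g ∉ U₂ := fun c => hgU (h.u2u.le c)
      rw [hφn g hg2, hφn _ (fun c => hg2 ((hgc g).2 c)), hcls.1 g hgU, sum_cj_A1]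
      have h2 : ∀ k ∈ Finset.range 3, rs W ψ ((r ^ k)⁻¹ * g * r ^ k) = 0 := by
        intro k _
        refine rs_not_mem _ fun h3 => hgU ?_
        have h4 := U.mul_mem (U.mul_mem (U.pow_mem hrU k) (h.le h3)) (U.inv_mem (U.pow_mem hrU k))
        have h5 : r ^ k * ((r ^ k)⁻¹ * g * r ^ k) * (r ^ k)⁻¹ = g := by group
        rwa [h5] at h4
      rw [Finset.sum_congr rfl h2, Finset.sum_const_zero, smul_zero, mul_zero]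
      ring
  rw [key]
  exact hst

end SB
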