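import Pool.Agent.Helper21.CT.Base3

/-!
# Project CT3, module K3: orientation of a function along a cubic step
-/

namespace SB

variable {Γ : Type*} [Group Γ]

private def hcK (U : Subgroup Γ) (s s' : Γ) : Prop := ∃ u ∈ U, s' = u * s * u⁻¹

private def stK (U : Subgroup Γ) : Setoid Γ where
  r := hcK U
  iseqv :=
    { refl := fun s => ⟨1, U.one_mem, by group⟩
      symm := by
        rintro s s' ⟨u, hu, rfl⟩
        exact ⟨u⁻¹, U.inv_mem hu, by group⟩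
      trans := by
        rintro s s' s'' ⟨u, hu, rfl⟩ ⟨v, hv, rfl⟩
        exact ⟨v * u, U.mul_mem hv hu, by group⟩ }

private noncomputable def repK (U : Subgroup Γ) (s : Γ) : Γ := (Quotient.mk (stK U) s).out

private theorem repK_spec (U : Subgroup Γ) (s : Γ) : ∃ u ∈ U, s = u * repK U s * u⁻¹ :=
  Quotient.exact (s := stK U) (Quotient.out_eq (Quotient.mk (stK U) s))

private theorem repK_conj {U : Subgroup Γ} {u : Γ} (hu : u ∈ U) (s : Γ) :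
    repK U (u * s * u⁻¹) = repK U s := by
  have h : hcK U s (u * s * u⁻¹) := ⟨u, hu, rfl⟩
  unfold repK
  rw [Quotient.sound (s := stK U) h]

/-- the orientation -/
private def orK (U U₂ : Subgroup Γ) (s : Γ) : Prop := ∃ u ∈ U₂, s = u * repK U s * u⁻¹

private theorem orK_conj {U U₂ : Subgroup Γ} (hle : U₂ ≤ U) {v : Γ} (hv : v ∈ U₂) (s : Γ) :
    orK U U₂ (v * s * v⁻¹) ↔ orK U U₂ s := by
  unfold orK
  rw [repK_conj (hle hv)]
  constructor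
  · rintro ⟨u, hu, e⟩
    refine ⟨v⁻¹ * u, U₂.mul_mem (U₂.inv_mem hv) hu, ?_⟩
    generalize repK U s = q at e ⊢
    have h1 : s = v⁻¹ * (v * s * v⁻¹) * v := by group
    rw [h1, e]
    group
  · rintro ⟨u, hu, e⟩
    refine ⟨v * u, U₂.mul_mem hv hu, ?_⟩
    generalize repK U s = q at e ⊢
    rw [e]
    group

/-- CT3-K3. -/
theorem cubic_orient {W U W₀ U₂ : Subgroup Γ} {r τ : Γ} (h : Cubic W U W₀ U₂ r τ) (S : Set Γ)
    (hconj : ∀ s ∈ S, ∀ g, g * s * g⁻¹ ∈ S) (hcent : ∀ s ∈ S, ∀ g, g * s * g⁻¹ = s → g = 1 ∨ g = s)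
    (c : Γ → ℤ) (hfin : (Set.range c).Finite)
    (hc : ∀ s ∈ S, s ∈ W₀ → ∀ u ∈ W, c (u * s * u⁻¹) = c s)
    (hsum : ∀ s ∈ S, s ∈ W₀ → ∑ k ∈ Finset.range 3, c ((r ^ k)⁻¹ * s * r ^ k) = 0) :
    ∃ γ : Γ → ℤ, (Set.range γ).Finite ∧ (∀ s ∈ S, s ∈ W₀ → ∀ u ∈ W₀, γ (u * s * u⁻¹) = γ s) ∧
      (∀ s ∈ S, s ∈ W₀ → γ s + γ (τ⁻¹ * s * τ) = c s) ∧
      (∀ s ∈ S, s ∈ W₀ → ∑ k ∈ Finset.range 3, γ ((r ^ k)⁻¹ * s * r ^ k) = 0) := by
  classical
  have hle : U₂ ≤ U := h.u2u.le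
  have hτW : τ ∈ W := h.w0w.mem
  have hτU : τ ∈ U := h.u2u.mem
  have hr : r ∈ U₂ := h.w0u2.mem
  have hnorm : ∀ s ∈ W₀, ∀ u ∈ U, u * s * u⁻¹ ∈ W₀ := fun s hs u hu => h.norm u hu s hs
  -- exactly one orientation
  have hone : ∀ s, orK U U₂ s ∨ orK U U₂ (τ⁻¹ * s * τ) := by
    intro s
    obtain ⟨u, hu, e⟩ := repK_spec U s
    obtain ⟨k, hk, hw⟩ := h.u2u.cover u hu
    have hk2 : k = 0 ∨ k = 1 := by omega
    rcases hk2 with rfl | rfl
    · left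
      refine ⟨u, ?_, e⟩
      simpa using hw
    · right
      have hw' : τ⁻¹ * u ∈ U₂ := by simpa using hw
      have hrep : repK U (τ⁻¹ * s * τ) = repK U s := by
        have := repK_conj (U.inv_mem hτU) s
        rwa [inv_inv] at this
      refine ⟨τ⁻¹ * u, hw', ?_⟩
      rw [hrep]
      generalize repK U s = q at e ⊢
      rw [e]
      group
  have hnot : ∀ s ∈ S, s ∈ W₀ → orK U U₂ s → ¬ orK U U₂ (τ⁻¹ * s * τ) := by
    rintro s hs hsW ⟨u, hu, e⟩ ⟨u', hu', e'⟩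
    have hrep : repK U (τ⁻¹ * s * τ) = repK U s := by
      have := repK_conj (U.inv_mem hτU) s
      rwa [inv_inv] at this
    rw [hrep] at e'
    generalize repK U s = q at e e'
    have hq : q = u⁻¹ * s * (u⁻¹)⁻¹ := by rw [e]; group
    have hqS : q ∈ S := by rw [hq]; exact hconj s hs _
    have hqW : q ∈ W₀ := by rw [hq]; exact hnorm s hsW _ (U.inv_mem (hle hu))
    have hg : (u⁻¹ * τ * u') * q * (u⁻¹ * τ * u')⁻¹ = q := by
      have h1 : (u⁻¹ * τ * u') * q * (u⁻¹ * τ * u')⁻¹ =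
          u⁻¹ * τ * (u' * q * u'⁻¹) * τ⁻¹ * u := by group
      rw [h1, ← e', hq]
      group
    have hgU : u⁻¹ * τ * u' ∈ U₂ := by
      rcases hcent q hqS _ hg with h1 | h1
      · rw [h1]; exact U₂.one_mem
      · rw [h1]; exact h.w0u2.le hqW
    have hτ : τ ∈ U₂ := by
      have h1 : τ = u * (u⁻¹ * τ * u') * u'⁻¹ := by group
      rw [h1]
      exact U₂.mul_mem (U₂.mul_mem hu hgU) (U₂.inv_mem hu')
    exact absurd (h.u2u.inj 1 (by norm_num) (by simpa using hτ)) (by norm_num)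
  refine ⟨fun s => if s ∈ S ∧ s ∈ W₀ ∧ orK U U₂ s then c s else 0, ?_, ?_, ?_, ?_⟩
  · refine (hfin.insert 0).subset ?_
    rintro _ ⟨s, rfl⟩
    dsimp only
    split_ifs
    · exact Set.mem_insert_of_mem _ ⟨s, rfl⟩
    · exact Set.mem_insert _ _
  · intro s hs hsW u hu
    have hu2 : u ∈ U₂ := h.w0u2.le hu
    have h1 : (u * s * u⁻¹ ∈ S ∧ u * s * u⁻¹ ∈ W₀ ∧ orK U U₂ (u * s * u⁻¹)) ↔
        (s ∈ S ∧ s ∈ W₀ ∧ orK U U₂ s) := by
      rw [orK_conj hle hu2]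
      exact ⟨fun a => ⟨hs, hsW, a.2.2⟩, fun a => ⟨hconj s hs u, hnorm s hsW u (hle hu2), a.2.2⟩⟩
    dsimp only
    simp only [h1, hc s hs hsW u (h.w0w.le hu)]
  · intro s hs hsW
    have hs' : τ⁻¹ * s * τ ∈ S := by
      have := hconj s hs τ⁻¹
      rwa [inv_inv] at this
    have hsW' : τ⁻¹ * s * τ ∈ W₀ := by
      have := hnorm s hsW τ⁻¹ (U.inv_mem hτU)
      rwa [inv_inv] at this
    have hcc : c (τ⁻¹ * s * τ) = c s := by
      have := hc s hs hsW τ⁻¹ (W.inv_mem hτW)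
      rwa [inv_inv] at this
    dsimp only
    by_cases ho : orK U U₂ s
    · have hn := hnot s hs hsW ho
      rw [if_pos ⟨hs, hsW, ho⟩, if_neg (fun a => hn a.2.2), add_zero]
    · have hn := (hone s).resolve_left ho
      rw [if_neg (fun a => ho a.2.2), if_pos ⟨hs', hsW', hn⟩, zero_add, hcc]
  · intro s hs hsW
    have hk : ∀ k : ℕ, ((r ^ k)⁻¹ * s * r ^ k ∈ S) ∧ ((r ^ k)⁻¹ * s * r ^ k ∈ W₀) ∧
        (orK U U₂ ((r ^ k)⁻¹ * s * r ^ k) ↔ orK U U₂ s) := by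
      intro k
      have hrk : (r ^ k)⁻¹ ∈ U₂ := U₂.inv_mem (U₂.pow_mem hr k)
      have a1 := hconj s hs (r ^ k)⁻¹
      have a2 := hnorm s hsW (r ^ k)⁻¹ (hle hrk)
      have a3 := orK_conj hle hrk s
      rw [inv_inv] at a1 a2 a3
      exact ⟨a1, a2, a3⟩
    dsimp only
    by_cases ho : orK U U₂ s
    · rw [← hsum s hs hsW]
      refine Finset.sum_congr rfl fun k _ => ?_
      obtain ⟨a1, a2, a3⟩ := hk k
      rw [if_pos ⟨a1, a2, a3.2 ho⟩]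
    · refine Finset.sum_eq_zero fun k _ => ?_
      obtain ⟨a1, a2, a3⟩ := hk k
      rw [if_neg (fun a => ho (a3.1 a.2.2))]

end SB
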