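import Pool.Agent.Helper21.CT.F
import Pool.Agent.Helper21.CT.K1
import Pool.Agent.Helper21.CT.K2
import Pool.Agent.Helper21.CT.K3

/-!
# CT3-K4: moving signs and the cubic step
-/

namespace SB

universe u

section
variable {Γ : Type u} [Group Γ]

theorem tower3_of_tower {S : Set Γ} {U : Subgroup Γ} (h : Tower S U) : Tower3 S U := by
  induction h with
  | base h hS => exact Tower3.base h hS
  | step _ hle hn hp ih => exact Tower3.step ih hle hn hp

theorem tower3_step {S : Set Γ} {p : ℕ} (hp : p.Prime) {W U : Subgroup Γ} {t : Γ} (h : IsStep p W U t)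
    (hU : Tower3 S U) : Tower3 S W :=
  Tower3.step hU h.le h.norm (by rw [relIndex_isStep h]; exact hp)

theorem fin_of_relIndex {W U : Subgroup Γ} (hle : W ≤ U) (h : W.relIndex U ≠ 0) (hU : U.FiniteIndex) :
    W.FiniteIndex := by
  refine ⟨?_⟩
  rw [← Subgroup.relIndex_mul_index hle]
  exact mul_ne_zero h hU.index_ne_zero

theorem tower3_fin {S : Set Γ} {U : Subgroup Γ} (h : Tower3 S U) : U.FiniteIndex := by
  induction h with
  | base h _ => exact h
  | step _ hle _ hp ih => exact fin_of_relIndex hle hp.ne_zero ih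
  | cubic _ hle h3 ih => exact fin_of_relIndex hle (by rw [h3]; norm_num) ih

theorem fam_mono {D : Sys Γ} {P Q : Subgroup Γ → Prop} (h : ∀ U, P U → Q U) {v : Γ → ℂ} (hv : Fam D P v) :
    Fam D Q v := by
  obtain ⟨m, n, U, χ, χ', h1, h2, h3, h4, h5⟩ := hv
  exact ⟨m, n, U, χ, χ', fun i => h _ (h1 i), h2, h3, h4, h5⟩

theorem fam3_of_towA (D : Sys Γ) {U : Subgroup Γ} (hU : Tower3 D.S U) {φ : Γ → ℂ} (h : TowA D U φ) :
    Fam D (Tower3 D.S) (Ind U φ) := by
  induction h with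
  | base h =>
    obtain ⟨χ, χ', h1, h2, h3, rfl⟩ := h
    refine fam_of_fintype_A2 D (Tower3 D.S) (ι := Unit) (fun _ => 1) (fun _ => _) (fun _ => χ)
      (fun _ => χ') (fun _ => hU) (fun _ => h1) (fun _ => h2) (fun _ => h3) (fun g => ?_)
    rw [Ind_sub_A2 (tower3_fin hU)]
    simp
  | zero U =>
    have h0 : Ind U (0 : Γ → ℂ) = fun _ => 0 := funext fun g => Ind_zero_A2 g
    rw [h0]
    exact fam_zero D _
  | @add U φ ψ _ _ ih1 ih2 =>
    have h0 : Ind U (φ + ψ) = fun g => Ind U φ g + Ind U ψ g :=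
      funext fun g => Ind_add_A2 (tower3_fin hU) φ ψ g
    rw [h0]
    exact fam_add D _ (ih1 hU) (ih2 hU)
  | @neg U φ _ ih =>
    have h0 : Ind U (-φ) = fun g => ((-1 : ℤ) : ℂ) * Ind U φ g :=
      funext fun g => by rw [Ind_neg_A2]; push_cast; ring
    rw [h0]
    exact fam_zmul D _ (-1) (ih hU)
  | step hp t hs hW ih =>
    rw [Ind_step hp.pos (tower3_fin hU) hs hW.cls]
    exact ih (tower3_step hp hs hU)

/-- `1, t, ..., t^(p-1)` are representatives of the cosets of `W` in `U`; `W` need not be normal. -/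
structure IsCos (p : ℕ) (W U : Subgroup Γ) (t : Γ) : Prop where
  le : W ≤ U
  mem : t ∈ U
  cover : ∀ u ∈ U, ∃ k < p, (t ^ k)⁻¹ * u ∈ W
  uniq : ∀ {j k : ℕ}, j < p → k < p → (t ^ j)⁻¹ * t ^ k ∈ W → j = k

theorem Ind_cos {p : ℕ} {W U : Subgroup Γ} (hU : U.FiniteIndex) (hW : W.FiniteIndex) {t : Γ}
    (h : IsCos p W U t) {φ : Γ → ℂ} (hφ : Cls W φ) :
    Ind U (∑ k ∈ Finset.range p, cj (t ^ k) φ) = Ind W φ := by
  have hfU : Finite (Γ ⧸ U) := inferInstance
  have hfW : Finite (Γ ⧸ W) := inferInstance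
  have hfintU : Fintype (Γ ⧸ U) := Fintype.ofFinite _
  funext g
  have hbij : Function.Bijective (fun x : (Γ ⧸ U) × Fin p =>
      (QuotientGroup.mk (x.1.out * t ^ (x.2 : ℕ)) : Γ ⧸ W)) := by
    constructor
    · rintro ⟨q, k⟩ ⟨q', k'⟩ hqk
      have h1 : (q.out * t ^ (k : ℕ))⁻¹ * (q'.out * t ^ (k' : ℕ)) ∈ W :=
        QuotientGroup.eq.1 hqk
      have hk1 : t ^ (k : ℕ) ∈ U := U.pow_mem h.mem _
      have hk2 : t ^ (k' : ℕ) ∈ U := U.pow_mem h.mem _
      have hq : q = q' := by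
        rw [← QuotientGroup.out_eq' q, ← QuotientGroup.out_eq' q', QuotientGroup.eq]
        have h2 : q.out⁻¹ * q'.out = t ^ (k : ℕ) *
            ((q.out * t ^ (k : ℕ))⁻¹ * (q'.out * t ^ (k' : ℕ))) * (t ^ (k' : ℕ))⁻¹ := by group
        rw [h2]
        exact U.mul_mem (U.mul_mem hk1 (h.le h1)) (U.inv_mem hk2)
      subst hq
      have h3 : (q.out * t ^ (k : ℕ))⁻¹ * (q.out * t ^ (k' : ℕ)) =
          (t ^ (k : ℕ))⁻¹ * t ^ (k' : ℕ) := by group
      rw [h3] at h1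
      have h4 := h.uniq k.2 k'.2 h1
      rw [Prod.mk.injEq]
      exact ⟨rfl, Fin.ext h4⟩
    · intro r
      obtain ⟨x, rfl⟩ := QuotientGroup.mk_surjective r
      have h1 : (QuotientGroup.mk x : Γ ⧸ U).out⁻¹ * x ∈ U := by
        rw [← QuotientGroup.eq, QuotientGroup.out_eq']
      obtain ⟨k, hk, hk2⟩ := h.cover _ h1
      refine ⟨⟨QuotientGroup.mk x, ⟨k, hk⟩⟩, ?_⟩
      rw [QuotientGroup.eq]
      have h2 : ((QuotientGroup.mk x : Γ ⧸ U).out * t ^ k)⁻¹ * x =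
          (t ^ k)⁻¹ * ((QuotientGroup.mk x : Γ ⧸ U).out⁻¹ * x) := by group
      simp only
      rw [h2]
      exact hk2
  have h2 : Ind W φ g = ∑ᶠ x : (Γ ⧸ U) × Fin p,
      φ ((x.1.out * t ^ (x.2 : ℕ))⁻¹ * g * (x.1.out * t ^ (x.2 : ℕ))) := by
    unfold Ind
    refine (finsum_eq_of_bijective _ hbij fun x => ?_).symm
    symm
    refine cls_coset_A1 hφ ?_ g
    rw [← QuotientGroup.eq, QuotientGroup.out_eq']
  rw [h2, finsum_eq_sum_of_fintype, Fintype.sum_prod_type]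
  unfold Ind
  rw [finsum_eq_sum_of_fintype]
  refine Finset.sum_congr rfl fun q _ => ?_
  rw [sum_cj_A1, Finset.sum_range]
  refine Finset.sum_congr rfl fun k _ => ?_
  congr 1
  group

theorem Cubic.isCos {W U W₀ U₂ : Subgroup Γ} {r τ : Γ} (h : Cubic W U W₀ U₂ r τ) : IsCos 3 W U r where
  le := h.le
  mem := h.u2u.le h.w0u2.mem
  cover := h.cov
  uniq := by
    intro j k hj hk hjk
    refine h.w0u2.uniq_A1 hj hk (h.inf _ hjk ?_)
    exact U₂.mul_mem (U₂.inv_mem (U₂.pow_mem h.w0u2.mem _)) (U₂.pow_mem h.w0u2.mem _)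

theorem Cubic.fin {W U W₀ U₂ : Subgroup Γ} {r τ : Γ} (h : Cubic W U W₀ U₂ r τ) (hU : U.FiniteIndex) :
    W.FiniteIndex := by
  have h1 := finiteIndex_step h.u2u hU
  have h2 := finiteIndex_step h.w0u2 h1
  exact Subgroup.finiteIndex_of_le h.w0w.le

end

end SB
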