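import Pool.Agent.Helper21.SB.Stmt

namespace SB

/-! The additional definitions used in the statement of the theorem on cyclic towers. -/

variable {Γ : Type*} [Group Γ]

/-- `W` is a normal subgroup of prime index in `U`. -/
def PStep (W U : Subgroup Γ) : Prop :=
  W ≤ U ∧ (∀ u ∈ U, ∀ w ∈ W, u * w * u⁻¹ ∈ W) ∧ (W.relIndex U).Prime

/-- `U` is reached by steps `PStep` from a subgroup containing `S`. -/
inductive CycTower (S : Set Γ) : Subgroup Γ → Prop
  | base {U : Subgroup Γ} : S ⊆ U → CycTower S U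
  | step {W U : Subgroup Γ} : CycTower S U → PStep W U → CycTower S W

/-- The class function of `U` induced from the class function `φ` of `W ≤ U` (both extended by zero). -/
noncomputable def IndRel (W U : Subgroup Γ) (φ : Γ → ℂ) : Γ → ℂ :=
  fun g => ∑ᶠ q : U ⧸ W.subgroupOf U, φ ((q.out : Γ)⁻¹ * g * q.out)

/-- `φ` is obtained from a linear character `χ` (trivial on `N`) by successive induction along steps `PStep`, such
that for every step of odd index `p` the number of eigenvalues `-1` of the result at each `s ∈ S`, which is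
`(φ 1 - φ s) / 2`, is divisible by `p`. -/
inductive Balanced (S : Set Γ) (N : Subgroup Γ) : Subgroup Γ → (Γ → ℂ) → Prop
  | char {U : Subgroup Γ} (χ : U →* ℂˣ) : N ≤ U → TrivOn N χ → Balanced S N U (ext U χ)
  | step {W U : Subgroup Γ} {φ : Γ → ℂ} : Balanced S N W φ → PStep W U →
      (W.relIndex U ≠ 2 → ∀ s ∈ S, s ∈ U →
        ∃ b : ℤ, IndRel W U φ 1 - IndRel W U φ s = 2 * (W.relIndex U) * b) →
      Balanced S N U (IndRel W U φ)

/-- `v` is a finite sum `∑ nᵢ (Ind χᵢ - Ind χᵢ')`, `nᵢ` integers, `χᵢ, χᵢ'` linear characters of `Uᵢ ≥ N`, trivial on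
`N` and equal at all elements of `S` in `Uᵢ`, all `Uᵢ` being reached by steps from subgroups containing `S`. -/
def SigSpan (S : Set Γ) (N : Subgroup Γ) (v : Γ → ℂ) : Prop :=
  ∃ (m : ℕ) (n : Fin m → ℤ) (U : Fin m → Subgroup Γ) (χ χ' : ∀ i, U i →* ℂˣ),
    (∀ i, CycTower S (U i) ∧ SigPair S N (U i) (χ i) (χ' i)) ∧
    ∀ g, v g = ∑ i, (n i : ℂ) * (IndChr (U i) (χ i) g - IndChr (U i) (χ' i) g)

/-- `v` is an integral combination of characters `Ind χᵢ`, `χᵢ` a linear character of `Uᵢ` trivial on `N ≤ Uᵢ`,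
`Uᵢ` with property `P`. -/
def MonComb (N : Subgroup Γ) (P : Subgroup Γ → Prop) (v : Γ → ℂ) : Prop :=
  ∃ (m : ℕ) (n : Fin m → ℤ) (U : Fin m → Subgroup Γ) (χ : ∀ i, U i →* ℂˣ),
    (∀ i, P (U i) ∧ N ≤ U i ∧ TrivOn N (χ i)) ∧ ∀ g, v g = ∑ i, (n i : ℂ) * IndChr (U i) (χ i) g

/-- `U` is the whole group, or it is reached by steps from a subgroup containing `S` and contains no element of `S`. -/
def TopOrComplex (S : Set Γ) (U : Subgroup Γ) : Prop := U = ⊤ ∨ (CycTower S U ∧ ∀ s ∈ S, s ∉ U)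

/-- Either `φ` is balanced on `U ⊇ S` and constant on `S`, or `φ` is a linear character of `U` and `U` is the whole
group or a tower containing no element of `S`. -/
def Good (S : Set Γ) (N U : Subgroup Γ) (φ : Γ → ℂ) : Prop :=
  (Balanced S N U φ ∧ S ⊆ U ∧ ∀ s ∈ S, ∀ s' ∈ S, φ s = φ s') ∨
    (TopOrComplex S U ∧ N ≤ U ∧ ∃ χ : U →* ℂˣ, TrivOn N χ ∧ φ = ext U χ)

/-- `v` is an integral combination of `Ind φᵢ`, with `φᵢ` good on `Uᵢ`. -/
def GoodComb (S : Set Γ) (N : Subgroup Γ) (v : Γ → ℂ) : Prop :=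
  ∃ (m : ℕ) (n : Fin m → ℤ) (U : Fin m → Subgroup Γ) (φ : Fin m → Γ → ℂ),
    (∀ i, Good S N (U i) (φ i)) ∧ ∀ g, v g = ∑ i, (n i : ℂ) * Ind (U i) (φ i) g

end SB
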