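import Pool.Agent.Helper21.CT.Base
import Pool.Agent.Helper21.SB.C1

/-!
# Project CT, module B1: monomial representations, Brauer induction for towers, twisting
-/

namespace SB

universe u

section B
variable {Γ : Type u} [Group Γ]

open C1 in
/-- CT-B1. The monomial representation; as `exists_indRep` in SB/C1, for any group. -/
theorem exists_lrep (M U : Subgroup Γ) (hM : M.Normal) (hMU : M ≤ U) (hU : U.FiniteIndex) (χ : U →* ℂˣ)
    (hχ : ∀ g (h : g ∈ U), g ∈ M → χ ⟨g, h⟩ = 1) :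
    ∃ (d : ℕ) (ρ : Γ →* ((Fin d → ℂ) →ₗ[ℂ] (Fin d → ℂ))), (∀ g ∈ M, ρ g = 1) ∧
      ∀ g, LinearMap.trace ℂ (Fin d → ℂ) (ρ g) = Ind U (ext U χ) g := by
  have : Finite (Γ ⧸ U) := Subgroup.finite_quotient_of_finiteIndex
  obtain ⟨d, ⟨e⟩⟩ := Finite.exists_equiv_fin (Γ ⧸ U)
  let f : Γ →* Matrix (Fin d) (Fin d) ℂ :=
    { toFun := mat U χ e
      map_one' := mat_one U χ e M hM hMU hχ M.one_mem
      map_mul' := mat_mul U χ e }
  let ρ : Γ →* ((Fin d → ℂ) →ₗ[ℂ] (Fin d → ℂ)) :=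
    { toFun := fun g => Matrix.toLin' (mat U χ e g)
      map_one' := by
        rw [mat_one U χ e M hM hMU hχ M.one_mem, Matrix.toLin'_one]
        rfl
      map_mul' := fun g h => by
        rw [mat_mul, Matrix.toLin'_mul]
        rfl }
  refine ⟨d, ρ, fun g hg => ?_, fun g => ?_⟩
  · change Matrix.toLin' (mat U χ e g) = 1
    rw [mat_one U χ e M hM hMU hχ hg, Matrix.toLin'_one]
    rfl
  · haveI : Fintype (Γ ⧸ U) := Fintype.ofFinite _
    have h0 : LinearMap.trace ℂ (Fin d → ℂ) (ρ g) = Matrix.trace (mat U χ e g) :=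
      Matrix.trace_toLin'_eq (mat U χ e g)
    rw [h0]
    unfold Ind
    rw [finsum_eq_sum_of_fintype]
    have h1 : Matrix.trace (mat U χ e g) =
        ∑ i, ext U χ ((e.symm i).out⁻¹ * g * (e.symm i).out) := rfl
    rw [h1, e.symm.sum_comp (fun q => ext U χ (q.out⁻¹ * g * q.out))]

/-- The value at the neutral element of an induced character. -/
theorem ind_ext_one_one_B1 {U : Subgroup Γ} (hU : U.FiniteIndex) :
    Ind U (ext U 1) 1 = (U.index : ℂ) := by
  have : Finite (Γ ⧸ U) := Subgroup.finite_quotient_of_finiteIndex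
  haveI : Fintype (Γ ⧸ U) := Fintype.ofFinite _
  unfold Ind
  rw [finsum_eq_sum_of_fintype]
  have h1 : ∀ q : Γ ⧸ U, ext U 1 (q.out⁻¹ * 1 * q.out) = 1 := by
    intro q
    have h2 : q.out⁻¹ * 1 * q.out = 1 := by group
    rw [h2, ext_mem 1 U.one_mem]
    simp
  rw [Finset.sum_congr rfl fun q _ => h1 q, Finset.sum_const, Finset.card_univ, nsmul_eq_mul, mul_one,
    Subgroup.index, Nat.card_eq_fintype_card]

/-- The system with `S = ∅` and `N = {L}`. -/
def sysCore_B1 (L : Subgroup Γ) (hL : L.Normal) (hf : L.FiniteIndex) : Sys Γ where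
  S := ∅
  N := {L}
  normal := by
    intro M hM
    rw [Set.mem_singleton_iff] at hM
    exact hM ▸ hL
  fin := by
    intro M hM
    rw [Set.mem_singleton_iff] at hM
    exact hM ▸ hf
  inf := by
    intro M hM M' hM'
    rw [Set.mem_singleton_iff] at hM hM' ⊢
    rw [hM, hM', inf_idem]
  conj := fun s hs => absurd hs (Set.notMem_empty s)
  sq := fun s hs => absurd hs (Set.notMem_empty s)
  nt := by
    intro M hM U _ κ _ _ _ _
    exact ⟨M, hM, le_rfl, 1, fun _ _ _ => rfl, fun s _ hs => absurd hs (Set.notMem_empty s)⟩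

/-- CT-B1. `famGeneral` for the system with `S = ∅` and `N = {core of U}`. -/
theorem brauer0 (D : Sys Γ) (hup : ∀ M ∈ D.N, ∀ M' : Subgroup Γ, M'.Normal → M ≤ M' → M' ∈ D.N)
    {M U : Subgroup Γ} (hM : M ∈ D.N) (hMU : M ≤ U) (hS : D.S ⊆ U) :
    Fam D (Tower D.S) (fun g => Ind U (ext U 1) g - (U.index : ℂ)) := by
  have hMn : M.Normal := D.normal M hM
  have hML : M ≤ U.normalCore := Subgroup.normal_le_normalCore.2 hMU
  have hLn : U.normalCore.Normal := U.normalCore_normal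
  have hLN : U.normalCore ∈ D.N := hup M hM _ hLn hML
  have hLf : U.normalCore.FiniteIndex := D.fin _ hLN
  have hUf : U.FiniteIndex := fin_of_le D hM hMU
  have hSL : D.S ⊆ U.normalCore := by
    intro s hs g
    exact hS (D.conj s hs g)
  obtain ⟨d, ρ, h1, h2⟩ := exists_lrep U.normalCore U hLn U.normalCore_le hUf 1 (fun _ _ _ => rfl)
  have hd : (d : ℂ) = (U.index : ℂ) := by
    rw [← ind_ext_one_one_B1 hUf, ← h2 1, map_one, LinearMap.trace_one]
    simp
  have key := famGeneral (sysCore_B1 U.normalCore hLn hLf) (M := U.normalCore) (Set.mem_singleton _)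
    ρ (1 : Γ →* ((Fin d → ℂ) →ₗ[ℂ] (Fin d → ℂ))) h1 (fun _ _ => rfl) rfl
    (fun s hs => absurd hs (Set.notMem_empty s))
  obtain ⟨m, n, U', χ, χ', -, ho, ho', -, hv⟩ := key
  have hLU : ∀ i, U.normalCore ≤ U' i ∧ (∀ g (h : g ∈ U' i), g ∈ U.normalCore → χ i ⟨g, h⟩ = 1) := by
    intro i
    obtain ⟨L, hL, hLU, hx⟩ := ho i
    rw [show L = U.normalCore from hL] at hLU hx
    exact ⟨hLU, hx⟩
  have hLU' : ∀ i, ∀ g (h : g ∈ U' i), g ∈ U.normalCore → χ' i ⟨g, h⟩ = 1 := by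
    intro i
    obtain ⟨L, hL, -, hx⟩ := ho' i
    rw [show L = U.normalCore from hL] at hx
    exact hx
  refine ⟨m, n, U', χ, χ', fun i => ?_, fun i => ?_, fun i => ?_, fun i s h hs => ?_, fun g => ?_⟩
  · exact Tower.base (fin_of_le D hLN (hLU i).1) fun s hs => (hLU i).1 (hSL hs)
  · exact ⟨U.normalCore, hLN, (hLU i).1, (hLU i).2⟩
  · exact ⟨U.normalCore, hLN, (hLU i).1, hLU' i⟩
  · rw [(hLU i).2 s h (hSL hs), hLU' i s h (hSL hs)]
  · have h4 := hv g
    rw [← h4]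
    beta_reduce
    rw [h2 g]
    have h3 : LinearMap.trace ℂ (Fin d → ℂ) ((1 : Γ →* ((Fin d → ℂ) →ₗ[ℂ] (Fin d → ℂ))) g) = (d : ℂ) := by
      rw [MonoidHom.one_apply, LinearMap.trace_one]
      simp
    rw [h3, hd]

/-- Twisting an induced character. -/
theorem ind_twist_B1 (U : Subgroup Γ) (χ : U →* ℂˣ) (θ : Γ →* ℂˣ) (g : Γ) :
    (θ g : ℂ) * Ind U (ext U χ) g = Ind U (ext U (χ * θ.comp U.subtype)) g := by
  unfold Ind
  rw [← smul_eq_mul, smul_finsum]
  refine finsum_congr fun q => ?_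
  rw [smul_eq_mul]
  by_cases h : q.out⁻¹ * g * q.out ∈ U
  · rw [ext_mem _ h, ext_mem _ h]
    have h1 : θ (q.out⁻¹ * g * q.out) = θ g := by
      rw [map_mul, map_mul, map_inv, mul_comm (θ q.out)⁻¹, mul_assoc, inv_mul_cancel, mul_one]
    have h2 : (χ * θ.comp U.subtype) ⟨q.out⁻¹ * g * q.out, h⟩ =
        χ ⟨q.out⁻¹ * g * q.out, h⟩ * θ (q.out⁻¹ * g * q.out) := rfl
    rw [h2, h1, Units.val_mul, mul_comm]
  · rw [ext_not_mem _ h, ext_not_mem _ h, mul_zero]

/-- CT-B1. Multiply the characters by the restrictions of `θ`. -/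
theorem fam_twist (D : Sys Γ) (P : Subgroup Γ → Prop) {v : Γ → ℂ} (hv : Fam D P v) (θ : Γ →* ℂˣ)
    {M : Subgroup Γ} (hM : M ∈ D.N) (hθ : ∀ g ∈ M, θ g = 1) : Fam D P (fun g => (θ g : ℂ) * v g) := by
  obtain ⟨m, n, U, χ, χ', hP, ho, ho', hs, hv⟩ := hv
  have hop : ∀ (V : Subgroup Γ) (ψ : V →* ℂˣ), OpC D V ψ → OpC D V (ψ * θ.comp V.subtype) := by
    rintro V ψ ⟨L, hL, hLV, hx⟩
    refine ⟨L ⊓ M, D.inf L hL M hM, inf_le_left.trans hLV, fun g h hg => ?_⟩
    have h1 : (ψ * θ.comp V.subtype) ⟨g, h⟩ = ψ ⟨g, h⟩ * θ g := rfl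
    rw [h1, hx g h hg.1, hθ g hg.2, one_mul]
  refine ⟨m, n, U, fun i => χ i * θ.comp (U i).subtype, fun i => χ' i * θ.comp (U i).subtype, hP,
    fun i => hop _ _ (ho i), fun i => hop _ _ (ho' i), fun i s h hS => ?_, fun g => ?_⟩
  · have h1 : ∀ ψ : U i →* ℂˣ, (ψ * θ.comp (U i).subtype) ⟨s, h⟩ = ψ ⟨s, h⟩ * θ s := fun _ => rfl
    rw [h1, h1, hs i s h hS]
  · beta_reduce
    rw [hv g, Finset.mul_sum]
    refine Finset.sum_congr rfl fun i _ => ?_
    rw [← ind_twist_B1, ← ind_twist_B1]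
    ring

end B

end SB
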