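import Pool.Agent.Helper21.CT.S
import Pool.Agent.Helper21.CT.B1

/-!
# CT-B2: the totally real base
-/

namespace SB

universe u

variable {Γ : Type u} [Group Γ]

/-- The restriction of a linear character of `Γ`. -/
def resc (U : Subgroup Γ) (θ : Γ →* ℂˣ) : U →* ℂˣ := θ.comp U.subtype

theorem ext_resc (U : Subgroup Γ) (θ : Γ →* ℂˣ) {g : Γ} (h : g ∈ U) : ext U (resc U θ) g = (θ g : ℂ) := by
  rw [ext_mem _ h]; rfl

theorem opc_resc {D : Sys Γ} {M U Mθ : Subgroup Γ} (hM : M ∈ D.N) (hMU : M ≤ U) (θ : Γ →* ℂˣ) (hMθ : Mθ ∈ D.N)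
    (hθ : ∀ g ∈ Mθ, θ g = 1) : OpC D U (resc U θ) :=
  ⟨M ⊓ Mθ, D.inf _ hM _ hMθ, inf_le_left.trans hMU, fun g _ hg => hθ g hg.2⟩

theorem Ind_resc (U : Subgroup Γ) (θ : Γ →* ℂˣ) (g : Γ) :
    Ind U (ext U (resc U θ)) g = (θ g : ℂ) * Ind U (ext U 1) g := by
  unfold Ind
  rw [← smul_eq_mul, smul_finsum]
  refine finsum_congr fun q => ?_
  rw [smul_eq_mul]
  by_cases h : q.out⁻¹ * g * q.out ∈ U
  · rw [ext_resc _ _ h, ext_one_apply U h, mul_one]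
    congr 1
    rw [map_mul, map_mul, map_inv, mul_comm, mul_inv_cancel_left]
  · rw [ext_not_mem _ h, ext_not_mem _ h, mul_zero]

theorem Ind_smul (U : Subgroup Γ) (n : ℤ) (φ : Γ → ℂ) (g : Γ) : Ind U (n • φ) g = (n : ℂ) * Ind U φ g := by
  unfold Ind
  rw [← smul_eq_mul, smul_finsum]
  refine finsum_congr fun q => ?_
  rw [smul_eq_mul, Pi.smul_apply, zsmul_eq_mul]

theorem fin_of_N (D : Sys Γ) {M U : Subgroup Γ} (hM : M ∈ D.N) (h : M ≤ U) : U.FiniteIndex :=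
  have := D.fin M hM
  Subgroup.finiteIndex_of_le h

theorem fam_congr {D : Sys Γ} {P : Subgroup Γ → Prop} {v w : Γ → ℂ} (h : Fam D P v) (e : ∀ g, w g = v g) :
    Fam D P w := by
  have : w = v := funext e
  rw [this]; exact h

theorem base_int (D : Sys Γ) (hup : ∀ M ∈ D.N, ∀ M' : Subgroup Γ, M'.Normal → M ≤ M' → M' ∈ D.N)
    (θ : Γ →* ℂˣ) {Mθ : Subgroup Γ} (hMθ : Mθ ∈ D.N) (hθ : ∀ g ∈ Mθ, θ g = 1) (hθS : ∀ s ∈ D.S, θ s = -1)
    {M U : Subgroup Γ} (hM : M ∈ D.N) (hMU : M ≤ U) (hS : D.S ⊆ U) {ψ : Γ → ℂ} (hψ : Lin D U ψ)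
    (hc : ∀ s ∈ D.S, ∀ s' ∈ D.S, ψ s = ψ s') :
    ∃ a b : ℤ, Fam D (Tower D.S) (fun g => Ind U ψ g - a - b * (θ g : ℂ)) := by
  have hfin := fin_of_N D hM hMU
  obtain ⟨n, b, -, h1, hs, -⟩ := lin_int D hψ
  -- the constant
  obtain ⟨c, hc'⟩ : ∃ c : ℤ, ∀ s ∈ D.S, b s = c := by
    by_cases he : D.S.Nonempty
    · obtain ⟨s0, hs0⟩ := he
      refine ⟨b s0, fun s hsS => ?_⟩
      have h2 := hc s hsS s0 hs0
      rw [hs s hsS (hS hsS), hs s0 hs0 (hS hs0)] at h2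
      have h3 : (b s : ℂ) = b s0 := by linear_combination (-1 / 2 : ℂ) * h2
      exact_mod_cast h3
    · exact ⟨0, fun s hsS => absurd ⟨s, hsS⟩ he⟩
  have ho1 : OpC D U 1 := opc_one hM hMU
  have hoθ : OpC D U (resc U θ) := opc_resc hM hMU θ hMθ hθ
  have hlin : Lin D U (ψ - ((n - c) • ext U 1 + c • ext U (resc U θ))) :=
    lin_sub hψ (lin_add_G1 (lin_zsmul_G1 _ (lin_ext ho1)) (lin_zsmul_G1 _ (lin_ext hoθ)))
  have htow : TowA D U (ψ - ((n - c) • ext U 1 + c • ext U (resc U θ))) := by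
    refine lin_towA D hlin ?_ ?_
    · simp only [Pi.sub_apply, Pi.add_apply, Pi.smul_apply]
      rw [h1, ext_one_apply U U.one_mem, ext_resc U θ U.one_mem, map_one]
      simp
    · intro s hsS hsU
      simp only [Pi.sub_apply, Pi.add_apply, Pi.smul_apply]
      rw [hs s hsS hsU, ext_one_apply U hsU, ext_resc U θ hsU, hθS s hsS, hc' s hsS]
      simp
      ring
  have hTU : Tower D.S U := Tower.base hfin hS
  have hf1 := fam_of_towA D hTU htow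
  have hb := brauer0 D hup hM hMU hS
  have hbθ := fam_twist D (Tower D.S) hb θ hMθ hθ
  refine ⟨(n - c) * U.index, c * U.index, ?_⟩
  refine fam_congr (fam_add D _ (fam_add D _ hf1 (fam_zmul D _ (n - c) hb)) (fam_zmul D _ c hbθ)) fun g => ?_
  rw [Ind_sub_A2 hfin, Ind_add_A2 hfin, Ind_smul, Ind_smul, Ind_resc]
  push_cast
  ring

/-- Induction of a class function supported on a normal subgroup. -/
theorem Ind_cls_top {L : Subgroup Γ} (hL : L.FiniteIndex) {Φ : Γ → ℂ} (hΦ : ∀ g x, Φ (x⁻¹ * g * x) = Φ g) (g : Γ) :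
    Ind L Φ g = (L.index : ℂ) * Φ g := by
  unfold Ind
  have : Finite (Γ ⧸ L) := L.finite_quotient_of_finiteIndex
  have : Fintype (Γ ⧸ L) := Fintype.ofFinite _
  rw [finsum_eq_sum_of_fintype, Finset.sum_congr rfl (fun q _ => hΦ g q.out), Finset.sum_const, Finset.card_univ,
    nsmul_eq_mul, ← Nat.card_eq_fintype_card]
  rfl

theorem Ind_conj {U : Subgroup Γ} {φ : Γ → ℂ} (hφ : Cls U φ) (g x : Γ) : Ind U φ (x⁻¹ * g * x) = Ind U φ g := by
  unfold Ind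
  have e : ∀ q : Γ ⧸ U, φ (q.out⁻¹ * (x⁻¹ * g * x) * q.out) = φ ((x • q).out⁻¹ * g * (x • q).out) := by
    intro q
    have h1 : (x * q.out)⁻¹ * (x • q).out ∈ U := by
      rw [← QuotientGroup.eq, QuotientGroup.out_eq']
      conv_rhs => rw [← QuotientGroup.out_eq' q]
      rfl
    have h2 := cls_coset_A1 hφ h1 g
    rw [h2]
    congr 1
    group
  rw [finsum_congr e]
  exact finsum_comp_equiv (MulAction.toPerm x : Equiv.Perm (Γ ⧸ U)) (f := fun q => φ (q.out⁻¹ * g * q.out))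

theorem rq_of_mul {D : Sys Γ} {θ v w : Γ → ℂ} {N : ℕ} (hN : 0 < N) (e : ∀ g, w g = (N : ℂ) * v g)
    (h : RQ D θ w) : RQ D θ v := by
  obtain ⟨K, a, b, hK, hf⟩ := h
  refine ⟨K * N, a, b, Nat.mul_pos hK hN, fam_congr hf fun g => ?_⟩
  rw [e]
  push_cast
  ring

theorem normal_rat (D : Sys Γ) (hup : ∀ M ∈ D.N, ∀ M' : Subgroup Γ, M'.Normal → M ≤ M' → M' ∈ D.N)
    (θ : Γ →* ℂˣ) {Mθ : Subgroup Γ} (hMθ : Mθ ∈ D.N) (hθ : ∀ g ∈ Mθ, θ g = 1) (hθS : ∀ s ∈ D.S, θ s = -1)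
    (hone : ∀ s ∈ D.S, ∀ s' ∈ D.S, ∃ g, s' = g * s * g⁻¹)
    {L : Subgroup Γ} (hL : L ∈ D.N) (hS : D.S ⊆ L) {φ : Γ → ℂ} (hφ : Lin D L φ) :
    RQ D (fun g => (θ g : ℂ)) (Ind L φ) := by
  have hLn := D.normal L hL
  have hLf := D.fin L hL
  have : Finite (Γ ⧸ L) := L.finite_quotient_of_finiteIndex
  have : Fintype (Γ ⧸ L) := Fintype.ofFinite _
  have hcls := Ind_conj (cls_lin hφ)
  have hlin : Lin D L (Ind L φ) := by
    have e : Ind L φ = ∑ q : Γ ⧸ L, cj q.out φ := by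
      funext g
      unfold Ind
      rw [finsum_eq_sum_of_fintype, Finset.sum_apply]
      rfl
    rw [e]
    refine lin_sum_G1 _ _ fun q _ => lin_cj D hφ fun h => ?_
    constructor
    · intro hh
      have := hLn.conj_mem h hh (q.out)⁻¹
      rwa [inv_inv] at this
    · intro hh
      have := hLn.conj_mem _ hh q.out
      have e2 : q.out * (q.out⁻¹ * h * q.out) * q.out⁻¹ = h := by group
      rwa [e2] at this
  obtain ⟨a, b, hf⟩ := base_int D hup θ hMθ hθ hθS hL le_rfl hS hlin (fun s hs s' hs' => by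
    obtain ⟨g, rfl⟩ := hone s hs s' hs'
    have := hcls s g⁻¹
    rw [inv_inv] at this
    exact this.symm)
  refine ⟨L.index, a, b, Nat.pos_of_ne_zero hLf.index_ne_zero, fam_congr hf fun g => ?_⟩
  rw [Ind_cls_top hLf hcls]

end SB
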