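import Pool.Agent.Helper21.CT.B2
import Pool.Agent.Helper21.CT.B3
import Pool.Agent.Helper21.CT.B4

/-!
# CT-B5: towers, rational statement
-/

namespace SB

universe u

variable {Γ : Type u} [Group Γ]

theorem rq_of_fam {D : Sys Γ} {θ v w : Γ → ℂ} {N : ℕ} (hN : 0 < N)
    (hf : Fam D (Tower D.S) (fun g => (N : ℂ) * v g - w g)) (h : RQ D θ w) : RQ D θ v := by
  obtain ⟨K, a, b, hK, h1⟩ := h
  refine ⟨K * N, a, b, Nat.mul_pos hK hN, fam_congr (fam_add D _ (fam_zmul D _ (K : ℤ) hf) h1) fun g => ?_⟩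
  push_cast
  ring

theorem rq_zero (D : Sys Γ) (θ : Γ → ℂ) : RQ D θ (fun _ => 0) :=
  ⟨1, 0, 0, one_pos, fam_congr (fam_zero D _) fun g => by simp⟩

theorem rq_add {D : Sys Γ} {θ v w : Γ → ℂ} (hv : RQ D θ v) (hw : RQ D θ w) : RQ D θ (fun g => v g + w g) := by
  obtain ⟨K, a, b, hK, h1⟩ := hv
  obtain ⟨K', a', b', hK', h1'⟩ := hw
  refine ⟨K * K', K' * a + K * a', K' * b + K * b', Nat.mul_pos hK hK',
    fam_congr (fam_add D _ (fam_zmul D _ (K' : ℤ) h1) (fam_zmul D _ (K : ℤ) h1')) fun g => ?_⟩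
  push_cast
  ring

theorem rq_zmul {D : Sys Γ} {θ v : Γ → ℂ} (n : ℤ) (hv : RQ D θ v) : RQ D θ (fun g => (n : ℂ) * v g) := by
  obtain ⟨K, a, b, hK, h1⟩ := hv
  refine ⟨K, n * a, n * b, hK, fam_congr (fam_zmul D _ n h1) fun g => ?_⟩
  push_cast
  ring

theorem rq_sum {D : Sys Γ} {θ : Γ → ℂ} {ι : Type*} (s : Finset ι) (n : ι → ℤ) (v : ι → Γ → ℂ)
    (h : ∀ i, RQ D θ (v i)) : RQ D θ (fun g => ∑ i ∈ s, (n i : ℂ) * v i g) := by
  classical
  induction s using Finset.induction_on with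
  | empty => simpa using rq_zero D θ
  | insert a s ha ih =>
    simp only [Finset.sum_insert ha]
    exact rq_add (rq_zmul (n a) (h a)) ih

theorem pchain_le {L V : Subgroup Γ} (h : PChain L V) : L ≤ V := by
  induction h with
  | refl => exact le_rfl
  | step _ hle _ _ ih => exact ih.trans hle

theorem rs_rs {L W : Subgroup Γ} (h : L ≤ W) (ψ : Γ → ℂ) : rs L (rs W ψ) = rs L ψ := by
  funext g
  by_cases hg : g ∈ L
  · rw [rs_mem _ hg, rs_mem _ hg, rs_mem _ (h hg)]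
  · rw [rs_not_mem _ hg, rs_not_mem _ hg]

theorem base_rat (D : Sys Γ) (hup : ∀ M ∈ D.N, ∀ M' : Subgroup Γ, M'.Normal → M ≤ M' → M' ∈ D.N)
    (θ : Γ →* ℂˣ) {Mθ : Subgroup Γ} (hMθ : Mθ ∈ D.N) (hθ : ∀ g ∈ Mθ, θ g = 1) (hθS : ∀ s ∈ D.S, θ s = -1)
    (hone : ∀ s ∈ D.S, ∀ s' ∈ D.S, ∃ g, s' = g * s * g⁻¹)
    {M U : Subgroup Γ} (hM : M ∈ D.N) (hMU : M ≤ U) (hS : D.S ⊆ U) {ψ : Γ → ℂ} (hψ : Lin D U ψ) :
    RQ D (fun g => (θ g : ℂ)) (Ind U ψ) := by
  have hfin := fin_of_N D hM hMU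
  have hMn := D.normal M hM
  have hML : M ≤ U.normalCore := Subgroup.normal_le_normalCore.2 hMU
  have hL : U.normalCore ∈ D.N := hup M hM _ inferInstance hML
  have hLf := D.fin _ hL
  have hLU : U.normalCore ≤ U := Subgroup.normalCore_le U
  have hSL : D.S ⊆ U.normalCore := fun s hs g => hS (D.conj s hs g)
  obtain ⟨m, a, W, hWU, hch, hsum⟩ := solomon_inner (L := U.normalCore) (U := U) inferInstance hLU hfin hLf
  have key := hsum ψ (cls_lin hψ)
  have e : Ind U ψ = fun g => ∑ i, (a i : ℂ) * Ind (W i) (rs (W i) ψ) g := funext key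
  rw [e]
  refine rq_sum _ _ _ fun i => ?_
  have hLW := pchain_le (hch i)
  have hψi : Lin D (W i) (rs (W i) ψ) := lin_rs D hL hLW (hWU i) hψ
  have h1 := chain_rat D hL hSL (hch i) hψi
  rw [rs_rs hLW] at h1
  have h2 : Lin D U.normalCore (rs U.normalCore ψ) := lin_rs D hL le_rfl hLU hψ
  have hpos : 0 < U.normalCore.relIndex (W i) :=
    Nat.pos_of_ne_zero fun h0 => hLf.index_ne_zero (by
      have := Subgroup.relIndex_mul_index hLW
      rw [← this, h0, zero_mul])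
  exact rq_of_fam hpos h1 (normal_rat D hup θ hMθ hθ hθS hone hL hSL h2)

theorem tower_rat (D : Sys Γ) (hup : ∀ M ∈ D.N, ∀ M' : Subgroup Γ, M'.Normal → M ≤ M' → M' ∈ D.N)
    (hnt : NtU D)
    (θ : Γ →* ℂˣ) {Mθ : Subgroup Γ} (hMθ : Mθ ∈ D.N) (hθ : ∀ g ∈ Mθ, θ g = 1) (hθS : ∀ s ∈ D.S, θ s = -1)
    (hone : ∀ s ∈ D.S, ∀ s' ∈ D.S, ∃ g, s' = g * s * g⁻¹)
    {U : Subgroup Γ} (hU : Tower D.S U) {M : Subgroup Γ} (hM : M ∈ D.N) (hMU : M ≤ U) {φ : Γ → ℂ}
    (hφ : Lin D U φ) :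
    RQ D (fun g => (θ g : ℂ)) (Ind U φ) := by
  induction hU generalizing φ with
  | base hfin hS => exact base_rat D hup θ hMθ hθ hθS hone hM hMU hS hφ
  | @step W U hTU hle hn hpr ih =>
    obtain ⟨t, ht⟩ := exists_isStep hle hn hpr
    set p := W.relIndex U with hp
    have hfin := tower_fin hTU
    by_cases hp2 : p = 2
    · rw [hp2] at ht
      obtain ⟨ψ, hψ, htow⟩ := two_step D ht hφ
      have hf := fam_of_towA D hTU htow
      have h1 : Ind U (∑ k ∈ Finset.range 2, cj (t ^ k) φ) = Ind W φ :=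
        Ind_step (by norm_num) hfin ht (cls_lin hφ)
      refine rq_of_fam (N := 1) one_pos (fam_congr hf fun g => ?_) (ih (hMU.trans hle) hψ)
      rw [Ind_sub_A2 hfin, h1]
      simp
    · have hlin : Lin D W ((p : ℤ) • φ) := lin_zsmul_G1 _ hφ
      obtain ⟨n, b, -, h1, hs, -⟩ := lin_int D hφ
      obtain ⟨ψ, hψ, htow⟩ := odd_step D hnt hM hpr hp2 ht hMU hlin (by
        intro s hsS hsU
        refine ⟨∑ k ∈ Finset.range p, b ((t ^ k)⁻¹ * s * t ^ k), ?_⟩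
        have hsW : s ∈ W := mem_of_odd hpr hp2 ht (D.sq s hsS) hsU
        rw [sum_cj_A1, sum_cj_A1, ← Finset.sum_sub_distrib]
        push_cast
        rw [Finset.mul_sum]
        refine Finset.sum_congr rfl fun k _ => ?_
        have h3 : (t ^ k)⁻¹ * s * t ^ k ∈ W := (g2_conj_mem ht k s).2 hsW
        have h4 : (t ^ k)⁻¹ * s * t ^ k ∈ D.S := by
          have := D.conj s hsS (t ^ k)⁻¹
          rwa [inv_inv] at this
        rw [Pi.smul_apply, Pi.smul_apply, mul_one, inv_mul_cancel, h1, hs _ h4 h3]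
        simp only [zsmul_eq_mul]
        push_cast
        ring)
      have hf := fam_of_towA D hTU htow
      have h2 : Ind U (∑ k ∈ Finset.range p, cj (t ^ k) ((p : ℤ) • φ)) = Ind W ((p : ℤ) • φ) :=
        Ind_step hpr.pos hfin ht (cls_lin hlin)
      refine rq_of_fam (N := p) hpr.pos (fam_congr hf fun g => ?_) (ih (hMU.trans hle) hψ)
      rw [Ind_sub_A2 hfin, h2, Ind_smul]
      push_cast
      ring

end SB
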