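import Pool.Agent.Helper21.CT.Base
import Pool.Agent.Helper21.CT.P

/-!
# Project CT, module B6: subgroups without complex conjugations
-/

namespace SB

universe u

section B
variable {Γ : Type u} [Group Γ]

/-- a step of odd index contains all involutions -/
private theorem mem_of_odd_B6 {p : ℕ} (hp : p.Prime) (h2 : p ≠ 2) {W U : Subgroup Γ} {t : Γ}
    (h : IsStep p W U t) {s : Γ} (hs : s ∈ U) (hss : s * s = 1) : s ∈ W := by
  obtain ⟨k, hk, hkW⟩ := h.cover s hs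
  have hw := h.norm (t ^ k)⁻¹ (U.inv_mem (U.pow_mem h.mem k)) _ hkW
  have h1 : t ^ (2 * k) ∈ W := by
    have h3 := W.mul_mem hw hkW
    have h4 : (t ^ k)⁻¹ * ((t ^ k)⁻¹ * s) * ((t ^ k)⁻¹)⁻¹ * ((t ^ k)⁻¹ * s) = (t ^ (2 * k))⁻¹ := by
      have h5 : (t ^ k)⁻¹ * ((t ^ k)⁻¹ * s) * ((t ^ k)⁻¹)⁻¹ * ((t ^ k)⁻¹ * s) =
          (t ^ k)⁻¹ * (t ^ k)⁻¹ * (s * s) := by group
      rw [h5, hss, mul_one, two_mul, pow_add, mul_inv_rev]
    rw [h4] at h3
    have h6 := W.inv_mem h3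
    rwa [inv_inv] at h6
  have hk0 : k = 0 := by
    rcases lt_or_ge (2 * k) p with h3 | h3
    · have := h.inj _ h3 h1
      omega
    · have h4 : t ^ (2 * k - p) ∈ W := by
        have h5 : t ^ (2 * k) = t ^ (2 * k - p) * t ^ p := by
          rw [← pow_add]
          congr 1
          omega
        rw [h5] at h1
        exact (W.mul_mem_cancel_right h.pow_mem).1 h1
      have h6 := h.inj _ (by omega) h4
      exfalso
      have h7 : p = 2 * k := by omega
      have h8 : (2 : ℕ) ∣ p := ⟨k, h7⟩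
      rcases (Nat.dvd_prime hp).1 h8 with h9 | h9
      · omega
      · exact h2 h9.symm
  rw [hk0, pow_zero, inv_one, one_mul] at hkW
  exact hkW

private theorem complex_aux_B6 (D : Sys Γ) {U : Subgroup Γ} (hU : Tower D.S U) :
    ∀ (φ : Γ → ℂ) (d : ℕ), Bal D U φ → Cls U φ → (∀ s ∈ D.S, φ s = 0) → φ 1 = (d : ℂ) →
      (∀ s ∈ D.S, s ∈ U → Even d) →
      ∃ (U₀ : Subgroup Γ) (φ₀ : Γ → ℂ), D.S ⊆ U₀ ∧ U₀.FiniteIndex ∧ Bal D U₀ φ₀ ∧
        (∀ s ∈ D.S, φ₀ s = 0) ∧ ∀ g, Ind U₀ φ₀ g = Ind U φ g := by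
  induction hU with
  | @base U hfin hS =>
    intro φ d hb _ hs _ _
    exact ⟨U, φ, hS, hfin, hb, hs, fun _ => rfl⟩
  | @step W U hU hle hn hp ih =>
    intro φ d hb hcls hs h1 hev
    obtain ⟨t, ht⟩ := exists_isStep hle hn hp
    have hone : (∑ k ∈ Finset.range (W.relIndex U), cj (t ^ k) φ) 1 =
        ((W.relIndex U * d : ℕ) : ℂ) := by
      rw [Finset.sum_apply]
      have : ∀ k ∈ Finset.range (W.relIndex U), cj (t ^ k) φ 1 = (d : ℂ) := by
        intro k _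
        rw [cj_apply, mul_one, inv_mul_cancel, h1]
      rw [Finset.sum_congr rfl this, Finset.sum_const, Finset.card_range, nsmul_eq_mul,
        Nat.cast_mul]
    have hzero : ∀ s ∈ D.S, (∑ k ∈ Finset.range (W.relIndex U), cj (t ^ k) φ) s = 0 := by
      intro s hsS
      rw [Finset.sum_apply]
      refine Finset.sum_eq_zero fun k _ => ?_
      rw [cj_apply]
      apply hs
      have := D.conj s hsS (t ^ k)⁻¹
      rwa [inv_inv] at this
    have hodd : W.relIndex U ≠ 2 → ∀ s ∈ D.S, s ∈ U → Even d := by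
      intro h2 s hsS hsU
      exact hev s hsS (mem_of_odd_B6 hp h2 ht hsU (D.sq s hsS))
    have hbal : Bal D U (∑ k ∈ Finset.range (W.relIndex U), cj (t ^ k) φ) := by
      refine Bal.step hp t ht hb fun h2 s hsS hsU => ?_
      obtain ⟨c, hc⟩ := hodd h2 s hsS hsU
      refine ⟨(c : ℤ), ?_⟩
      rw [hone, hzero s hsS, hc]
      push_cast
      ring
    obtain ⟨U₀, φ₀, a1, a2, a3, a4, a5⟩ := ih _ (W.relIndex U * d) hbal
      (cls_step hp.pos ht hcls) hzero hone (by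
        intro s hsS hsU
        by_cases h2 : W.relIndex U = 2
        · rw [h2]
          exact even_two_mul d
        · exact (hodd h2 s hsS hsU).mul_left _)
    refine ⟨U₀, φ₀, a1, a2, a3, a4, fun g => ?_⟩
    rw [a5 g, Ind_step hp.pos (tower_fin hU) ht hcls]

/-- CT-B6. If `U` contains no element of `S`, then `Ind U χ` is obtained from a balanced function. -/
theorem tower_complex (D : Sys Γ) {U : Subgroup Γ} (hU : Tower D.S U) (hUS : ∀ s ∈ D.S, s ∉ U)
    (χ : U →* ℂˣ) (hχ : OpC D U χ) :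
    ∃ (U₀ : Subgroup Γ) (φ : Γ → ℂ), D.S ⊆ U₀ ∧ U₀.FiniteIndex ∧ Bal D U₀ φ ∧ (∀ s ∈ D.S, φ s = 0) ∧
      ∀ g, Ind U₀ φ g = Ind U (ext U χ) g := by
  refine complex_aux_B6 D hU (ext U χ) 1 (Bal.char χ hχ) (cls_ext U χ)
    (fun s hs => ext_not_mem χ (hUS s hs)) ?_ (fun s hs hs' => absurd hs' (hUS s hs))
  rw [ext_mem χ U.one_mem]
  have h1 : (⟨1, U.one_mem⟩ : U) = 1 := rfl
  rw [h1, map_one]
  simp

end B

end SB
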