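import Pool.Agent.Helper21.SB.Asm

/-!
# Project CT: signature induction along towers of cyclic extensions, definitions
-/

namespace SB

variable {Γ : Type*} [Group Γ]

/-- Quadratic characters with arbitrary prescribed values on the conjugacy classes of `S` exist. -/
def NtU (D : Sys Γ) : Prop :=
  ∀ M ∈ D.N, ∀ U : Subgroup Γ, M ≤ U → ∀ κ : Set Γ, κ ⊆ D.S → (∀ s ∈ κ, s ∈ U) →
    (∀ s ∈ κ, ∀ u ∈ U, u * s * u⁻¹ ∈ κ) →
    ∃ M' ∈ D.N, M' ≤ M ∧ ∃ x : U →* ℤˣ, (∀ g (h : g ∈ U), g ∈ M' → x ⟨g, h⟩ = 1) ∧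
      ∀ s (h : s ∈ U), s ∈ D.S → (x ⟨s, h⟩ = -1 ↔ s ∈ κ)

/-- Functions obtained from differences of linear characters with the same signature by sums, negation and
induction along normal steps of prime index. -/
inductive TowA (D : Sys Γ) : Subgroup Γ → (Γ → ℂ) → Prop
  | base {U : Subgroup Γ} {φ : Γ → ℂ} : BI D U φ → TowA D U φ
  | zero (U : Subgroup Γ) : TowA D U 0
  | add {U : Subgroup Γ} {φ ψ : Γ → ℂ} : TowA D U φ → TowA D U ψ → TowA D U (φ + ψ)
  | neg {U : Subgroup Γ} {φ : Γ → ℂ} : TowA D U φ → TowA D U (-φ)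
  | step {p : ℕ} (hp : p.Prime) {W U : Subgroup Γ} {φ : Γ → ℂ} (t : Γ) (h : IsStep p W U t) :
      TowA D W φ → TowA D U (∑ k ∈ Finset.range p, cj (t ^ k) φ)

/-- `U` is reached by normal steps of prime index from a subgroup of finite index which contains `S`. -/
inductive Tower (S : Set Γ) : Subgroup Γ → Prop
  | base {U : Subgroup Γ} : U.FiniteIndex → S ⊆ U → Tower S U
  | step {W U : Subgroup Γ} : Tower S U → W ≤ U → (∀ u ∈ U, ∀ w ∈ W, u * w * u⁻¹ ∈ W) →
      (W.relIndex U).Prime → Tower S W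

/-- Functions obtained from linear characters by balanced steps: if the index `p` of a step is odd, the number of
eigenvalues `-1` at every element of `S` after the step is divisible by `p`. -/
inductive Bal (D : Sys Γ) : Subgroup Γ → (Γ → ℂ) → Prop
  | char {U : Subgroup Γ} (χ : U →* ℂˣ) : OpC D U χ → Bal D U (ext U χ)
  | step {p : ℕ} (hp : p.Prime) {W U : Subgroup Γ} {φ : Γ → ℂ} (t : Γ) (h : IsStep p W U t) :
      Bal D W φ → (p ≠ 2 → ∀ s ∈ D.S, s ∈ U → ∃ b : ℤ,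
        (∑ k ∈ Finset.range p, cj (t ^ k) φ) 1 - (∑ k ∈ Finset.range p, cj (t ^ k) φ) s = 2 * p * b) →
      Bal D U (∑ k ∈ Finset.range p, cj (t ^ k) φ)

/-- `W` is reached from `L` by a chain of subgroups, each normal of prime index in the next one. -/
inductive PChain (L : Subgroup Γ) : Subgroup Γ → Prop
  | refl : PChain L L
  | step {V W : Subgroup Γ} : PChain L V → V ≤ W → (∀ w ∈ W, ∀ v ∈ V, w * v * w⁻¹ ∈ V) →
      (V.relIndex W).Prime → PChain L W

/-- Restriction to a subgroup (extended by zero). -/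
noncomputable def rs (H : Subgroup Γ) (φ : Γ → ℂ) : Γ → ℂ := Set.indicator (H : Set Γ) φ

/-- Some multiple of `v` is, up to the family, a combination of `1` and `θ`. -/
def RQ (D : Sys Γ) (θ : Γ → ℂ) (v : Γ → ℂ) : Prop :=
  ∃ (N : ℕ) (a b : ℤ), 0 < N ∧ Fam D (Tower D.S) (fun g => (N : ℂ) * v g - a - b * θ g)

theorem rs_mem {H : Subgroup Γ} (φ : Γ → ℂ) {g : Γ} (h : g ∈ H) : rs H φ g = φ g := by
  simp [rs, h]

theorem rs_not_mem {H : Subgroup Γ} (φ : Γ → ℂ) {g : Γ} (h : g ∉ H) : rs H φ g = 0 := by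
  simp [rs, h]

theorem TowA.sub {D : Sys Γ} {U : Subgroup Γ} {φ ψ : Γ → ℂ} (h : TowA D U φ) (h' : TowA D U ψ) :
    TowA D U (φ - ψ) := by
  rw [sub_eq_add_neg]; exact h.add h'.neg

theorem TowA.nsmul {D : Sys Γ} {U : Subgroup Γ} {φ : Γ → ℂ} (h : TowA D U φ) (n : ℕ) : TowA D U (n • φ) := by
  induction n with
  | zero => simpa using TowA.zero U
  | succ n ih => rw [succ_nsmul]; exact ih.add h

theorem TowA.zsmul {D : Sys Γ} {U : Subgroup Γ} {φ : Γ → ℂ} (h : TowA D U φ) (n : ℤ) : TowA D U (n • φ) := by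
  rcases Int.eq_nat_or_neg n with ⟨m, rfl | rfl⟩
  · simpa using h.nsmul m
  · simpa using (h.nsmul m).neg

theorem TowA.sum {D : Sys Γ} {U : Subgroup Γ} {ι : Type*} (s : Finset ι) (φ : ι → Γ → ℂ)
    (h : ∀ i ∈ s, TowA D U (φ i)) : TowA D U (∑ i ∈ s, φ i) := by
  classical
  induction s using Finset.induction_on with
  | empty => simpa using TowA.zero U
  | insert a s ha ih =>
    rw [Finset.sum_insert ha]
    exact (h a (Finset.mem_insert_self a s)).add (ih fun i hi => h i (Finset.mem_insert_of_mem hi))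

theorem TowA.vanish {D : Sys Γ} {U : Subgroup Γ} {φ : Γ → ℂ} (h : TowA D U φ) :
    φ 1 = 0 ∧ ∀ s ∈ D.S, φ s = 0 := by
  induction h with
  | @base U φ h =>
    obtain ⟨χ, χ', _, _, hs, rfl⟩ := h
    refine ⟨?_, fun s hS => ?_⟩
    · rw [Pi.sub_apply, ext_mem χ U.one_mem, ext_mem χ' U.one_mem]
      have h1 : (⟨1, U.one_mem⟩ : U) = 1 := rfl
      rw [h1, map_one, map_one, sub_self]
    · rw [Pi.sub_apply]
      by_cases hU : s ∈ U
      · rw [ext_mem χ hU, ext_mem χ' hU, hs s hU hS, sub_self]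
      · rw [ext_not_mem χ hU, ext_not_mem χ' hU, sub_self]
  | zero U => exact ⟨rfl, fun _ _ => rfl⟩
  | add _ _ ih1 ih2 =>
    refine ⟨?_, fun s hS => ?_⟩
    · rw [Pi.add_apply, ih1.1, ih2.1, add_zero]
    · rw [Pi.add_apply, ih1.2 s hS, ih2.2 s hS, add_zero]
  | neg _ ih =>
    refine ⟨?_, fun s hS => ?_⟩
    · rw [Pi.neg_apply, ih.1, neg_zero]
    · rw [Pi.neg_apply, ih.2 s hS, neg_zero]
  | step _ t hst _ ih =>
    refine ⟨?_, fun s hS => ?_⟩
    · rw [Finset.sum_apply]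
      apply Finset.sum_eq_zero
      intro k _
      rw [cj_apply, mul_one, inv_mul_cancel]
      exact ih.1
    · rw [Finset.sum_apply]
      apply Finset.sum_eq_zero
      intro k _
      rw [cj_apply]
      apply ih.2
      have := D.conj s hS (t ^ k)⁻¹
      rwa [inv_inv] at this

theorem TowA.cls {D : Sys Γ} {U : Subgroup Γ} {φ : Γ → ℂ} (h : TowA D U φ) : Cls U φ := by
  induction h with
  | base h =>
    obtain ⟨χ, χ', -, -, -, rfl⟩ := h
    rw [sub_eq_add_neg]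
    exact cls_add_A2 (cls_ext _ _) (cls_neg_A2 (cls_ext _ _))
  | zero U => exact ⟨fun _ _ => rfl, fun _ _ _ => rfl⟩
  | add _ _ ih1 ih2 => exact cls_add_A2 ih1 ih2
  | neg _ ih => exact cls_neg_A2 ih
  | step hp t hs _ ih => exact cls_step hp.pos hs ih

theorem Tow.towA {D : Sys Γ} {p : ℕ} (hp : p.Prime) {M U : Subgroup Γ} {φ : Γ → ℂ} (h : Tow p M (BI D) U φ) :
    TowA D U φ := by
  induction h with
  | base h => exact TowA.base h
  | zero U => exact TowA.zero U
  | add _ _ ih1 ih2 => exact ih1.add ih2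
  | neg _ ih => exact ih.neg
  | step t hs _ _ ih => exact TowA.step hp t hs ih

/-- StLin in the form used here. -/
theorem lin_towA (D : Sys Γ) {U : Subgroup Γ} {φ : Γ → ℂ} (h : Lin D U φ) (h1 : φ 1 = 0)
    (hS : ∀ s ∈ D.S, s ∈ U → φ s = 0) : TowA D U φ :=
  (gLin D h h1 hS).towA Nat.prime_two

theorem cls_lin {D : Sys Γ} {U : Subgroup Γ} {φ : Γ → ℂ} (h : Lin D U φ) : Cls U φ := by
  obtain ⟨m, n, χ, -, rfl⟩ := h
  refine ⟨fun g hg => ?_, fun u hu g => ?_⟩
  · rw [Finset.sum_apply]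
    exact Finset.sum_eq_zero fun i _ => by rw [Pi.smul_apply, ext_not_mem _ hg, smul_zero]
  · rw [Finset.sum_apply, Finset.sum_apply]
    exact Finset.sum_congr rfl fun i _ => by rw [Pi.smul_apply, Pi.smul_apply, (cls_ext U (χ i)).2 u hu g]

end SB
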