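import Pool.Agent.Helper21.CT.Base

/-!
# Project CT3: towers with cubic steps, definitions
-/

namespace SB

variable {Γ : Type*} [Group Γ]

/-- `U` is reached by normal steps of prime index and by arbitrary steps of index three from a subgroup of finite
index which contains `S`. -/
inductive Tower3 (S : Set Γ) : Subgroup Γ → Prop
  | base {U : Subgroup Γ} : U.FiniteIndex → S ⊆ U → Tower3 S U
  | step {W U : Subgroup Γ} : Tower3 S U → W ≤ U → (∀ u ∈ U, ∀ w ∈ W, u * w * u⁻¹ ∈ W) →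
      (W.relIndex U).Prime → Tower3 S W
  | cubic {W U : Subgroup Γ} : Tower3 S U → W ≤ U → W.relIndex U = 3 → Tower3 S W

/-- `W` is a subgroup of index three of `U`, not normal; `W₀` is its normal core in `U`, `U₂` the subgroup of index two
of `U` containing `W₀`; `U₂/W₀` is generated by `r`, `W/W₀` by `τ`, and `U/W₀` is the symmetric group of degree three. -/
structure Cubic (W U W₀ U₂ : Subgroup Γ) (r τ : Γ) : Prop where
  le : W ≤ U
  w0w : IsStep 2 W₀ W τ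
  w0u2 : IsStep 3 W₀ U₂ r
  u2u : IsStep 2 U₂ U τ
  norm : ∀ u ∈ U, ∀ w ∈ W₀, u * w * u⁻¹ ∈ W₀
  inf : ∀ g, g ∈ W → g ∈ U₂ → g ∈ W₀
  cov : ∀ u ∈ U, ∃ k < 3, (r ^ k)⁻¹ * u ∈ W
  core : ∀ g ∈ U, (∀ u ∈ U, u * g * u⁻¹ ∈ W) → g ∈ W₀
  inv : τ⁻¹ * r * τ * r ∈ W₀

end SB
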