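import Pool.Agent.Helper21.CT.B5
import Pool.Agent.Helper21.CT.B6

/-!
# CT-F: the two generic theorems
-/

namespace SB

universe u

variable {Γ : Type u} [Group Γ]

theorem fam_vanish {D : Sys Γ} {P : Subgroup Γ → Prop} {v : Γ → ℂ} (h : Fam D P v) :
    v 1 = 0 ∧ ∀ s ∈ D.S, v s = 0 := by
  obtain ⟨m, n, U, χ, χ', -, -, -, h3, h4⟩ := h
  constructor
  · rw [h4]
    refine Finset.sum_eq_zero fun i _ => ?_
    have : Ind (U i) (ext (U i) (χ i)) 1 = Ind (U i) (ext (U i) (χ' i)) 1 := by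
      unfold Ind
      refine finsum_congr fun q => ?_
      have e : q.out⁻¹ * 1 * q.out = 1 := by group
      rw [e, ext_mem _ (U i).one_mem, ext_mem _ (U i).one_mem]
      have h1 : (⟨1, (U i).one_mem⟩ : U i) = 1 := rfl
      rw [h1, map_one, map_one]
    rw [this, sub_self, mul_zero]
  · intro s hs
    rw [h4]
    refine Finset.sum_eq_zero fun i _ => ?_
    have : Ind (U i) (ext (U i) (χ i)) s = Ind (U i) (ext (U i) (χ' i)) s := by
      unfold Ind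
      refine finsum_congr fun q => ?_
      have hsq : q.out⁻¹ * s * q.out ∈ D.S := by
        have := D.conj s hs q.out⁻¹
        rwa [inv_inv] at this
      by_cases hU : q.out⁻¹ * s * q.out ∈ U i
      · rw [ext_mem _ hU, ext_mem _ hU, h3 i _ hU hsq]
      · rw [ext_not_mem _ hU, ext_not_mem _ hU]
    rw [this, sub_self, mul_zero]

/-- Removal of the combination of `1` and `θ`. -/
theorem remove_theta {D : Sys Γ} {P : Subgroup Γ → Prop} (hSne : D.S.Nonempty) (θ : Γ →* ℂˣ)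
    (hθS : ∀ s ∈ D.S, θ s = -1) {v : Γ → ℂ} {a b : ℤ} {N : ℕ}
    (h : Fam D P (fun g => (N : ℂ) * v g - a - b * (θ g : ℂ))) (h1 : v 1 = 0) (hS : ∀ s ∈ D.S, v s = 0) :
    Fam D P (fun g => (N : ℂ) * v g) := by
  obtain ⟨s, hs⟩ := hSne
  obtain ⟨e1, e2⟩ := fam_vanish h
  have e2 := e2 s hs
  simp only [h1, hS s hs, hθS s hs, map_one, mul_zero, Units.val_one, Units.val_neg] at e1 e2
  have ha : (a : ℂ) = 0 := by linear_combination (-1 / 2 : ℂ) * e1 + (-1 / 2 : ℂ) * e2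
  have hb : (b : ℂ) = 0 := by linear_combination (-1 / 2 : ℂ) * e1 + (1 / 2 : ℂ) * e2
  refine fam_congr h fun g => ?_
  rw [ha, hb]
  ring

theorem ct_rat (D : Sys Γ) (hup : ∀ M ∈ D.N, ∀ M' : Subgroup Γ, M'.Normal → M ≤ M' → M' ∈ D.N)
    (hnt : NtU D)
    (θ : Γ →* ℂˣ) {Mθ : Subgroup Γ} (hMθ : Mθ ∈ D.N) (hθ : ∀ g ∈ Mθ, θ g = 1) (hθS : ∀ s ∈ D.S, θ s = -1)
    (hone : ∀ s ∈ D.S, ∀ s' ∈ D.S, ∃ g, s' = g * s * g⁻¹) (hSne : D.S.Nonempty)
    {m : ℕ} (n : Fin m → ℤ) (U : Fin m → Subgroup Γ) (χ : ∀ i, U i →* ℂˣ) (hT : ∀ i, Tower D.S (U i))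
    (hχ : ∀ i, OpC D (U i) (χ i)) {v : Γ → ℂ} (hv : ∀ g, v g = ∑ i, (n i : ℂ) * Ind (U i) (ext (U i) (χ i)) g)
    (h1 : v 1 = 0) (hS : ∀ s ∈ D.S, v s = 0) :
    ∃ N : ℕ, 0 < N ∧ Fam D (Tower D.S) (fun g => (N : ℂ) * v g) := by
  have hrq : RQ D (fun g => (θ g : ℂ)) v := by
    have e : v = fun g => ∑ i, (n i : ℂ) * Ind (U i) (ext (U i) (χ i)) g := funext hv
    rw [e]
    refine rq_sum _ _ _ fun i => ?_
    obtain ⟨M, hM, hMU, -⟩ := hχ i
    exact tower_rat D hup hnt θ hMθ hθ hθS hone (hT i) hM hMU (lin_ext (hχ i))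
  obtain ⟨N, a, b, hN, hf⟩ := hrq
  exact ⟨N, hN, remove_theta hSne θ hθS hf h1 hS⟩

theorem ct_bal (D : Sys Γ) (hup : ∀ M ∈ D.N, ∀ M' : Subgroup Γ, M'.Normal → M ≤ M' → M' ∈ D.N)
    (hnt : NtU D)
    (θ : Γ →* ℂˣ) {Mθ : Subgroup Γ} (hMθ : Mθ ∈ D.N) (hθ : ∀ g ∈ Mθ, θ g = 1) (hθS : ∀ s ∈ D.S, θ s = -1)
    (hSne : D.S.Nonempty)
    {m : ℕ} (n : Fin m → ℤ) (U : Fin m → Subgroup Γ) (φ : Fin m → Γ → ℂ) (hb : ∀ i, Bal D (U i) (φ i))
    (hSU : ∀ i, D.S ⊆ U i) (hc : ∀ i, ∀ s ∈ D.S, ∀ s' ∈ D.S, φ i s = φ i s')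
    {v : Γ → ℂ} (hv : ∀ g, v g = ∑ i, (n i : ℂ) * Ind (U i) (φ i) g)
    (h1 : v 1 = 0) (hS : ∀ s ∈ D.S, v s = 0) :
    Fam D (Tower D.S) v := by
  have key : ∀ i, ∃ a b : ℤ, Fam D (Tower D.S) (fun g => Ind (U i) (φ i) g - a - b * (θ g : ℂ)) := by
    intro i
    obtain ⟨⟨M, hM, hMU⟩, ψ, hψ, ht⟩ := bal_nf D hnt (hb i)
    have hfin := fin_of_N D hM hMU
    have hv := ht.vanish
    obtain ⟨a, b, hf⟩ := base_int D hup θ hMθ hθ hθS hM hMU (hSU i) hψ (fun s hs s' hs' => by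
      have e1 := hv.2 s hs
      have e2 := hv.2 s' hs'
      rw [Pi.sub_apply, sub_eq_zero] at e1 e2
      rw [← e1, ← e2, hc i s hs s' hs'])
    have hf2 := fam_of_towA D (Tower.base hfin (hSU i)) ht
    refine ⟨a, b, fam_congr (fam_add D _ hf2 hf) fun g => ?_⟩
    rw [Ind_sub_A2 hfin]
    ring
  choose a b hf using key
  have hsum : ∀ s : Finset (Fin m), Fam D (Tower D.S)
      (fun g => ∑ i ∈ s, (n i : ℂ) * (Ind (U i) (φ i) g - a i - b i * (θ g : ℂ))) := by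
    intro s
    classical
    induction s using Finset.induction_on with
    | empty => simpa using fam_zero D (Tower D.S)
    | insert i s hi ih =>
      simp only [Finset.sum_insert hi]
      exact fam_add D _ (fam_zmul D _ (n i) (hf i)) ih
  have h2 : Fam D (Tower D.S) (fun g => ((1 : ℕ) : ℂ) * v g - ((∑ i, n i * a i : ℤ) : ℂ) -
      ((∑ i, n i * b i : ℤ) : ℂ) * (θ g : ℂ)) := by
    refine fam_congr (hsum Finset.univ) fun g => ?_
    rw [hv g]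
    push_cast
    rw [one_mul, Finset.sum_mul, ← Finset.sum_sub_distrib, ← Finset.sum_sub_distrib]
    refine Finset.sum_congr rfl fun i _ => ?_
    ring
  refine fam_congr (remove_theta hSne θ hθS h2 h1 hS) fun g => ?_
  simp

end SB
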