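import Pool.Agent.Helper21.CT.F
import Pool.Agent.Helper21.CT.Stmt
import Pool.Agent.Helper21.SB.Trans

/-!
# CT-G: from the final definitions to the generic theorems, and the absolute Galois group
-/

namespace SB

universe u

section
variable {Γ : Type u} [Group Γ]

theorem indRel_eq {p : ℕ} {W U : Subgroup Γ} {t : Γ} (h : IsStep p W U t) {φ : Γ → ℂ}
    (hφ : Cls W φ) : IndRel W U φ = ∑ k ∈ Finset.range p, cj (t ^ k) φ := by
  funext g
  rw [sum_cj_A1]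
  unfold IndRel
  let e : Fin p → U ⧸ W.subgroupOf U := fun k => QuotientGroup.mk ⟨t ^ (k : ℕ), U.pow_mem h.mem k⟩
  have hbij : Function.Bijective e := by
    constructor
    · intro j k hjk
      have h1 := QuotientGroup.eq.1 hjk
      rw [Subgroup.mem_subgroupOf] at h1
      exact Fin.ext (h.uniq_A1 j.2 k.2 h1)
    · intro q
      obtain ⟨u, rfl⟩ := QuotientGroup.mk_surjective q
      obtain ⟨k, hk, hkW⟩ := h.cover u u.2
      refine ⟨⟨k, hk⟩, QuotientGroup.eq.2 ?_⟩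
      rw [Subgroup.mem_subgroupOf]
      exact hkW
  rw [← finsum_comp_equiv (Equiv.ofBijective e hbij), finsum_eq_sum_of_fintype, Finset.sum_range]
  refine Finset.sum_congr rfl fun k _ => ?_
  refine cls_coset_A1 hφ ?_ g
  have h1 : (QuotientGroup.mk ⟨t ^ (k : ℕ), U.pow_mem h.mem k⟩ : U ⧸ W.subgroupOf U) =
      QuotientGroup.mk (e k).out := (QuotientGroup.out_eq' (e k)).symm
  have h2 := QuotientGroup.eq.1 h1
  rw [Subgroup.mem_subgroupOf] at h2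
  exact h2

theorem bal_of_balanced (D : Sys Γ) {M N : Subgroup Γ} (hM : M ∈ D.N) (hMN : M ≤ N) {U : Subgroup Γ} {φ : Γ → ℂ}
    (h : Balanced D.S N U φ) : Bal D U φ ∧ Cls U φ := by
  induction h with
  | @char U χ hN hχ =>
    exact ⟨Bal.char χ ⟨M, hM, hMN.trans hN, fun g hg hgM => hχ g hg (hMN hgM)⟩, cls_ext U χ⟩
  | @step W U φ _ hst hdiv ih =>
    obtain ⟨hb, hc⟩ := ih
    obtain ⟨t, ht⟩ := exists_isStep hst.1 hst.2.1 hst.2.2
    have e := indRel_eq ht hc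
    rw [e] at hdiv ⊢
    exact ⟨Bal.step hst.2.2 t ht hb hdiv, cls_step hst.2.2.pos ht hc⟩

theorem tower_of_cyc {S : Set Γ} {U : Subgroup Γ} (h : CycTower S U) (hU : U.FiniteIndex) : Tower S U := by
  induction h with
  | base hS => exact Tower.base hU hS
  | step _ hst ih =>
    have := hU
    exact Tower.step (ih (Subgroup.finiteIndex_of_le hst.1)) hst.1 hst.2.1 hst.2.2

theorem cyc_of_tower {S : Set Γ} {U : Subgroup Γ} (h : Tower S U) : CycTower S U := by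
  induction h with
  | base _ hS => exact CycTower.base hS
  | step _ hle hn hp ih => exact CycTower.step ih ⟨hle, hn, hp⟩

end

/-- An open subgroup contains a member of `NAll`. -/
theorem open_nAll {N : Subgroup GQ} (hN : IsOpen (N : Set GQ)) : ∃ M ∈ NAll, M ≤ N := by
  have h1 : (N : Set GQ) ∈ nhds (1 : GQ) := hN.mem_nhds N.one_mem
  obtain ⟨K, hK, hn, hsub⟩ := (krullTopology_mem_nhds_one_iff_of_normal ℚ Qb _).1 h1
  exact ⟨K.fixingSubgroup, ⟨K, hK, (normal_conv K).2 hn, rfl⟩, fun g hg => hsub hg⟩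

theorem top_nAll : (⊤ : Subgroup GQ) ∈ NAll := by
  obtain ⟨M, hM, -⟩ := open_nAll (N := ⊤) isOpen_univ
  exact nAll_up hM inferInstance le_top

theorem cc_nonempty : CC.Nonempty := by
  let φ : Qb →+* ℂ := (IsAlgClosed.lift (R := ℚ) (S := Qb) (M := ℂ)).toRingHom
  obtain ⟨u, hu⟩ := emb_L5 φ ((starRingEnd ℂ).comp φ)
  exact ⟨u, φ, fun x => hu x⟩

theorem ntU_all : NtU sysAll := by
  intro M hM U hU κ hκ hκU hinv
  obtain ⟨M', hM', hle, -, -, x, hx1, hx2⟩ := gNtAll M hM U hU κ hκ hκU hinv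
  exact ⟨M', hM', hle, x, hx1, hx2⟩

theorem up_all : ∀ M ∈ (sysAll).N, ∀ M' : Subgroup GQ, M'.Normal → M ≤ M' → M' ∈ (sysAll).N :=
  fun _ hM _ h' hle => nAll_up hM h' hle

theorem exists_theta : ∃ (θ : GQ →* ℂˣ) (Mθ : Subgroup GQ), Mθ ∈ NAll ∧ (∀ g ∈ Mθ, θ g = 1) ∧
    ∀ s ∈ CC, θ s = -1 := by
  obtain ⟨M', hM', -, x, hx1, hx2⟩ := ntU_all ⊤ top_nAll ⊤ le_rfl CC subset_rfl (fun s _ => Subgroup.mem_top s)
    (fun s hs u _ => cc_conj hs u)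
  refine ⟨(qc x).comp (Subgroup.topEquiv.symm : GQ ≃* (⊤ : Subgroup GQ)).toMonoidHom, M', hM', fun g hg => ?_,
    fun s hs => ?_⟩
  · have h2 := hx1 g (Subgroup.mem_top g) hg
    rw [Units.ext_iff]
    change ((qc x ⟨g, Subgroup.mem_top g⟩ : ℂˣ) : ℂ) = 1
    simp [qc, h2]
  · have h2 := (hx2 s (Subgroup.mem_top s) hs).2 hs
    rw [Units.ext_iff]
    change ((qc x ⟨s, Subgroup.mem_top s⟩ : ℂˣ) : ℂ) = _
    simp [qc, h2]

theorem sigSpan_of_fam {v : GQ → ℂ} (h : Fam sysAll (Tower CC) v) :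
    ∃ K : IntermediateField ℚ Qb, FinGal ℚ K ∧ SigSpan (Γ := GQ) CC K.fixingSubgroup v := by
  obtain ⟨K, hfd, hn, hK⟩ := top_nAll
  obtain ⟨K', -, hfd', hn', -, m, n, U, χ, χ', h1, h2, h3, h4, h5⟩ :=
    famQ_of_fam sysAll rfl (fun M hM => hM) (K := K) (by rw [← hK]; exact top_nAll) h
  exact ⟨K', ⟨hfd', isGalois_iff.2 ⟨inferInstance, hn'⟩⟩, m, n, U, χ, χ',
    fun i => ⟨cyc_of_tower (h1 i), h2 i, fun g hg hN => (h3 i ⟨g, hg⟩ hN).1,
      fun g hg hN => (h3 i ⟨g, hg⟩ hN).2, fun c hc hS => h4 i ⟨c, hc⟩ hS⟩, h5⟩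

theorem ct_one (v : GQ → ℂ) (N : Subgroup GQ) (hN : IsOpen (N : Set GQ)) (h1 : v 1 = 0) (hc : ∀ c ∈ CC, v c = 0)
    (h : MonComb N (CycTower CC) v) :
    ∃ (k : ℕ) (K : IntermediateField ℚ Qb), 0 < k ∧ FinGal ℚ K ∧
      SigSpan (Γ := GQ) CC K.fixingSubgroup (fun g => (k : ℂ) * v g) := by
  obtain ⟨M, hM, hMN⟩ := open_nAll hN
  obtain ⟨m, n, U, χ, hU, hv⟩ := h
  obtain ⟨θ, Mθ, hMθ, hθ, hθS⟩ := exists_theta
  obtain ⟨k, hk, hf⟩ := ct_rat sysAll up_all ntU_all θ hMθ hθ hθS (fun s hs s' hs' => cc_one hs hs') cc_nonempty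
    n U χ (fun i => tower_of_cyc (hU i).1 (fin_of_N sysAll hM (hMN.trans (hU i).2.1)))
    (fun i => ⟨M, hM, hMN.trans (hU i).2.1, fun g hg hgM => (hU i).2.2 g hg (hMN hgM)⟩) hv h1 hc
  obtain ⟨K, hK, hs⟩ := sigSpan_of_fam hf
  exact ⟨k, K, hk, hK, hs⟩

theorem ct_two (v : GQ → ℂ) (N : Subgroup GQ) (hN : IsOpen (N : Set GQ)) (h1 : v 1 = 0) (hc : ∀ c ∈ CC, v c = 0)
    (h : GoodComb CC N v) :
    ∃ K : IntermediateField ℚ Qb, FinGal ℚ K ∧ SigSpan (Γ := GQ) CC K.fixingSubgroup v := by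
  obtain ⟨M, hM, hMN⟩ := open_nAll hN
  obtain ⟨m, n, U, φ, hU, hv⟩ := h
  obtain ⟨θ, Mθ, hMθ, hθ, hθS⟩ := exists_theta
  have key : ∀ i, ∃ (U₀ : Subgroup GQ) (φ₀ : GQ → ℂ), (sysAll).S ⊆ U₀ ∧ Bal sysAll U₀ φ₀ ∧
      (∀ s ∈ (sysAll).S, ∀ s' ∈ (sysAll).S, φ₀ s = φ₀ s') ∧ ∀ g, Ind U₀ φ₀ g = Ind (U i) (φ i) g := by
    intro i
    rcases hU i with ⟨h2, h3, h4⟩ | ⟨h2, h3, χ, h4, h5⟩
    · exact ⟨U i, φ i, h3, (bal_of_balanced sysAll hM hMN h2).1, h4, fun _ => rfl⟩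
    · rw [h5]
      have hop : OpC sysAll (U i) χ := ⟨M, hM, hMN.trans h3, fun g hg hgM => h4 g hg (hMN hgM)⟩
      rcases h2 with h2 | ⟨h2, h6⟩
      · refine ⟨U i, ext (U i) χ, fun s _ => ?_, Bal.char _ hop, fun s hs s' hs' => ?_, fun g => rfl⟩
        · rw [h2]; exact Subgroup.mem_top s
        · obtain ⟨g, rfl⟩ := cc_one hs hs'
          have hg : g⁻¹ ∈ U i := by rw [h2]; exact Subgroup.mem_top _
          have := (cls_ext (U i) χ).2 _ hg s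
          rw [inv_inv] at this
          exact this.symm
      · obtain ⟨U₀, φ₀, a1, -, a3, a4, a5⟩ := tower_complex sysAll
          (tower_of_cyc h2 (fin_of_N sysAll hM (hMN.trans h3))) h6 χ hop
        exact ⟨U₀, φ₀, a1, a3, fun s hs s' hs' => by rw [a4 s hs, a4 s' hs'], a5⟩
  choose U₀ φ₀ b1 b2 b3 b4 using key
  refine sigSpan_of_fam (ct_bal sysAll up_all ntU_all θ hMθ hθ hθS cc_nonempty n U₀ φ₀ b2 b1 b3 ?_ h1 hc)
  intro g
  rw [hv g]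
  exact Finset.sum_congr rfl fun i _ => by rw [b4 i g]

end SB
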