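import Pool.Agent.Helper21.SB.Trans

namespace SB

namespace K9aux

open ComplexConjugate

variable {c g : GQ} {φ : Qb →+* ℂ}

theorem fix_iff (hφ : ∀ x, φ (c x) = (starRingEnd ℂ) (φ x)) (x : Qb) : c x = x ↔ ((φ x).im = 0) := by
  rw [← Complex.conj_eq_iff_im, ← hφ x]
  exact ⟨fun h => by rw [h], fun h => φ.injective h⟩

theorem cc (hφ : ∀ x, φ (c x) = (starRingEnd ℂ) (φ x)) (x : Qb) : c (c x) = x := by
  apply φ.injective
  rw [hφ, hφ, Complex.conj_conj]

theorem pos_of_pos (hφ : ∀ x, φ (c x) = (starRingEnd ℂ) (φ x)) (hg : ∀ x, g (c x) = c (g x)) {x : Qb}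
    (hx : c x = x) (hpos : 0 < (φ x).re) : 0 < (φ (g x)).re := by
  obtain ⟨y, hy⟩ := IsAlgClosed.exists_pow_nat_eq x (n := 2) (by norm_num)
  have hxim : (φ x).im = 0 := (fix_iff hφ x).1 hx
  have h1 : φ y ^ 2 = φ x := by rw [← map_pow, hy]
  have hre : (φ y).re ^ 2 - (φ y).im ^ 2 = (φ x).re := by
    have := congrArg Complex.re h1
    simp only [pow_two, Complex.mul_re] at this ⊢
    exact this
  have him : 2 * (φ y).re * (φ y).im = 0 := by
    have := congrArg Complex.im h1
    rw [hxim] at this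
    simp only [pow_two, Complex.mul_im] at this
    linarith
  have hyim : (φ y).im = 0 := by
    by_contra hne
    have : (φ y).re = 0 := by
      rcases mul_eq_zero.1 him with h | h
      · linarith
      · exact absurd h hne
    rw [this] at hre
    have : 0 ≤ (φ y).im ^ 2 := sq_nonneg _
    nlinarith
  have hcy : c y = y := (fix_iff hφ y).2 hyim
  have hcgy : c (g y) = g y := by rw [← hg, hcy]
  have hgyim : (φ (g y)).im = 0 := (fix_iff hφ _).1 hcgy
  have hgy : g y ≠ 0 := by
    intro h0
    have hy0 : y = 0 := by simpa using h0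
    rw [← hy, hy0] at hpos
    simp at hpos
  have hne : (φ (g y)).re ≠ 0 := by
    intro h0
    apply hgy
    apply φ.injective
    rw [map_zero]
    exact Complex.ext h0 hgyim
  have h2 : φ (g x) = φ (g y) ^ 2 := by rw [← map_pow, ← map_pow, hy]
  rw [h2]
  simp only [pow_two, Complex.mul_re]
  rw [hgyim]
  have : 0 < (φ (g y)).re * (φ (g y)).re := mul_self_pos.2 hne
  linarith

theorem fix_of_fix (hφ : ∀ x, φ (c x) = (starRingEnd ℂ) (φ x)) (hg : ∀ x, g (c x) = c (g x)) {x : Qb}
    (hx : c x = x) : g x = x := by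
  have hcgx : c (g x) = g x := by rw [← hg, hx]
  have hxim : (φ x).im = 0 := (fix_iff hφ x).1 hx
  have hgxim : (φ (g x)).im = 0 := (fix_iff hφ _).1 hcgx
  apply φ.injective
  refine Complex.ext ?_ (by rw [hxim, hgxim])
  by_contra hne
  rcases lt_or_gt_of_ne hne with hlt | hlt
  · obtain ⟨q, hq1, hq2⟩ := exists_rat_btwn hlt
    have h1 : c (x - algebraMap ℚ Qb q) = x - algebraMap ℚ Qb q := by
      rw [map_sub, hx, AlgEquiv.commutes]
    have hq : φ (algebraMap ℚ Qb q) = (q : ℂ) := by simp
    have h2 : 0 < (φ (x - algebraMap ℚ Qb q)).re := by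
      rw [map_sub, hq, Complex.sub_re, Complex.ratCast_re]
      linarith
    have h3 := pos_of_pos hφ hg h1 h2
    rw [map_sub, AlgEquiv.commutes, map_sub, hq, Complex.sub_re, Complex.ratCast_re] at h3
    linarith
  · obtain ⟨q, hq1, hq2⟩ := exists_rat_btwn hlt
    have h1 : c (algebraMap ℚ Qb q - x) = algebraMap ℚ Qb q - x := by
      rw [map_sub, hx, AlgEquiv.commutes]
    have hq : φ (algebraMap ℚ Qb q) = (q : ℂ) := by simp
    have h2 : 0 < (φ (algebraMap ℚ Qb q - x)).re := by
      rw [map_sub, hq, Complex.sub_re, Complex.ratCast_re]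
      linarith
    have h3 := pos_of_pos hφ hg h1 h2
    rw [map_sub, AlgEquiv.commutes, map_sub, hq, Complex.sub_re, Complex.ratCast_re] at h3
    linarith

end K9aux

/-- CT3-K9. The centralizer of a complex conjugation. -/
theorem cc_cent {c g : GQ} (hc : c ∈ CC) (h : g * c * g⁻¹ = c) : g = 1 ∨ g = c := by
  obtain ⟨φ, hφ⟩ := hc
  have hg : ∀ x, g (c x) = c (g x) := by
    intro x
    have h1 : g * c = c * g := mul_inv_eq_iff_eq_mul.1 h
    exact DFunLike.congr_fun h1 x
  obtain ⟨ι, hι⟩ := IsAlgClosed.exists_pow_nat_eq (-1 : Qb) (n := 2) (by norm_num)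
  have hι0 : ι ≠ 0 := by
    rintro rfl
    norm_num at hι
  have hcι : c ι = -ι := by
    have h1 : φ ι ^ 2 = -1 := by rw [← map_pow, hι, map_neg, map_one]
    have h2 : (φ ι - Complex.I) * (φ ι + Complex.I) = 0 := by
      have := Complex.I_sq
      linear_combination h1 - this
    apply φ.injective
    rw [hφ, map_neg]
    rcases mul_eq_zero.1 h2 with h3 | h3
    · have h4 : φ ι = Complex.I := by linear_combination h3
      rw [h4, Complex.conj_I]
    · have h4 : φ ι = -Complex.I := by linear_combination h3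
      rw [h4, map_neg, Complex.conj_I]
  have hgι : g ι = ι ∨ g ι = -ι := by
    have h1 : (g ι - ι) * (g ι + ι) = 0 := by
      have h2 : g ι ^ 2 = -1 := by rw [← map_pow, hι, map_neg, map_one]
      linear_combination h2 - hι
    rcases mul_eq_zero.1 h1 with h3 | h3
    · left
      linear_combination h3
    · right
      linear_combination h3
  have hcc := K9aux.cc hφ
  have key : ∀ x : Qb, ∃ a b : Qb, c a = a ∧ c b = b ∧ x = a + ι * b := by
    intro x
    refine ⟨(x + c x) / 2, (x - c x) / (2 * ι), ?_, ?_, ?_⟩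
    · rw [map_div₀, map_add, hcc x, map_ofNat, add_comm]
    · rw [map_div₀, map_sub, hcc x, map_mul, map_ofNat, hcι]
      field_simp
      ring
    · field_simp
      ring
  have two : ∀ a : Qb, c a = a → g a = a := fun a ha => K9aux.fix_of_fix hφ hg ha
  rcases hgι with h1 | h1
  · left
    ext x
    obtain ⟨a, b, ha, hb, rfl⟩ := key x
    rw [map_add, map_mul, two a ha, two b hb, h1]
    rfl
  · right
    ext x
    obtain ⟨a, b, ha, hb, rfl⟩ := key x
    rw [map_add, map_mul, two a ha, two b hb, h1, map_add, map_mul, ha, hb, hcι]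

end SB
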