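import Pool.Agent.Helper21.CT.K8
import Pool.Agent.Helper21.CT.K9

/-!
# CT3-K10: the absolute Galois group
-/

namespace SB

theorem cent_all : ∀ s ∈ (sysAll).S, ∀ g, g * s * g⁻¹ = s → g = 1 ∨ g = s := fun _ hs _ h => cc_cent hs h

theorem sigTower_of_fam {v : GQ → ℂ} (h : Fam sysAll (Tower3 CC) v) :
    ∃ K : IntermediateField ℚ Qb, FinGal ℚ K ∧ SigTower (Γ := GQ) CC K.fixingSubgroup v := by
  obtain ⟨K, hfd, hn, hK⟩ := top_nAll
  obtain ⟨K', -, hfd', hn', -, m, n, U, χ, χ', h1, h2, h3, h4, h5⟩ :=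
    famQ_of_fam sysAll rfl (fun M hM => hM) (K := K) (by rw [← hK]; exact top_nAll) h
  exact ⟨K', ⟨hfd', isGalois_iff.2 ⟨inferInstance, hn'⟩⟩, m, n, U, χ, χ',
    fun i => ⟨ttower_of_tower3 (h1 i), h2 i, fun g hg hN => (h3 i ⟨g, hg⟩ hN).1,
      fun g hg hN => (h3 i ⟨g, hg⟩ hN).2, fun c hc hS => h4 i ⟨c, hc⟩ hS⟩, h5⟩

theorem ct3_one (v : GQ → ℂ) (N : Subgroup GQ) (hN : IsOpen (N : Set GQ)) (h1 : v 1 = 0) (hc : ∀ c ∈ CC, v c = 0)
    (h : ∃ k' : ℕ, 0 < k' ∧ MonComb N (TTower CC) (fun g => (k' : ℂ) * v g)) :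
    ∃ (k : ℕ) (K : IntermediateField ℚ Qb), 0 < k ∧ FinGal ℚ K ∧
      SigTower (Γ := GQ) CC K.fixingSubgroup (fun g => (k : ℂ) * v g) := by
  obtain ⟨M, hM, hMN⟩ := open_nAll hN
  obtain ⟨k', hk', m, n, U, χ, hU, hv⟩ := h
  obtain ⟨θ, Mθ, hMθ, hθ, hθS⟩ := exists_theta
  have hrq : RQ3 sysAll (fun g => (θ g : ℂ)) (fun g => (k' : ℂ) * v g) := by
    have e : (fun g => (k' : ℂ) * v g) = fun g => ∑ i, (n i : ℂ) * Ind (U i) (ext (U i) (χ i)) g := funext hv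
    rw [e]
    refine rq3_sum _ _ _ fun i => ?_
    have hop : OpC sysAll (U i) (χ i) :=
      ⟨M, hM, hMN.trans (hU i).2.1, fun g hg hgM => (hU i).2.2 g hg (hMN hgM)⟩
    exact tower3_rat sysAll up_all ntU_all cent_all θ hMθ hθ hθS (fun s hs s' hs' => cc_one hs hs')
      (tower3_of_ttower (hU i).1 (fin_of_N sysAll hM (hMN.trans (hU i).2.1))) hM (hMN.trans (hU i).2.1)
      (lin_ext hop)
  obtain ⟨k, a, b, hk, hf⟩ := hrq
  have hf2 := remove_theta cc_nonempty θ hθS hf (by simp only [h1, mul_zero]) (fun s hs => by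
    simp only [hc s hs, mul_zero])
  obtain ⟨K, hK, hs⟩ := sigTower_of_fam hf2
  refine ⟨k * k', K, Nat.mul_pos hk hk', hK, ?_⟩
  obtain ⟨m', n', U', χ', χ'', a1, a2⟩ := hs
  refine ⟨m', n', U', χ', χ'', a1, fun g => ?_⟩
  rw [← a2 g]
  push_cast
  ring

theorem ct3_two (v : GQ → ℂ) (N : Subgroup GQ) (hN : IsOpen (N : Set GQ)) (h1 : v 1 = 0) (hc : ∀ c ∈ CC, v c = 0)
    (h : GoodTower CC N v) :
    ∃ K : IntermediateField ℚ Qb, FinGal ℚ K ∧ SigTower (Γ := GQ) CC K.fixingSubgroup v := by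
  obtain ⟨M, hM, hMN⟩ := open_nAll hN
  obtain ⟨m, n, U, φ, hU, hv⟩ := h
  obtain ⟨θ, Mθ, hMθ, hθ, hθS⟩ := exists_theta
  choose a b hf using fun i => good_nf sysAll up_all ntU_all cent_all θ hMθ hθ hθS hM hMN (hU i)
  have hsum : ∀ s : Finset (Fin m), Fam sysAll (Tower3 CC)
      (fun g => ∑ i ∈ s, (n i : ℂ) * (Ind (U i) (φ i) g - a i - b i * (θ g : ℂ))) := by
    intro s
    classical
    induction s using Finset.induction_on with
    | empty => simpa using fam_zero sysAll (Tower3 CC)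
    | insert i s hi ih =>
      simp only [Finset.sum_insert hi]
      exact fam_add sysAll _ (fam_zmul sysAll _ (n i) (hf i)) ih
  have h2 : Fam sysAll (Tower3 CC) (fun g => ((1 : ℕ) : ℂ) * v g - ((∑ i, n i * a i : ℤ) : ℂ) -
      ((∑ i, n i * b i : ℤ) : ℂ) * (θ g : ℂ)) := by
    refine fam_congr (hsum Finset.univ) fun g => ?_
    rw [hv g]
    push_cast
    rw [one_mul, Finset.sum_mul, ← Finset.sum_sub_distrib, ← Finset.sum_sub_distrib]
    refine Finset.sum_congr rfl fun i _ => ?_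
    ring
  refine sigTower_of_fam (fam_congr (remove_theta cc_nonempty θ hθS h2 h1 hc) fun g => ?_)
  simp

end SB
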