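import Pool.Agent.Helper21.CT.K4

/-!
# CT3-K5: the cubic step
-/

namespace SB

universe u

section
variable {Γ : Type u} [Group Γ]

theorem cls_cos {p : ℕ} {W U : Subgroup Γ} {t : Γ} (h : IsCos p W U t)
    {φ : Γ → ℂ} (hφ : Cls W φ) : Cls U (∑ k ∈ Finset.range p, cj (t ^ k) φ) := by
  refine ⟨fun g hg => ?_, fun u hu g => ?_⟩
  · rw [sum_cj_A1]
    refine Finset.sum_eq_zero fun k _ => hφ.1 _ fun hk => hg ?_
    have ht : t ^ k ∈ U := U.pow_mem h.mem k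
    have h1 : g = t ^ k * ((t ^ k)⁻¹ * g * t ^ k) * (t ^ k)⁻¹ := by group
    rw [h1]
    exact U.mul_mem (U.mul_mem ht (h.le hk)) (U.inv_mem ht)
  · rw [sum_cj_A1, sum_cj_A1]
    have hcov : ∀ k : ℕ, ∃ m < p, (t ^ m)⁻¹ * (u * t ^ k) ∈ W := fun k =>
      h.cover _ (U.mul_mem hu (U.pow_mem h.mem k))
    choose σ hσ1 hσ2 using hcov
    have hinj : ∀ j ∈ Finset.range p, ∀ k ∈ Finset.range p, σ j = σ k → j = k := by
      intro j hj k hk hjk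
      refine h.uniq (Finset.mem_range.1 hj) (Finset.mem_range.1 hk) ?_
      have h1 := W.mul_mem (W.inv_mem (hσ2 j)) (hσ2 k)
      rw [hjk] at h1
      have h2 : ((t ^ σ k)⁻¹ * (u * t ^ j))⁻¹ * ((t ^ σ k)⁻¹ * (u * t ^ k)) =
          (t ^ j)⁻¹ * t ^ k := by group
      rwa [h2] at h1
    have himg : (Finset.range p).image σ = Finset.range p := by
      refine Finset.eq_of_subset_of_card_le ?_ ?_
      · intro x hx
        obtain ⟨k, _, rfl⟩ := Finset.mem_image.1 hx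
        exact Finset.mem_range.2 (hσ1 k)
      · rw [Finset.card_image_of_injOn (fun j hj k hk hjk => hinj j hj k hk hjk)]
    calc ∑ k ∈ Finset.range p, φ ((t ^ k)⁻¹ * (u⁻¹ * g * u) * t ^ k)
        = ∑ k ∈ Finset.range p, φ ((t ^ σ k)⁻¹ * g * t ^ σ k) := by
          refine Finset.sum_congr rfl fun k _ => ?_
          have h1 := cls_coset_A1 hφ (hσ2 k) g
          rw [← h1]
          congr 1
          group
      _ = ∑ m ∈ (Finset.range p).image σ, φ ((t ^ m)⁻¹ * g * t ^ m) := by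
          rw [Finset.sum_image hinj]
      _ = ∑ m ∈ Finset.range p, φ ((t ^ m)⁻¹ * g * t ^ m) := by rw [himg]

theorem Cubic.le_w0 {W U W₀ U₂ : Subgroup Γ} {r τ : Γ} (h : Cubic W U W₀ U₂ r τ) {M : Subgroup Γ} (hn : M.Normal)
    (hMW : M ≤ W) : M ≤ W₀ :=
  fun g hg => h.core g (h.le (hMW hg)) fun u _ => hMW (hn.conj_mem g hg u)

theorem Cubic.conj0 {W U W₀ U₂ : Subgroup Γ} {r τ : Γ} (h : Cubic W U W₀ U₂ r τ) {u : Γ} (hu : u ∈ U) {g : Γ}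
    (hg : g ∈ W₀) : u⁻¹ * g * u ∈ W₀ := by
  have := h.norm u⁻¹ (U.inv_mem hu) g hg
  rwa [inv_inv] at this

/-- An element outside `U₂` fixes exactly one coset. -/
theorem Cubic.fix_one {W U W₀ U₂ : Subgroup Γ} {r τ : Γ} (h : Cubic W U W₀ U₂ r τ) {g : Γ} (hg : g ∈ U)
    (hg2 : g ∉ U₂) : ∃ k < 3, (r ^ k)⁻¹ * g * r ^ k ∈ W ∧ ∀ l < 3, (r ^ l)⁻¹ * g * r ^ l ∈ W → l = k := by
  have hτ2 : τ ∉ U₂ := fun hτ => by
    have := h.u2u.inj 1 (by norm_num) (by rwa [pow_one])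
    exact one_ne_zero this
  have hτU : τ ∈ U := h.u2u.mem
  have hτW : τ ∈ W := h.w0w.mem
  have h2U : U₂ ≤ U := h.u2u.le
  have hout : ∀ x ∈ U, x ∉ U₂ → τ⁻¹ * x ∈ U₂ := by
    intro x hx hx2
    obtain ⟨j, hj, hj2⟩ := h.u2u.cover x hx
    interval_cases j
    · exact absurd (by simpa using hj2) hx2
    · simpa using hj2
  have hn2 : ∀ u ∈ U, ∀ x ∈ U₂, u⁻¹ * x * u ∈ U₂ := by
    intro u hu x hx
    have := h.u2u.norm u⁻¹ (U.inv_mem hu) x hx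
    rwa [inv_inv] at this
  obtain ⟨κ, hκ⟩ := g2_kappa (by norm_num : 0 < 3) h.w0u2
  have hrU2 : r ∈ U₂ := h.w0u2.mem
  -- conjugation by τ inverts
  have hinv : ∀ k : ℕ, κ ⟨τ⁻¹ * (r ^ k)⁻¹ * τ, hn2 τ hτU _ (U₂.inv_mem (U₂.pow_mem hrU2 k))⟩ =
      κ ⟨r, hrU2⟩ ^ k := by
    intro k
    have h1 : κ ⟨τ⁻¹ * r * τ, hn2 τ hτU _ hrU2⟩ = (κ ⟨r, hrU2⟩)⁻¹ := by
      rw [eq_inv_iff_mul_eq_one, ← map_mul]
      exact (hκ _ _).2 h.inv
    have h2 : (⟨τ⁻¹ * (r ^ k)⁻¹ * τ, hn2 τ hτU _ (U₂.inv_mem (U₂.pow_mem hrU2 k))⟩ : U₂) =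
        ((⟨τ⁻¹ * r * τ, hn2 τ hτU _ hrU2⟩ : U₂) ^ k)⁻¹ := by
      apply Subtype.ext
      rw [Subgroup.coe_inv, SubmonoidClass.coe_pow]
      change τ⁻¹ * (r ^ k)⁻¹ * τ = ((τ⁻¹ * r * τ) ^ k)⁻¹
      have h3 : (τ⁻¹ * r * τ) ^ k = τ⁻¹ * r ^ k * τ := by
        have := conj_pow (i := k) (a := τ⁻¹) (b := r)
        rwa [inv_inv] at this
      rw [h3]
      group
    rw [h2, map_inv, map_pow, h1, inv_pow, inv_inv]
  have hb := hout g hg hg2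
  have hiff : ∀ k : ℕ, (r ^ k)⁻¹ * g * r ^ k ∈ W ↔ κ ⟨r, hrU2⟩ ^ k * κ ⟨τ⁻¹ * g, hb⟩ * κ ⟨r, hrU2⟩ ^ k = 1 := by
    intro k
    have hrk : r ^ k ∈ U := h2U (U₂.pow_mem hrU2 k)
    have hx : (r ^ k)⁻¹ * g * r ^ k ∈ U := U.mul_mem (U.mul_mem (U.inv_mem hrk) hg) hrk
    have hx2 : (r ^ k)⁻¹ * g * r ^ k ∉ U₂ := by
      intro hh
      apply hg2
      have h1 := U₂.mul_mem (U₂.mul_mem (U₂.pow_mem hrU2 k) hh) (U₂.inv_mem (U₂.pow_mem hrU2 k))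
      have h2 : r ^ k * ((r ^ k)⁻¹ * g * r ^ k) * (r ^ k)⁻¹ = g := by group
      rwa [h2] at h1
    have hy := hout _ hx hx2
    have h4 : (r ^ k)⁻¹ * g * r ^ k ∈ W ↔ τ⁻¹ * ((r ^ k)⁻¹ * g * r ^ k) ∈ W₀ := by
      constructor
      · intro hh
        exact h.inf _ (W.mul_mem (W.inv_mem hτW) hh) hy
      · intro hh
        have := W.mul_mem hτW (h.w0w.le hh)
        rwa [mul_inv_cancel_left] at this
    rw [h4, ← hκ _ hy]
    have h5 : (⟨τ⁻¹ * ((r ^ k)⁻¹ * g * r ^ k), hy⟩ : U₂) =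
        ⟨τ⁻¹ * (r ^ k)⁻¹ * τ, hn2 τ hτU _ (U₂.inv_mem (U₂.pow_mem hrU2 k))⟩ * ⟨τ⁻¹ * g, hb⟩ *
          ⟨r, hrU2⟩ ^ k := by
      apply Subtype.ext
      rw [Subgroup.coe_mul, Subgroup.coe_mul, SubmonoidClass.coe_pow]
      change τ⁻¹ * ((r ^ k)⁻¹ * g * r ^ k) = τ⁻¹ * (r ^ k)⁻¹ * τ * (τ⁻¹ * g) * r ^ k
      group
    rw [h5, map_mul, map_mul, map_pow, hinv]
  have hr1 : Multiplicative.toAdd (κ ⟨r, hrU2⟩) ≠ 0 := by
    intro h0
    have h1 : κ ⟨r, hrU2⟩ = 1 := Multiplicative.toAdd.injective h0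
    have h2 := (hκ r hrU2).1 h1
    have := h.w0u2.inj 1 (by norm_num) (by rwa [pow_one])
    exact one_ne_zero this
  have hiff2 : ∀ k : ℕ, (r ^ k)⁻¹ * g * r ^ k ∈ W ↔
      (k : ZMod 3) * Multiplicative.toAdd (κ ⟨r, hrU2⟩) + Multiplicative.toAdd (κ ⟨τ⁻¹ * g, hb⟩) +
        (k : ZMod 3) * Multiplicative.toAdd (κ ⟨r, hrU2⟩) = 0 := by
    intro k
    rw [hiff k, ← Multiplicative.toAdd.injective.eq_iff, toAdd_mul, toAdd_mul, toAdd_pow, toAdd_one, nsmul_eq_mul]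
  have hdec : ∀ a b : ZMod 3, a ≠ 0 → ∃ k < (3 : ℕ), ((k : ZMod 3) * a + b + (k : ZMod 3) * a = 0 ∧
      ∀ l < (3 : ℕ), (l : ZMod 3) * a + b + (l : ZMod 3) * a = 0 → l = k) := by
    decide
  obtain ⟨k, hk, hk1, hk2⟩ := hdec _ (Multiplicative.toAdd (κ ⟨τ⁻¹ * g, hb⟩)) hr1
  exact ⟨k, hk, (hiff2 k).2 hk1, fun l hl hl2 => hk2 l hl ((hiff2 l).1 hl2)⟩

theorem sum3_single {f : ℕ → ℂ} {k : ℕ} (hk : k < 3) (h : ∀ l < 3, l ≠ k → f l = 0) :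
    ∑ l ∈ Finset.range 3, f l = f k := by
  refine Finset.sum_eq_single_of_mem k (Finset.mem_range.2 hk) fun l hl hlk => h l (Finset.mem_range.1 hl) hlk

theorem cubic_move (D : Sys Γ) (hnt : NtU D) (hcent : ∀ s ∈ D.S, ∀ g, g * s * g⁻¹ = s → g = 1 ∨ g = s)
    {M W U W₀ U₂ : Subgroup Γ} {r τ : Γ} (hM : M ∈ D.N) (h : Cubic W U W₀ U₂ r τ) (hMW : M ≤ W)
    (hU : Tower3 D.S U) (hW : Tower3 D.S W) {φ : Γ → ℂ} (hφ : Lin D W φ) (h1 : φ 1 = 0)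
    (h2 : ∀ s ∈ D.S, s ∈ W → s ∉ W₀ → φ s = 0)
    (h3 : ∀ s ∈ D.S, s ∈ W₀ → ∑ k ∈ Finset.range 3, φ ((r ^ k)⁻¹ * s * r ^ k) = 0) :
    Fam D (Tower3 D.S) (Ind W φ) := by
  have hM0 : M ≤ W₀ := h.le_w0 (D.normal M hM) hMW
  have hU2 : Tower3 D.S U₂ := tower3_step Nat.prime_two h.u2u hU
  have hcjS : ∀ (g s : Γ), s ∈ D.S → g⁻¹ * s * g ∈ D.S := by
    intro g s hsS
    have := D.conj s hsS g⁻¹
    rwa [inv_inv] at this
  have hrU : ∀ k : ℕ, r ^ k ∈ U := fun k => h.u2u.le (U₂.pow_mem h.w0u2.mem k)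
  obtain ⟨n, b, hbfin, e1, es, hb⟩ := lin_int D hφ
  have hn : (n : ℂ) = 0 := by rw [← e1, h1]
  have es' : ∀ s ∈ D.S, s ∈ W → φ s = -2 * b s := by
    intro s hs hsW
    rw [es s hs hsW, hn]
    ring
  obtain ⟨γ, hγfin, hγ1, hγ2, hγ3⟩ := cubic_orient h D.S D.conj hcent b hbfin
    (fun s hs hs0 u hu => hb s hs (h.w0w.le hs0) u hu) (fun s hs hs0 => by
      have h4 := h3 s hs hs0
      rw [Finset.sum_congr rfl fun k _ => es' _ (hcjS _ s hs) (h.w0w.le (h.conj0 (hrU k) hs0)),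
        ← Finset.mul_sum] at h4
      have h5 : (∑ k ∈ Finset.range 3, (b ((r ^ k)⁻¹ * s * r ^ k) : ℂ)) = 0 := by
        rcases mul_eq_zero.1 h4 with h5 | h5
        · norm_num at h5
        · exact h5
      exact_mod_cast h5)
  obtain ⟨φγ, hφγ, f1, fs⟩ := exists_lin_of_sign D hnt hM hM0 γ hγfin hγ1
  -- from W₀ to W
  obtain ⟨ψ', hψ', ht'⟩ := two_step D h.w0w hφγ
  have hv := ht'.vanish
  have hτc : ∀ s, s ∈ W₀ ↔ τ⁻¹ * s * τ ∈ W₀ := by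
    intro s
    have := g2_conj_mem h.w0w 1 s
    rw [pow_one] at this
    exact this.symm
  have hval : ∀ s, (∑ k ∈ Finset.range 2, cj (τ ^ k) φγ) s = φγ s + φγ (τ⁻¹ * s * τ) := by
    intro s
    rw [sum_cj_A1, Finset.sum_range_succ, Finset.sum_range_one]
    simp
  have hψ'1 : ψ' 1 = 0 := by
    have := hv.1
    rw [Pi.sub_apply, hval, mul_one, inv_mul_cancel, f1] at this
    linear_combination -this
  have hψ's : ∀ s ∈ D.S, s ∈ W → ψ' s = φ s := by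
    intro s hs hsW
    have h4 := hv.2 s hs
    rw [Pi.sub_apply, hval] at h4
    by_cases hs0 : s ∈ W₀
    · rw [fs s hs hs0, fs _ (hcjS τ s hs) ((hτc s).1 hs0)] at h4
      have h5 : (γ s : ℂ) + γ (τ⁻¹ * s * τ) = b s := by exact_mod_cast hγ2 s hs hs0
      rw [es' s hs hsW]
      linear_combination -h4 - 2 * h5
    · rw [(cls_lin hφγ).1 s hs0, (cls_lin hφγ).1 _ (fun hh => hs0 ((hτc s).2 hh))] at h4
      rw [h2 s hs hsW hs0]
      linear_combination -h4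
  have hfW : W.FiniteIndex := tower3_fin hW
  have hA : TowA D W (φ - ψ') := by
    refine lin_towA D (lin_sub hφ hψ') ?_ ?_
    · rw [Pi.sub_apply, h1, hψ'1, sub_zero]
    · intro s hs hsW
      rw [Pi.sub_apply, hψ's s hs hsW, sub_self]
  have hB : TowA D W (φ - ∑ k ∈ Finset.range 2, cj (τ ^ k) φγ) := by
    have := hA.sub ht'
    have e : φ - ψ' - ((∑ k ∈ Finset.range 2, cj (τ ^ k) φγ) - ψ') = φ - ∑ k ∈ Finset.range 2, cj (τ ^ k) φγ := by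
      abel
    rwa [e] at this
  have hB2 := fam3_of_towA D hW hB
  have hI1 : Ind W (∑ k ∈ Finset.range 2, cj (τ ^ k) φγ) = Ind W₀ φγ :=
    Ind_step (by norm_num) hfW h.w0w (cls_lin hφγ)
  -- from W₀ to U₂
  have hfU2 : U₂.FiniteIndex := tower3_fin hU2
  obtain ⟨ψ'', hψ'', ht''⟩ := odd_step D hnt hM Nat.prime_three (by norm_num) h.w0u2 hM0 hφγ (by
    intro s hs hsU2
    have hs0 : s ∈ W₀ := mem_of_odd Nat.prime_three (by norm_num) h.w0u2 (D.sq s hs) hsU2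
    refine ⟨0, ?_⟩
    rw [sum_cj_A1, sum_cj_A1]
    have h5 : ∀ k ∈ Finset.range 3, φγ ((r ^ k)⁻¹ * 1 * r ^ k) = 0 := fun k _ => by
      rw [mul_one, inv_mul_cancel, f1]
    rw [Finset.sum_eq_zero h5, Finset.sum_congr rfl fun k _ => fs _ (hcjS _ s hs) (h.conj0 (hrU k) hs0),
      ← Finset.mul_sum]
    have h6 : (∑ k ∈ Finset.range 3, (γ ((r ^ k)⁻¹ * s * r ^ k) : ℂ)) = 0 := by exact_mod_cast hγ3 s hs hs0
    rw [h6]
    simp)
  have hv2 := ht''.vanish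
  have hC : TowA D U₂ ψ'' := by
    refine lin_towA D hψ'' ?_ ?_
    · have := hv2.1
      rw [Pi.sub_apply, sum_cj_A1] at this
      have h5 : ∀ k ∈ Finset.range 3, φγ ((r ^ k)⁻¹ * 1 * r ^ k) = 0 := fun k _ => by
        rw [mul_one, inv_mul_cancel, f1]
      rw [Finset.sum_eq_zero h5] at this
      linear_combination -this
    · intro s hs hsU2
      have hs0 : s ∈ W₀ := mem_of_odd Nat.prime_three (by norm_num) h.w0u2 (D.sq s hs) hsU2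
      have := hv2.2 s hs
      rw [Pi.sub_apply, sum_cj_A1, Finset.sum_congr rfl fun k _ => fs _ (hcjS _ s hs) (h.conj0 (hrU k) hs0),
        ← Finset.mul_sum] at this
      have h6 : (∑ k ∈ Finset.range 3, (γ ((r ^ k)⁻¹ * s * r ^ k) : ℂ)) = 0 := by exact_mod_cast hγ3 s hs hs0
      rw [h6] at this
      linear_combination -this
  have hD : TowA D U₂ (∑ k ∈ Finset.range 3, cj (r ^ k) φγ) := by
    have := ht''.add hC
    rwa [sub_add_cancel] at this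
  have hD2 := fam3_of_towA D hU2 hD
  have hI2 : Ind U₂ (∑ k ∈ Finset.range 3, cj (r ^ k) φγ) = Ind W₀ φγ :=
    Ind_step (by norm_num) hfU2 h.w0u2 (cls_lin hφγ)
  rw [hI2] at hD2
  refine fam_congr (fam_add D _ hB2 hD2) fun g => ?_
  rw [Ind_sub_A2 hfW, hI1]
  ring

end

end SB
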