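import Pool.Agent.Helper21.CT.K5

/-!
# CT3-K6: the cubic step, conclusion
-/

namespace SB

universe u

section
variable {Γ : Type u} [Group Γ]

theorem cubic_step (D : Sys Γ) (hnt : NtU D) (hcent : ∀ s ∈ D.S, ∀ g, g * s * g⁻¹ = s → g = 1 ∨ g = s)
    {M W U W₀ U₂ : Subgroup Γ} {r τ : Γ} (hM : M ∈ D.N) (h : Cubic W U W₀ U₂ r τ) (hMW : M ≤ W)
    (hU : Tower3 D.S U) (hW : Tower3 D.S W) {φ : Γ → ℂ} (hφ : Lin D W φ)
    (hdiv : ∀ s ∈ D.S, s ∈ W₀ → ∃ b : ℤ, (∑ k ∈ Finset.range 3, cj (r ^ k) φ) 1 -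
      (∑ k ∈ Finset.range 3, cj (r ^ k) φ) s = 2 * 3 * b) :
    ∃ ψ, Lin D U ψ ∧ ψ 1 = (∑ k ∈ Finset.range 3, cj (r ^ k) φ) 1 ∧
      (∀ s ∈ D.S, s ∈ U → ψ s = (∑ k ∈ Finset.range 3, cj (r ^ k) φ) s) ∧
      Fam D (Tower3 D.S) (fun g => Ind W φ g - Ind U ψ g) := by
  classical
  have hMU : M ≤ U := hMW.trans h.le
  have hfU : U.FiniteIndex := tower3_fin hU
  have hfW : W.FiniteIndex := tower3_fin hW
  have hcjS : ∀ (g s : Γ), s ∈ D.S → g⁻¹ * s * g ∈ D.S := by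
    intro g s hsS
    have := D.conj s hsS g⁻¹
    rwa [inv_inv] at this
  have hrU : ∀ k : ℕ, r ^ k ∈ U := fun k => h.u2u.le (U₂.pow_mem h.w0u2.mem k)
  obtain ⟨n, b, hbfin, e1, es, hb⟩ := lin_int D hφ
  obtain ⟨B, hB⟩ : ∃ B : ℤ, ∀ g, |b g| ≤ B := by
    obtain ⟨B, hB⟩ := (hbfin.image abs).bddAbove
    exact ⟨B, fun g => hB ⟨b g, ⟨g, rfl⟩, rfl⟩⟩
  have hB0 : 0 ≤ B := (abs_nonneg (b 1)).trans (hB 1)
  set Φ : Γ → ℂ := ∑ k ∈ Finset.range 3, cj (r ^ k) φ with hΦ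
  have hΦcls : Cls U Φ := cls_cos h.isCos (cls_lin hφ)
  have hΦ1 : Φ 1 = 3 * n := by
    rw [hΦ, sum_cj_A1, Finset.sum_congr rfl fun k _ => by rw [mul_one, inv_mul_cancel, e1], Finset.sum_const,
      Finset.card_range]
    simp
  have hout : ∀ s ∈ D.S, s ∈ U → s ∉ W₀ → s ∉ U₂ := fun s hs _ hs0 hs2 =>
    hs0 (mem_of_odd Nat.prime_three (by norm_num) h.w0u2 (D.sq s hs) hs2)
  have hm : ∀ s, s ∈ D.S ∧ s ∈ U → ∃ m : ℤ, (s ∈ W₀ → Φ s = 3 * (n - 2 * m)) ∧ (s ∉ W₀ → Φ s = n - 2 * m) ∧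
      |m| ≤ B := by
    rintro s ⟨hs, hsU⟩
    by_cases hs0 : s ∈ W₀
    · obtain ⟨m, hm⟩ := hdiv s hs hs0
      have h1 : Φ s = 3 * (n - 2 * m) := by
        rw [hΦ1] at hm
        linear_combination -hm
      refine ⟨m, fun _ => h1, fun hh => absurd hs0 hh, ?_⟩
      have h2 : Φ s = 3 * n - 2 * ∑ k ∈ Finset.range 3, (b ((r ^ k)⁻¹ * s * r ^ k) : ℂ) := by
        rw [hΦ, sum_cj_A1, Finset.sum_congr rfl fun k _ => es _ (hcjS _ s hs) (h.w0w.le (h.conj0 (hrU k) hs0)),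
          Finset.sum_sub_distrib, Finset.sum_const, Finset.card_range, ← Finset.mul_sum]
        simp
      have h3 : ((∑ k ∈ Finset.range 3, b ((r ^ k)⁻¹ * s * r ^ k) : ℤ) : ℂ) = ((3 * m : ℤ) : ℂ) := by
        push_cast
        rw [h1] at h2
        linear_combination (1 / 2 : ℂ) * h2
      have h4 : (∑ k ∈ Finset.range 3, b ((r ^ k)⁻¹ * s * r ^ k)) = 3 * m := by exact_mod_cast h3
      have h5 : |3 * m| ≤ 3 * B := by
        rw [← h4]
        refine (Finset.abs_sum_le_sum_abs _ _).trans ?_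
        refine (Finset.sum_le_sum fun k _ => hB _).trans ?_
        simp
      rw [abs_mul] at h5
      have h6 : |(3 : ℤ)| = 3 := rfl
      rw [h6] at h5
      linarith
    · obtain ⟨k, hk, hk1, hk2⟩ := h.fix_one hsU (hout s hs hsU hs0)
      refine ⟨b ((r ^ k)⁻¹ * s * r ^ k), fun hh => absurd hh hs0, fun _ => ?_, hB _⟩
      rw [hΦ, sum_cj_A1, sum3_single hk fun l hl hlk => (cls_lin hφ).1 _ fun hh => hlk (hk2 l hl hh)]
      exact es _ (hcjS _ s hs) hk1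
  choose! m hm0 hm1 hmB using hm
  let mm : Γ → ℤ := fun s => if s ∈ D.S ∧ s ∈ U then m s else 0
  have hmm : ∀ s ∈ D.S, s ∈ U → mm s = m s := fun s hs hsU => if_pos ⟨hs, hsU⟩
  have hmmfin : (Set.range mm).Finite := by
    refine (Set.finite_Icc (-B) B).subset ?_
    rintro _ ⟨s, rfl⟩
    rw [Set.mem_Icc, ← abs_le]
    by_cases hs : s ∈ D.S ∧ s ∈ U
    · rw [hmm s hs.1 hs.2]
      exact hmB s hs
    · change |(if s ∈ D.S ∧ s ∈ U then m s else 0)| ≤ B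
      rw [if_neg hs, abs_zero]
      exact hB0
  have hmminv : ∀ s ∈ D.S, s ∈ U → ∀ u ∈ U, mm (u * s * u⁻¹) = mm s := by
    intro s hs hsU u hu
    have hs' : u * s * u⁻¹ ∈ D.S := D.conj s hs u
    have hsU' : u * s * u⁻¹ ∈ U := U.mul_mem (U.mul_mem hu hsU) (U.inv_mem hu)
    rw [hmm _ hs' hsU', hmm s hs hsU]
    have h1 : Φ (u * s * u⁻¹) = Φ s := by
      have := hΦcls.2 u⁻¹ (U.inv_mem hu) s
      rwa [inv_inv] at this
    have h2 : u * s * u⁻¹ ∈ W₀ ↔ s ∈ W₀ := by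
      constructor
      · intro hh
        have := h.conj0 hu hh
        have e : u⁻¹ * (u * s * u⁻¹) * u = s := by group
        rwa [e] at this
      · exact h.norm u hu s
    by_cases hs0 : s ∈ W₀
    · have a1 := hm0 s ⟨hs, hsU⟩ hs0
      have a2 := hm0 _ ⟨hs', hsU'⟩ (h2.2 hs0)
      rw [h1, a1] at a2
      have a3 : (m s : ℂ) = m (u * s * u⁻¹) := by linear_combination (-1 / 6 : ℂ) * a2
      exact_mod_cast a3.symm
    · have a1 := hm1 s ⟨hs, hsU⟩ hs0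
      have a2 := hm1 _ ⟨hs', hsU'⟩ (fun hh => hs0 (h2.1 hh))
      rw [h1, a1] at a2
      have a3 : (m s : ℂ) = m (u * s * u⁻¹) := by linear_combination (-1 / 2 : ℂ) * a2
      exact_mod_cast a3.symm
  obtain ⟨ψ1, hψ1, hψ11, hψ1s⟩ := exists_lin_of_sign D hnt hM hMU mm hmmfin hmminv
  let ψ0 : Γ → ℂ := n • ext U 1 + ψ1
  have hψ0 : Lin D U ψ0 := lin_add_G1 (lin_zsmul_G1 n (lin_ext (opc_one hM hMU))) hψ1
  have hψ01 : ψ0 1 = n := by
    change n • ext U 1 1 + ψ1 1 = n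
    rw [ext_one_apply U U.one_mem, hψ11]
    simp
  have hψ0s : ∀ s ∈ D.S, s ∈ U → ψ0 s = n - 2 * m s := by
    intro s hsS hsU
    change n • ext U 1 s + ψ1 s = n - 2 * m s
    rw [ext_one_apply U hsU, hψ1s s hsS hsU, hmm s hsS hsU]
    simp
    ring
  have hψ0c : ∀ (s : Γ) (k : ℕ), ψ0 ((r ^ k)⁻¹ * s * r ^ k) = ψ0 s := fun s k => (cls_lin hψ0).2 _ (hrU k) s
  have hlrs : Lin D W (rs W ψ0) := lin_rs D hM hMW h.le hψ0
  -- the difference
  have hmove := cubic_move D hnt hcent hM h hMW hU hW (lin_sub hφ hlrs)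
    (by rw [Pi.sub_apply, rs_mem _ W.one_mem, e1, hψ01, sub_self])
    (by
      intro s hs hsW hs0
      have hsU := h.le hsW
      obtain ⟨k, hk, hk1, hk2⟩ := h.fix_one hsU (hout s hs hsU hs0)
      have hk0 : k = 0 := (hk2 0 (by norm_num) (by simpa using hsW)).symm
      have h1 : Φ s = φ s := by
        rw [hΦ, sum_cj_A1, sum3_single hk fun l hl hlk => (cls_lin hφ).1 _ fun hh => hlk (hk2 l hl hh), hk0]
        simp
      rw [Pi.sub_apply, rs_mem _ hsW, hψ0s s hs hsU, ← h1, hm1 s ⟨hs, hsU⟩ hs0, sub_self])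
    (by
      intro s hs hs0
      have hsU := h.le (h.w0w.le hs0)
      have h1 : ∀ k ∈ Finset.range 3, (φ - rs W ψ0) ((r ^ k)⁻¹ * s * r ^ k) =
          φ ((r ^ k)⁻¹ * s * r ^ k) - (n - 2 * m s) := by
        intro k _
        rw [Pi.sub_apply, rs_mem _ (h.w0w.le (h.conj0 (hrU k) hs0)), hψ0c, hψ0s s hs hsU]
      rw [Finset.sum_congr rfl h1, Finset.sum_sub_distrib, ← sum_cj_A1, ← hΦ, hm0 s ⟨hs, hsU⟩ hs0, Finset.sum_const,
        Finset.card_range]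
      simp)
  obtain ⟨ψ', hψ', ht'⟩ := cubic_rs D hM h hMW hψ0
  have hv := ht'.vanish
  have hf' := fam3_of_towA D hU ht'
  have hI : Ind U (∑ k ∈ Finset.range 3, cj (r ^ k) (rs W ψ0)) = Ind W (rs W ψ0) :=
    Ind_cos hfU hfW h.isCos (cls_lin hlrs)
  refine ⟨ψ', hψ', ?_, ?_, ?_⟩
  · have h1 := hv.1
    rw [Pi.sub_apply, sum_cj_A1, Finset.sum_congr rfl fun k _ => by
      rw [mul_one, inv_mul_cancel, rs_mem _ W.one_mem, hψ01], Finset.sum_const, Finset.card_range] at h1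
    rw [hΦ1]
    simp at h1
    linear_combination -h1
  · intro s hs hsU
    have h1 := hv.2 s hs
    rw [Pi.sub_apply, sub_eq_zero, sum_cj_A1] at h1
    rw [← h1]
    by_cases hs0 : s ∈ W₀
    · rw [Finset.sum_congr rfl fun k _ => by
        rw [rs_mem _ (h.w0w.le (h.conj0 (hrU k) hs0)), hψ0c, hψ0s s hs hsU], Finset.sum_const, Finset.card_range,
        hm0 s ⟨hs, hsU⟩ hs0]
      simp
    · obtain ⟨k, hk, hk1, hk2⟩ := h.fix_one hsU (hout s hs hsU hs0)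
      rw [sum3_single (f := fun k => rs W ψ0 ((r ^ k)⁻¹ * s * r ^ k)) hk fun l hl hlk =>
        rs_not_mem _ fun hh => hlk (hk2 l hl hh), rs_mem _ hk1, hψ0c, hψ0s s hs hsU, hm1 s ⟨hs, hsU⟩ hs0]
  · refine fam_congr (fam_add D _ hmove hf') fun g => ?_
    rw [Ind_sub_A2 hfW, Ind_sub_A2 hfU, hI]
    ring

end

end SB
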