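import Pool.Agent.Helper21.CT.K6

/-!
# CT3-K7: towers with cubic steps, rational statement and functions vanishing on S
-/

namespace SB

universe u

section
variable {Γ : Type u} [Group Γ]

/-- Some multiple of `v` is, up to the family, a combination of `1` and `θ`. -/
def RQ3 (D : Sys Γ) (θ : Γ → ℂ) (v : Γ → ℂ) : Prop :=
  ∃ (N : ℕ) (a b : ℤ), 0 < N ∧ Fam D (Tower3 D.S) (fun g => (N : ℂ) * v g - a - b * θ g)

theorem rq3_of_rq {D : Sys Γ} {θ v : Γ → ℂ} (h : RQ D θ v) : RQ3 D θ v := by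
  obtain ⟨N, a, b, hN, hf⟩ := h
  exact ⟨N, a, b, hN, fam_mono (fun _ => tower3_of_tower) hf⟩

theorem rq3_of_fam {D : Sys Γ} {θ v w : Γ → ℂ} {N : ℕ} (hN : 0 < N)
    (hf : Fam D (Tower3 D.S) (fun g => (N : ℂ) * v g - w g)) (h : RQ3 D θ w) : RQ3 D θ v := by
  obtain ⟨K, a, b, hK, h1⟩ := h
  refine ⟨K * N, a, b, Nat.mul_pos hK hN, fam_congr (fam_add D _ (fam_zmul D _ (K : ℤ) hf) h1) fun g => ?_⟩
  push_cast
  ring

theorem rq3_zero (D : Sys Γ) (θ : Γ → ℂ) : RQ3 D θ (fun _ => 0) :=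
  ⟨1, 0, 0, one_pos, fam_congr (fam_zero D _) fun g => by simp⟩

theorem rq3_add {D : Sys Γ} {θ v w : Γ → ℂ} (hv : RQ3 D θ v) (hw : RQ3 D θ w) :
    RQ3 D θ (fun g => v g + w g) := by
  obtain ⟨K, a, b, hK, h1⟩ := hv
  obtain ⟨K', a', b', hK', h1'⟩ := hw
  refine ⟨K * K', K' * a + K * a', K' * b + K * b', Nat.mul_pos hK hK',
    fam_congr (fam_add D _ (fam_zmul D _ (K' : ℤ) h1) (fam_zmul D _ (K : ℤ) h1')) fun g => ?_⟩
  push_cast
  ring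

theorem rq3_zmul {D : Sys Γ} {θ v : Γ → ℂ} (n : ℤ) (hv : RQ3 D θ v) : RQ3 D θ (fun g => (n : ℂ) * v g) := by
  obtain ⟨K, a, b, hK, h1⟩ := hv
  refine ⟨K, n * a, n * b, hK, fam_congr (fam_zmul D _ n h1) fun g => ?_⟩
  push_cast
  ring

theorem rq3_sum {D : Sys Γ} {θ : Γ → ℂ} {ι : Type*} (s : Finset ι) (n : ι → ℤ) (v : ι → Γ → ℂ)
    (h : ∀ i, RQ3 D θ (v i)) : RQ3 D θ (fun g => ∑ i ∈ s, (n i : ℂ) * v i g) := by
  classical
  induction s using Finset.induction_on with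
  | empty => simpa using rq3_zero D θ
  | insert a s ha ih =>
    simp only [Finset.sum_insert ha]
    exact rq3_add (rq3_zmul (n a) (h a)) ih

theorem rat3_step (D : Sys Γ) (hnt : NtU D) {θ : Γ → ℂ} {W U : Subgroup Γ} (hTU : Tower3 D.S U) (hle : W ≤ U)
    (hn : ∀ u ∈ U, ∀ w ∈ W, u * w * u⁻¹ ∈ W) (hpr : (W.relIndex U).Prime)
    (ih : ∀ {ψ : Γ → ℂ}, Lin D U ψ → RQ3 D θ (Ind U ψ)) {M : Subgroup Γ} (hM : M ∈ D.N) (hMW : M ≤ W)
    {φ : Γ → ℂ} (hφ : Lin D W φ) : RQ3 D θ (Ind W φ) := by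
  obtain ⟨t, ht⟩ := exists_isStep hle hn hpr
  set p := W.relIndex U with hp
  have hfin := tower3_fin hTU
  by_cases hp2 : p = 2
  · rw [hp2] at ht
    obtain ⟨ψ, hψ, htow⟩ := two_step D ht hφ
    have hf := fam3_of_towA D hTU htow
    have h1 : Ind U (∑ k ∈ Finset.range 2, cj (t ^ k) φ) = Ind W φ :=
      Ind_step (by norm_num) hfin ht (cls_lin hφ)
    refine rq3_of_fam (N := 1) one_pos (fam_congr hf fun g => ?_) (ih hψ)
    rw [Ind_sub_A2 hfin, h1]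
    simp
  · have hlin : Lin D W ((p : ℤ) • φ) := lin_zsmul_G1 _ hφ
    obtain ⟨n, b, -, h1, hs, -⟩ := lin_int D hφ
    obtain ⟨ψ, hψ, htow⟩ := odd_step D hnt hM hpr hp2 ht hMW hlin (by
      intro s hsS hsU
      refine ⟨∑ k ∈ Finset.range p, b ((t ^ k)⁻¹ * s * t ^ k), ?_⟩
      have hsW : s ∈ W := mem_of_odd hpr hp2 ht (D.sq s hsS) hsU
      rw [sum_cj_A1, sum_cj_A1, ← Finset.sum_sub_distrib]
      push_cast
      rw [Finset.mul_sum]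
      refine Finset.sum_congr rfl fun k _ => ?_
      have h3 : (t ^ k)⁻¹ * s * t ^ k ∈ W := (g2_conj_mem ht k s).2 hsW
      have h4 : (t ^ k)⁻¹ * s * t ^ k ∈ D.S := by
        have := D.conj s hsS (t ^ k)⁻¹
        rwa [inv_inv] at this
      rw [Pi.smul_apply, Pi.smul_apply, mul_one, inv_mul_cancel, h1, hs _ h4 h3]
      simp only [zsmul_eq_mul]
      push_cast
      ring)
    have hf := fam3_of_towA D hTU htow
    have h2 : Ind U (∑ k ∈ Finset.range p, cj (t ^ k) ((p : ℤ) • φ)) = Ind W ((p : ℤ) • φ) :=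
      Ind_step hpr.pos hfin ht (cls_lin hlin)
    refine rq3_of_fam (N := p) hpr.pos (fam_congr hf fun g => ?_) (ih hψ)
    rw [Ind_sub_A2 hfin, h2, Ind_smul]
    push_cast
    ring

/-- `Φ 1 - Φ s` for a linear function, at an element fixing all cosets. -/
theorem cubic_diff (D : Sys Γ) {W U W₀ U₂ : Subgroup Γ} {r τ : Γ} (h : Cubic W U W₀ U₂ r τ) {φ : Γ → ℂ} {n : ℤ}
    {b : Γ → ℤ} (h1 : φ 1 = n) (hs : ∀ s ∈ D.S, s ∈ W → φ s = n - 2 * b s) {s : Γ} (hsS : s ∈ D.S)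
    (hs0 : s ∈ W₀) : (∑ k ∈ Finset.range 3, cj (r ^ k) φ) 1 - (∑ k ∈ Finset.range 3, cj (r ^ k) φ) s =
      2 * ∑ k ∈ Finset.range 3, (b ((r ^ k)⁻¹ * s * r ^ k) : ℂ) := by
  have hcjS : ∀ (g s : Γ), s ∈ D.S → g⁻¹ * s * g ∈ D.S := by
    intro g s hsS
    have := D.conj s hsS g⁻¹
    rwa [inv_inv] at this
  have hrU : ∀ k : ℕ, r ^ k ∈ U := fun k => h.u2u.le (U₂.pow_mem h.w0u2.mem k)
  rw [sum_cj_A1, sum_cj_A1, ← Finset.sum_sub_distrib, Finset.mul_sum]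
  refine Finset.sum_congr rfl fun k _ => ?_
  rw [mul_one, inv_mul_cancel, h1, hs _ (hcjS _ s hsS) (h.w0w.le (h.conj0 (hrU k) hs0))]
  ring

theorem rat3_cubic (D : Sys Γ) (hnt : NtU D) (hcent : ∀ s ∈ D.S, ∀ g, g * s * g⁻¹ = s → g = 1 ∨ g = s)
    {θ : Γ → ℂ} {W U W₀ U₂ : Subgroup Γ} {r τ : Γ} (h : Cubic W U W₀ U₂ r τ) (hTU : Tower3 D.S U)
    (hTW : Tower3 D.S W)
    (ih : ∀ {ψ : Γ → ℂ}, Lin D U ψ → RQ3 D θ (Ind U ψ)) {M : Subgroup Γ} (hM : M ∈ D.N) (hMW : M ≤ W)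
    {φ : Γ → ℂ} (hφ : Lin D W φ) : RQ3 D θ (Ind W φ) := by
  have hlin : Lin D W ((3 : ℤ) • φ) := lin_zsmul_G1 _ hφ
  obtain ⟨n, b, -, h1, hs, -⟩ := lin_int D hφ
  obtain ⟨ψ, hψ, -, -, hf⟩ := cubic_step D hnt hcent hM h hMW hTU hTW hlin (by
    intro s hsS hs0
    refine ⟨∑ k ∈ Finset.range 3, b ((r ^ k)⁻¹ * s * r ^ k), ?_⟩
    have h2 := cubic_diff D h (φ := (3 : ℤ) • φ) (n := 3 * n) (b := fun g => 3 * b g)
      (by rw [Pi.smul_apply, h1]; simp)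
      (fun s hs1 hs2 => by rw [Pi.smul_apply, hs s hs1 hs2]; simp only [zsmul_eq_mul]; push_cast; ring) hsS hs0
    rw [h2]
    push_cast
    rw [← Finset.mul_sum]
    ring)
  refine rq3_of_fam (N := 3) (by norm_num) (fam_congr hf fun g => ?_) (ih hψ)
  rw [Ind_smul]
  push_cast
  ring

theorem tower3_rat (D : Sys Γ) (hup : ∀ M ∈ D.N, ∀ M' : Subgroup Γ, M'.Normal → M ≤ M' → M' ∈ D.N)
    (hnt : NtU D) (hcent : ∀ s ∈ D.S, ∀ g, g * s * g⁻¹ = s → g = 1 ∨ g = s)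
    (θ : Γ →* ℂˣ) {Mθ : Subgroup Γ} (hMθ : Mθ ∈ D.N) (hθ : ∀ g ∈ Mθ, θ g = 1) (hθS : ∀ s ∈ D.S, θ s = -1)
    (hone : ∀ s ∈ D.S, ∀ s' ∈ D.S, ∃ g, s' = g * s * g⁻¹)
    {U : Subgroup Γ} (hU : Tower3 D.S U) {M : Subgroup Γ} (hM : M ∈ D.N) (hMU : M ≤ U) {φ : Γ → ℂ}
    (hφ : Lin D U φ) :
    RQ3 D (fun g => (θ g : ℂ)) (Ind U φ) := by
  induction hU generalizing φ with
  | base hfin hS => exact rq3_of_rq (base_rat D hup θ hMθ hθ hθS hone hM hMU hS hφ)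
  | @step W U hTU hle hn hpr ih =>
    exact rat3_step D hnt hTU hle hn hpr (fun hψ => ih (hMU.trans hle) hψ) hM hMU hφ
  | @cubic W U hTU hle h3 ih =>
    by_cases hn : ∀ u ∈ U, ∀ w ∈ W, u * w * u⁻¹ ∈ W
    · exact rat3_step D hnt hTU hle hn (by rw [h3]; exact Nat.prime_three) (fun hψ => ih (hMU.trans hle) hψ)
        hM hMU hφ
    · obtain ⟨W₀, U₂, r, τ, hc⟩ := exists_cubic hle h3 hn
      exact rat3_cubic D hnt hcent hc hTU (Tower3.cubic hTU hle h3) (fun hψ => ih (hMU.trans hle) hψ) hM hMU hφ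

/-- Functions vanishing on `S`. -/
theorem tower3_zero (D : Sys Γ) (hup : ∀ M ∈ D.N, ∀ M' : Subgroup Γ, M'.Normal → M ≤ M' → M' ∈ D.N)
    (hnt : NtU D) (hcent : ∀ s ∈ D.S, ∀ g, g * s * g⁻¹ = s → g = 1 ∨ g = s)
    (θ : Γ →* ℂˣ) {Mθ : Subgroup Γ} (hMθ : Mθ ∈ D.N) (hθ : ∀ g ∈ Mθ, θ g = 1) (hθS : ∀ s ∈ D.S, θ s = -1)
    {U : Subgroup Γ} (hU : Tower3 D.S U) {M : Subgroup Γ} (hM : M ∈ D.N) (hMU : M ≤ U) {φ : Γ → ℂ}
    (hφ : Lin D U φ) (h0 : ∀ s ∈ D.S, s ∈ U → φ s = 0) :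
    ∃ a b : ℤ, Fam D (Tower3 D.S) (fun g => Ind U φ g - a - b * (θ g : ℂ)) := by
  have hcjS : ∀ (g s : Γ), s ∈ D.S → g⁻¹ * s * g ∈ D.S := by
    intro g s hsS
    have := D.conj s hsS g⁻¹
    rwa [inv_inv] at this
  -- a normal step
  have hstep : ∀ {W U : Subgroup Γ} (_ : Tower3 D.S U) (_ : W ≤ U) (_ : ∀ u ∈ U, ∀ w ∈ W, u * w * u⁻¹ ∈ W)
      (_ : (W.relIndex U).Prime) (_ : ∀ {ψ : Γ → ℂ}, Lin D U ψ → (∀ s ∈ D.S, s ∈ U → ψ s = 0) →
        ∃ a b : ℤ, Fam D (Tower3 D.S) (fun g => Ind U ψ g - a - b * (θ g : ℂ)))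
      (_ : M ≤ W) {φ : Γ → ℂ} (_ : Lin D W φ) (_ : ∀ s ∈ D.S, s ∈ W → φ s = 0),
      ∃ a b : ℤ, Fam D (Tower3 D.S) (fun g => Ind W φ g - a - b * (θ g : ℂ)) := by
    intro W U hTU hle hn hpr ih hMW φ hφ h0
    obtain ⟨t, ht⟩ := exists_isStep hle hn hpr
    set p := W.relIndex U with hp
    have hfin := tower3_fin hTU
    have hz : ∀ s ∈ D.S, (∑ k ∈ Finset.range p, cj (t ^ k) φ) s = 0 := by
      intro s hs
      rw [sum_cj_A1]
      refine Finset.sum_eq_zero fun k _ => ?_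
      by_cases hh : (t ^ k)⁻¹ * s * t ^ k ∈ W
      · exact h0 _ (hcjS _ s hs) hh
      · exact (cls_lin hφ).1 _ hh
    have key : ∃ ψ, Lin D U ψ ∧ TowA D U ((∑ k ∈ Finset.range p, cj (t ^ k) φ) - ψ) := by
      by_cases hp2 : p = 2
      · rw [hp2] at ht ⊢
        exact two_step D ht hφ
      · obtain ⟨n, b, -, h1, hs, -⟩ := lin_int D hφ
        refine odd_step D hnt hM hpr hp2 ht hMW hφ fun s hsS hsU => ⟨b s, ?_⟩
        have hsW : s ∈ W := mem_of_odd hpr hp2 ht (D.sq s hsS) hsU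
        have h2 := hs s hsS hsW
        rw [h0 s hsS hsW] at h2
        rw [hz s hsS, sum_cj_A1, Finset.sum_congr rfl fun k _ => by rw [mul_one, inv_mul_cancel, h1],
          Finset.sum_const, Finset.card_range, nsmul_eq_mul]
        linear_combination (p : ℂ) * (-h2)
    obtain ⟨ψ, hψ, htow⟩ := key
    have hv := htow.vanish
    obtain ⟨a, b, hab⟩ := ih hψ fun s hs _ => by
      have h3 := hv.2 s hs
      rw [Pi.sub_apply, hz s hs] at h3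
      linear_combination -h3
    have hf := fam3_of_towA D hTU htow
    refine ⟨a, b, fam_congr (fam_add D _ hf hab) fun g => ?_⟩
    rw [Ind_sub_A2 hfin, Ind_step hpr.pos hfin ht (cls_lin hφ)]
    ring
  induction hU generalizing φ with
  | base hfin hS =>
    obtain ⟨a, b, hf⟩ := base_int D hup θ hMθ hθ hθS hM hMU hS hφ fun s hs s' hs' => by
      rw [h0 s hs (hS hs), h0 s' hs' (hS hs')]
    exact ⟨a, b, fam_mono (fun _ => tower3_of_tower) hf⟩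
  | @step W U hTU hle hn hpr ih =>
    exact hstep hTU hle hn hpr (fun hψ hψ0 => ih (hMU.trans hle) hψ hψ0) hMU hφ h0
  | @cubic W U hTU hle h3 ih =>
    by_cases hn : ∀ u ∈ U, ∀ w ∈ W, u * w * u⁻¹ ∈ W
    · exact hstep hTU hle hn (by rw [h3]; exact Nat.prime_three) (fun hψ hψ0 => ih (hMU.trans hle) hψ hψ0) hMU hφ h0
    · obtain ⟨W₀, U₂, r, τ, hc⟩ := exists_cubic hle h3 hn
      obtain ⟨n, b, -, h1, hs, -⟩ := lin_int D hφ
      have hz : ∀ s ∈ D.S, (∑ k ∈ Finset.range 3, cj (r ^ k) φ) s = 0 := by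
        intro s hs
        rw [sum_cj_A1]
        refine Finset.sum_eq_zero fun k _ => ?_
        by_cases hh : (r ^ k)⁻¹ * s * r ^ k ∈ W
        · exact h0 _ (hcjS _ s hs) hh
        · exact (cls_lin hφ).1 _ hh
      obtain ⟨ψ, hψ, -, hψs, hf⟩ := cubic_step D hnt hcent hM hc hMU hTU (Tower3.cubic hTU hle h3) hφ (by
        intro s hsS hs0
        have hsW := hc.w0w.le hs0
        have h2 := hs s hsS hsW
        rw [h0 s hsS hsW] at h2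
        refine ⟨b s, ?_⟩
        rw [hz s hsS, sum_cj_A1, Finset.sum_congr rfl fun k _ => by rw [mul_one, inv_mul_cancel, h1],
          Finset.sum_const, Finset.card_range, nsmul_eq_mul]
        push_cast
        linear_combination (3 : ℂ) * (-h2))
      obtain ⟨a, b', hab⟩ := ih (hMU.trans hle) hψ fun s hs1 hs2 => by rw [hψs s hs1 hs2, hz s hs1]
      refine ⟨a, b', fam_congr (fam_add D _ hf hab) fun g => ?_⟩
      ring

end

end SB
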