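import Pool.Agent.Helper21.CT.Stmt

namespace SB

/-! Definitions used in the statement of the theorem on towers of cyclic and cubic extensions. -/

variable {Γ : Type*} [Group Γ]

/-- `W` is a normal subgroup of prime index in `U`, or a subgroup of index three. -/
def TStep (W U : Subgroup Γ) : Prop := PStep W U ∨ (W ≤ U ∧ W.relIndex U = 3)

/-- `U` is reached by steps `TStep` from a subgroup containing `S`. -/
inductive TTower (S : Set Γ) : Subgroup Γ → Prop
  | base {U : Subgroup Γ} : S ⊆ U → TTower S U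
  | step {W U : Subgroup Γ} : TTower S U → TStep W U → TTower S W

/-- `v` is a finite sum `∑ nᵢ (Ind χᵢ - Ind χᵢ')`, `nᵢ` integers, `χᵢ, χᵢ'` linear characters of `Uᵢ ≥ N`, trivial on
`N` and equal at all elements of `S` in `Uᵢ`, all `Uᵢ` being reached by steps `TStep` from subgroups containing `S`. -/
def SigTower (S : Set Γ) (N : Subgroup Γ) (v : Γ → ℂ) : Prop :=
  ∃ (m : ℕ) (n : Fin m → ℤ) (U : Fin m → Subgroup Γ) (χ χ' : ∀ i, U i →* ℂˣ),
    (∀ i, TTower S (U i) ∧ SigPair S N (U i) (χ i) (χ' i)) ∧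
    ∀ g, v g = ∑ i, (n i : ℂ) * (IndChr (U i) (χ i) g - IndChr (U i) (χ' i) g)

/-- The virtual characters (extended by zero) of subgroups obtained from linear characters, trivial on `N`, by sums,
negation and induction along steps `TStep`, the induction being allowed, for a step of index `p ≠ 2`, if for each
`s ∈ S` which fixes all cosets the number of eigenvalues `-1` of the result, `(φ 1 - φ s) / 2`, is divisible by `p`. -/
inductive Built (S : Set Γ) (N : Subgroup Γ) : Subgroup Γ → (Γ → ℂ) → Prop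
  | char {U : Subgroup Γ} (χ : U →* ℂˣ) : N ≤ U → TrivOn N χ → Built S N U (ext U χ)
  | add {U : Subgroup Γ} {φ ψ : Γ → ℂ} : Built S N U φ → Built S N U ψ → Built S N U (φ + ψ)
  | neg {U : Subgroup Γ} {φ : Γ → ℂ} : Built S N U φ → Built S N U (-φ)
  | ind {W U : Subgroup Γ} {φ : Γ → ℂ} : Built S N W φ → TStep W U →
      (W.relIndex U ≠ 2 → ∀ s ∈ S, (∀ u ∈ U, u * s * u⁻¹ ∈ W) →
        ∃ b : ℤ, IndRel W U φ 1 - IndRel W U φ s = 2 * (W.relIndex U) * b) →
      Built S N U (IndRel W U φ)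

/-- `φ` is built on `U`, and either `U ⊇ S` and `φ` is constant on `S`, or `U` is a tower and `φ` is zero on `S`. -/
def GoodOn (S : Set Γ) (N U : Subgroup Γ) (φ : Γ → ℂ) : Prop :=
  Built S N U φ ∧ ((S ⊆ U ∧ ∀ s ∈ S, ∀ s' ∈ S, φ s = φ s') ∨ (TTower S U ∧ ∀ s ∈ S, φ s = 0))

/-- `v` is an integral combination of `Ind φᵢ`, with `φᵢ` good on `Uᵢ`. -/
def GoodTower (S : Set Γ) (N : Subgroup Γ) (v : Γ → ℂ) : Prop :=
  ∃ (m : ℕ) (n : Fin m → ℤ) (U : Fin m → Subgroup Γ) (φ : Fin m → Γ → ℂ),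
    (∀ i, GoodOn S N (U i) (φ i)) ∧ ∀ g, v g = ∑ i, (n i : ℂ) * Ind (U i) (φ i) g

/-- `v` is an integral combination of differences `Ind χᵢ - Ind 1`, with `χᵢ` a linear character of `Uᵢ` trivial on
`N ≤ Uᵢ`, `Uᵢ` with property `P`. -/
def UnitComb (N : Subgroup Γ) (P : Subgroup Γ → Prop) (v : Γ → ℂ) : Prop :=
  ∃ (m : ℕ) (n : Fin m → ℤ) (U : Fin m → Subgroup Γ) (χ : ∀ i, U i →* ℂˣ),
    (∀ i, P (U i) ∧ N ≤ U i ∧ TrivOn N (χ i)) ∧
    ∀ g, v g = ∑ i, (n i : ℂ) * (IndChr (U i) (χ i) g - IndChr (U i) 1 g)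

end SB
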