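import Pool.Agent.Helper21.CT.K7
import Pool.Agent.Helper21.CT.Stmt3
import Pool.Agent.Helper21.CT.G

/-!
# CT3-K8: normal form of the built functions
-/

namespace SB

universe u

section
variable {Γ : Type u} [Group Γ]

theorem indRel_cos {p : ℕ} {W U : Subgroup Γ} {t : Γ} (h : IsCos p W U t) {φ : Γ → ℂ}
    (hφ : Cls W φ) : IndRel W U φ = ∑ k ∈ Finset.range p, cj (t ^ k) φ := by
  funext g
  rw [sum_cj_A1]
  unfold IndRel
  let e : Fin p → U ⧸ W.subgroupOf U := fun k => QuotientGroup.mk ⟨t ^ (k : ℕ), U.pow_mem h.mem k⟩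
  have hbij : Function.Bijective e := by
    constructor
    · intro j k hjk
      have h1 := QuotientGroup.eq.1 hjk
      rw [Subgroup.mem_subgroupOf] at h1
      exact Fin.ext (h.uniq j.2 k.2 h1)
    · intro q
      obtain ⟨u, rfl⟩ := QuotientGroup.mk_surjective q
      obtain ⟨k, hk, hkW⟩ := h.cover u u.2
      refine ⟨⟨k, hk⟩, QuotientGroup.eq.2 ?_⟩
      rw [Subgroup.mem_subgroupOf]
      exact hkW
  rw [← finsum_comp_equiv (Equiv.ofBijective e hbij), finsum_eq_sum_of_fintype, Finset.sum_range]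
  refine Finset.sum_congr rfl fun k _ => ?_
  refine cls_coset_A1 hφ ?_ g
  have h1 : (QuotientGroup.mk ⟨t ^ (k : ℕ), U.pow_mem h.mem k⟩ : U ⧸ W.subgroupOf U) =
      QuotientGroup.mk (e k).out := (QuotientGroup.out_eq' (e k)).symm
  have h2 := QuotientGroup.eq.1 h1
  rw [Subgroup.mem_subgroupOf] at h2
  exact h2

theorem tstep_cases {W U : Subgroup Γ} (h : TStep W U) :
    ((W.relIndex U).Prime ∧ (∀ u ∈ U, ∀ w ∈ W, u * w * u⁻¹ ∈ W) ∧ ∃ t, IsStep (W.relIndex U) W U t) ∨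
      (W.relIndex U = 3 ∧ ∃ W₀ U₂ r τ, Cubic W U W₀ U₂ r τ) := by
  rcases h with h | ⟨hle, h3⟩
  · exact Or.inl ⟨h.2.2, h.2.1, exists_isStep h.1 h.2.1 h.2.2⟩
  · by_cases hn : ∀ u ∈ U, ∀ w ∈ W, u * w * u⁻¹ ∈ W
    · have hp : (W.relIndex U).Prime := by rw [h3]; exact Nat.prime_three
      exact Or.inl ⟨hp, hn, exists_isStep hle hn hp⟩
    · exact Or.inr ⟨h3, exists_cubic hle h3 hn⟩

theorem tower3_of_ttower {S : Set Γ} {U : Subgroup Γ} (h : TTower S U) (hU : U.FiniteIndex) : Tower3 S U := by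
  induction h with
  | base hS => exact Tower3.base hU hS
  | step _ hst ih =>
    have := hU
    rcases hst with hst | ⟨hle, h3⟩
    · exact Tower3.step (ih (Subgroup.finiteIndex_of_le hst.1)) hst.1 hst.2.1 hst.2.2
    · exact Tower3.cubic (ih (Subgroup.finiteIndex_of_le hle)) hle h3

theorem ttower_of_tower3 {S : Set Γ} {U : Subgroup Γ} (h : Tower3 S U) : TTower S U := by
  induction h with
  | base _ hS => exact TTower.base hS
  | step _ hle hn hp ih => exact TTower.step ih (Or.inl ⟨hle, hn, hp⟩)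
  | cubic _ hle h3 ih => exact TTower.step ih (Or.inr ⟨hle, h3⟩)

theorem tower3_tstep {S : Set Γ} {W U : Subgroup Γ} (h : TStep W U) (hU : Tower3 S U) : Tower3 S W := by
  rcases h with h | ⟨hle, h3⟩
  · exact Tower3.step hU h.1 h.2.1 h.2.2
  · exact Tower3.cubic hU hle h3

theorem built_nf (D : Sys Γ) (hnt : NtU D) (hcent : ∀ s ∈ D.S, ∀ g, g * s * g⁻¹ = s → g = 1 ∨ g = s)
    {M N : Subgroup Γ} (hM : M ∈ D.N) (hMN : M ≤ N) {U : Subgroup Γ} {φ : Γ → ℂ} (h : Built D.S N U φ) :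
    Cls U φ ∧ N ≤ U ∧ (Tower3 D.S U → ∃ ψ, Lin D U ψ ∧ ψ 1 = φ 1 ∧ (∀ s ∈ D.S, s ∈ U → ψ s = φ s) ∧
      Fam D (Tower3 D.S) (fun g => Ind U φ g - Ind U ψ g)) := by
  have hcjS : ∀ (g s : Γ), s ∈ D.S → g⁻¹ * s * g ∈ D.S := by
    intro g s hsS
    have := D.conj s hsS g⁻¹
    rwa [inv_inv] at this
  induction h with
  | @char U χ hN hχ =>
    refine ⟨cls_ext U χ, hN, fun _ => ⟨ext U χ, lin_ext ⟨M, hM, hMN.trans hN, fun g hg hgM => hχ g hg (hMN hgM)⟩,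
      rfl, fun _ _ _ => rfl, fam_congr (fam_zero D _) fun g => by rw [sub_self]⟩⟩
  | @add U φ φ' _ _ ih1 ih2 =>
    obtain ⟨c1, n1, f1⟩ := ih1
    obtain ⟨c2, -, f2⟩ := ih2
    refine ⟨cls_add_A2 c1 c2, n1, fun hU => ?_⟩
    obtain ⟨ψ, l1, a1, s1, g1⟩ := f1 hU
    obtain ⟨ψ', l2, a2, s2, g2⟩ := f2 hU
    refine ⟨ψ + ψ', lin_add_G1 l1 l2, by rw [Pi.add_apply, Pi.add_apply, a1, a2], fun s hs hsU => by
      rw [Pi.add_apply, Pi.add_apply, s1 s hs hsU, s2 s hs hsU], fam_congr (fam_add D _ g1 g2) fun g => ?_⟩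
    rw [Ind_add_A2 (tower3_fin hU), Ind_add_A2 (tower3_fin hU)]
    ring
  | @neg U φ _ ih =>
    obtain ⟨c1, n1, f1⟩ := ih
    refine ⟨cls_neg_A2 c1, n1, fun hU => ?_⟩
    obtain ⟨ψ, l1, a1, s1, g1⟩ := f1 hU
    refine ⟨(-1 : ℤ) • ψ, lin_zsmul_G1 _ l1, by rw [Pi.smul_apply, Pi.neg_apply, a1]; simp, fun s hs hsU => by
      rw [Pi.smul_apply, Pi.neg_apply, s1 s hs hsU]; simp, fam_congr (fam_zmul D _ (-1) g1) fun g => ?_⟩
    rw [Ind_neg_A2, Ind_smul]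
    push_cast
    ring
  | @ind W U φ _ hst hdiv ih =>
    obtain ⟨c1, n1, f1⟩ := ih
    rcases tstep_cases hst with ⟨hp, hn, t, ht⟩ | ⟨h3, W₀, U₂, r, τ, hc⟩
    · have e := indRel_eq ht c1
      rw [e] at hdiv ⊢
      refine ⟨cls_step hp.pos ht c1, n1.trans ht.le, fun hU => ?_⟩
      obtain ⟨ψ, l1, a1, s1, g1⟩ := f1 (tower3_tstep hst hU)
      have hfin := tower3_fin hU
      set p := W.relIndex U with hpdef
      have hb1 : (∑ k ∈ Finset.range p, cj (t ^ k) ψ) 1 = (∑ k ∈ Finset.range p, cj (t ^ k) φ) 1 := by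
        rw [sum_cj_A1, sum_cj_A1]
        exact Finset.sum_congr rfl fun k _ => by rw [mul_one, inv_mul_cancel, a1]
      have hbs : ∀ s ∈ D.S, (∑ k ∈ Finset.range p, cj (t ^ k) ψ) s = (∑ k ∈ Finset.range p, cj (t ^ k) φ) s := by
        intro s hs
        rw [sum_cj_A1, sum_cj_A1]
        refine Finset.sum_congr rfl fun k _ => ?_
        by_cases hh : (t ^ k)⁻¹ * s * t ^ k ∈ W
        · exact s1 _ (hcjS _ s hs) hh
        · rw [(cls_lin l1).1 _ hh, c1.1 _ hh]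
      have key : ∃ ψ', Lin D U ψ' ∧ TowA D U ((∑ k ∈ Finset.range p, cj (t ^ k) ψ) - ψ') := by
        by_cases hp2 : p = 2
        · rw [hp2] at ht ⊢
          exact two_step D ht l1
        · refine odd_step D hnt hM hp hp2 ht (hMN.trans n1) l1 fun s hsS hsU => ?_
          have hsW : s ∈ W := mem_of_odd hp hp2 ht (D.sq s hsS) hsU
          obtain ⟨b, hb⟩ := hdiv hp2 s hsS fun u hu => hn u hu s hsW
          exact ⟨b, by rw [hb1, hbs s hsS, hb]⟩
      obtain ⟨ψ', l2, ht2⟩ := key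
      have hv := ht2.vanish
      have hf := fam3_of_towA D hU ht2
      refine ⟨ψ', l2, ?_, fun s hs _ => ?_, fam_congr (fam_add D _ g1 hf) fun g => ?_⟩
      · have := hv.1
        rw [Pi.sub_apply, hb1] at this
        linear_combination -this
      · have := hv.2 s hs
        rw [Pi.sub_apply, hbs s hs] at this
        linear_combination -this
      · rw [Ind_sub_A2 hfin, Ind_step hp.pos hfin ht c1, Ind_step hp.pos hfin ht (cls_lin l1)]
        ring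
    · have e := indRel_cos hc.isCos c1
      rw [e] at hdiv ⊢
      refine ⟨cls_cos hc.isCos c1, n1.trans hc.le, fun hU => ?_⟩
      have hW := tower3_tstep hst hU
      obtain ⟨ψ, l1, a1, s1, g1⟩ := f1 hW
      have hfin := tower3_fin hU
      have hfW := tower3_fin hW
      have hb1 : (∑ k ∈ Finset.range 3, cj (r ^ k) ψ) 1 = (∑ k ∈ Finset.range 3, cj (r ^ k) φ) 1 := by
        rw [sum_cj_A1, sum_cj_A1]
        exact Finset.sum_congr rfl fun k _ => by rw [mul_one, inv_mul_cancel, a1]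
      have hbs : ∀ s ∈ D.S, (∑ k ∈ Finset.range 3, cj (r ^ k) ψ) s = (∑ k ∈ Finset.range 3, cj (r ^ k) φ) s := by
        intro s hs
        rw [sum_cj_A1, sum_cj_A1]
        refine Finset.sum_congr rfl fun k _ => ?_
        by_cases hh : (r ^ k)⁻¹ * s * r ^ k ∈ W
        · exact s1 _ (hcjS _ s hs) hh
        · rw [(cls_lin l1).1 _ hh, c1.1 _ hh]
      obtain ⟨ψ', l2, b1, bs, hf⟩ := cubic_step D hnt hcent hM hc (hMN.trans n1) hU hW l1 (by
        intro s hsS hs0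
        obtain ⟨b, hb⟩ := hdiv (by rw [h3]; norm_num) s hsS fun u hu => hc.w0w.le (hc.norm u hu s hs0)
        refine ⟨b, ?_⟩
        rw [hb1, hbs s hsS, hb, h3]
        push_cast
        ring)
      refine ⟨ψ', l2, by rw [b1, hb1], fun s hs hsU => by rw [bs s hs hsU, hbs s hs],
        fam_congr (fam_add D _ g1 hf) fun g => ?_⟩
      rw [Ind_cos hfin hfW hc.isCos c1]
      ring

/-- The normal form of a good function. -/
theorem good_nf (D : Sys Γ) (hup : ∀ M ∈ D.N, ∀ M' : Subgroup Γ, M'.Normal → M ≤ M' → M' ∈ D.N)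
    (hnt : NtU D) (hcent : ∀ s ∈ D.S, ∀ g, g * s * g⁻¹ = s → g = 1 ∨ g = s)
    (θ : Γ →* ℂˣ) {Mθ : Subgroup Γ} (hMθ : Mθ ∈ D.N) (hθ : ∀ g ∈ Mθ, θ g = 1) (hθS : ∀ s ∈ D.S, θ s = -1)
    {M N : Subgroup Γ} (hM : M ∈ D.N) (hMN : M ≤ N) {U : Subgroup Γ} {φ : Γ → ℂ} (h : GoodOn D.S N U φ) :
    ∃ a b : ℤ, Fam D (Tower3 D.S) (fun g => Ind U φ g - a - b * (θ g : ℂ)) := by
  obtain ⟨hb, hg⟩ := h
  obtain ⟨hc, hNU, hnf⟩ := built_nf D hnt hcent hM hMN hb
  have hMU := hMN.trans hNU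
  have hfin := fin_of_N D hM hMU
  have key : ∃ ψ, Lin D U ψ ∧ (∃ a b : ℤ, Fam D (Tower3 D.S) (fun g => Ind U ψ g - a - b * (θ g : ℂ))) ∧
      Fam D (Tower3 D.S) (fun g => Ind U φ g - Ind U ψ g) := by
    rcases hg with ⟨hS, hcst⟩ | ⟨hT, h0⟩
    · obtain ⟨ψ, l1, -, s1, g1⟩ := hnf (Tower3.base hfin hS)
      obtain ⟨a, b, hf⟩ := base_int D hup θ hMθ hθ hθS hM hMU hS l1 fun s hs s' hs' => by
        rw [s1 s hs (hS hs), s1 s' hs' (hS hs'), hcst s hs s' hs']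
      exact ⟨ψ, l1, ⟨a, b, fam_mono (fun _ => tower3_of_tower) hf⟩, g1⟩
    · have hT3 := tower3_of_ttower hT hfin
      obtain ⟨ψ, l1, -, s1, g1⟩ := hnf hT3
      exact ⟨ψ, l1, tower3_zero D hup hnt hcent θ hMθ hθ hθS hT3 hM hMU l1 fun s hs hsU => by
        rw [s1 s hs hsU, h0 s hs], g1⟩
  obtain ⟨ψ, -, ⟨a, b, hab⟩, g1⟩ := key
  refine ⟨a, b, fam_congr (fam_add D _ g1 hab) fun g => ?_⟩
  ring

end

end SB
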