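import Pool.Agent.Helper21.CT.Base

namespace SB

universe u

section B
variable {Γ : Type u} [Group Γ]

/-- CT-B1. The monomial representation; as `exists_indRep` in SB/C1, for any group. -/
theorem exists_lrep (M U : Subgroup Γ) (hM : M.Normal) (hMU : M ≤ U) (hU : U.FiniteIndex) (χ : U →* ℂˣ)
    (hχ : ∀ g (h : g ∈ U), g ∈ M → χ ⟨g, h⟩ = 1) :
    ∃ (d : ℕ) (ρ : Γ →* ((Fin d → ℂ) →ₗ[ℂ] (Fin d → ℂ))), (∀ g ∈ M, ρ g = 1) ∧
      ∀ g, LinearMap.trace ℂ (Fin d → ℂ) (ρ g) = Ind U (ext U χ) g := sorry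

/-- CT-B1. `famGeneral` for the system with `S = ∅` and `N = {core of U}`. -/
theorem brauer0 (D : Sys Γ) (hup : ∀ M ∈ D.N, ∀ M' : Subgroup Γ, M'.Normal → M ≤ M' → M' ∈ D.N)
    {M U : Subgroup Γ} (hM : M ∈ D.N) (hMU : M ≤ U) (hS : D.S ⊆ U) :
    Fam D (Tower D.S) (fun g => Ind U (ext U 1) g - (U.index : ℂ)) := sorry

/-- CT-B1. Multiply the characters by the restrictions of `θ`. -/
theorem fam_twist (D : Sys Γ) (P : Subgroup Γ → Prop) {v : Γ → ℂ} (hv : Fam D P v) (θ : Γ →* ℂˣ)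
    {M : Subgroup Γ} (hM : M ∈ D.N) (hθ : ∀ g ∈ M, θ g = 1) : Fam D P (fun g => (θ g : ℂ) * v g) := sorry

end B

end SB
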