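import Pool.Agent.Helper21.CT.Base

namespace SB

universe u

section B
variable {Γ : Type u} [Group Γ]

/-- CT-B2. Compare `ψ` with the restriction of `n + β (θ - 1)`. -/
theorem base_int (D : Sys Γ) (hup : ∀ M ∈ D.N, ∀ M' : Subgroup Γ, M'.Normal → M ≤ M' → M' ∈ D.N)
    (θ : Γ →* ℂˣ) {Mθ : Subgroup Γ} (hMθ : Mθ ∈ D.N) (hθ : ∀ g ∈ Mθ, θ g = 1) (hθS : ∀ s ∈ D.S, θ s = -1)
    {M U : Subgroup Γ} (hM : M ∈ D.N) (hMU : M ≤ U) (hS : D.S ⊆ U) {ψ : Γ → ℂ} (hψ : Lin D U ψ)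
    (hc : ∀ s ∈ D.S, ∀ s' ∈ D.S, ψ s = ψ s') :
    ∃ a b : ℤ, Fam D (Tower D.S) (fun g => Ind U ψ g - a - b * (θ g : ℂ)) := sorry

/-- CT-B2. `Φ = Ind L φ` is in `Lin D L`, is a class function of `Γ`, and `Ind L Φ = [Γ : L] Φ`; `base_int`. -/
theorem normal_rat (D : Sys Γ) (hup : ∀ M ∈ D.N, ∀ M' : Subgroup Γ, M'.Normal → M ≤ M' → M' ∈ D.N)
    (θ : Γ →* ℂˣ) {Mθ : Subgroup Γ} (hMθ : Mθ ∈ D.N) (hθ : ∀ g ∈ Mθ, θ g = 1) (hθS : ∀ s ∈ D.S, θ s = -1)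
    (hone : ∀ s ∈ D.S, ∀ s' ∈ D.S, ∃ g, s' = g * s * g⁻¹)
    {L : Subgroup Γ} (hL : L ∈ D.N) (hS : D.S ⊆ L) {φ : Γ → ℂ} (hφ : Lin D L φ) :
    RQ D (fun g => (θ g : ℂ)) (Ind L φ) := sorry

end B

end SB
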