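import Pool.Agent.Helper21.CT.Base

namespace SB

universe u

section B
variable {Γ : Type u} [Group Γ]

/-- CT-B3. Induction on the chain; each step by `sum_rs`, `lin_ind_rs`, `lin_towA`, `Ind_step`. -/
theorem chain_rat (D : Sys Γ) {L V : Subgroup Γ} (hL : L ∈ D.N) (hS : D.S ⊆ L) (hc : PChain L V)
    {ψ : Γ → ℂ} (hψ : Lin D V ψ) :
    Fam D (Tower D.S) (fun g => (L.relIndex V : ℂ) * Ind V ψ g - Ind L (rs L ψ) g) := sorry

/-- CT-B3. A finite solvable group has a normal subgroup of prime index, if it is not trivial. -/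
theorem chain_of_solvable {L V : Subgroup Γ} (hLV : L ≤ V) [hn : (L.subgroupOf V).Normal]
    (hfin : L.relIndex V ≠ 0) (hsol : Group.IsSolvable (V ⧸ L.subgroupOf V)) : PChain L V := sorry

end B

end SB
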