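import Pool.Agent.Helper21.CT.Base

namespace SB

universe u

section B
variable {Γ : Type u} [Group Γ]

/-- CT-B4. `gSolPull` for the group `↥U` and `M = L.subgroupOf U`; transitivity of induction. -/
theorem solomon_inner {L U : Subgroup Γ} (hL : L.Normal) (hLU : L ≤ U) (hU : U.FiniteIndex)
    (hLf : L.FiniteIndex) :
    ∃ (m : ℕ) (a : Fin m → ℤ) (W : Fin m → Subgroup Γ), (∀ i, W i ≤ U) ∧ (∀ i, PChain L (W i)) ∧
      ∀ ψ : Γ → ℂ, Cls U ψ → ∀ g, Ind U ψ g = ∑ i, (a i : ℂ) * Ind (W i) (rs (W i) ψ) g := sorry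

end B

end SB
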