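import Pool.Agent.Helper21.CT.Base

namespace SB

universe u

section B
variable {Γ : Type u} [Group Γ]

/-- CT-B6. If `U` contains no element of `S`, then `Ind U χ` is obtained from a balanced function. -/
theorem tower_complex (D : Sys Γ) {U : Subgroup Γ} (hU : Tower D.S U) (hUS : ∀ s ∈ D.S, s ∉ U)
    (χ : U →* ℂˣ) (hχ : OpC D U χ) :
    ∃ (U₀ : Subgroup Γ) (φ : Γ → ℂ), D.S ⊆ U₀ ∧ U₀.FiniteIndex ∧ Bal D U₀ φ ∧ (∀ s ∈ D.S, φ s = 0) ∧
      ∀ g, Ind U₀ φ g = Ind U (ext U χ) g := sorry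

end B

end SB
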