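import Pool.Agent.Helper21.CT.Base

namespace SB

universe u

/-! ### CT-C: the coboundary lemma -/
section C
variable {Γ : Type*} [Group Γ]

/-- CT-C. Integers only. See the plan, section C. -/
theorem coboundary {p : ℕ} (hp : p.Prime) {H U : Subgroup Γ} {t : Γ} (h : IsStep p H U t) (S : Set Γ)
    (hSU : ∀ s ∈ S, s ∈ U → s ∈ H) (hconj : ∀ s ∈ S, ∀ g, g * s * g⁻¹ ∈ S) (b : Γ → ℤ)
    (hfin : (Set.range b).Finite) (hb : ∀ s ∈ S, s ∈ H → ∀ u ∈ H, b (u * s * u⁻¹) = b s)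
    (hdiv : ∀ s ∈ S, s ∈ H → ∃ m : ℤ, ∑ k ∈ Finset.range p, b ((t ^ k)⁻¹ * s * t ^ k) = p * m) :
    ∃ m β : Γ → ℤ, (Set.range m).Finite ∧ (Set.range β).Finite ∧
      (∀ s ∈ S, s ∈ H → ∀ u ∈ U, m (u * s * u⁻¹) = m s) ∧ (∀ s ∈ S, s ∈ H → ∀ u ∈ H, β (u * s * u⁻¹) = β s) ∧
      ∀ s ∈ S, s ∈ H → b s = m s + β s - β (t⁻¹ * s * t) := sorry

end C


end SB
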