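import Pool.Agent.Helper21.CT.Base3

namespace SB

variable {Γ : Type*} [Group Γ]

/-- CT3-K1. -/
theorem exists_cubic {W U : Subgroup Γ} (hle : W ≤ U) (h3 : W.relIndex U = 3)
    (hnn : ¬ ∀ u ∈ U, ∀ w ∈ W, u * w * u⁻¹ ∈ W) : ∃ W₀ U₂ r τ, Cubic W U W₀ U₂ r τ := sorry

end SB
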