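import Pool.Agent.Helper21.CT.Base3
import Pool.Agent.Helper21.CT.S

namespace SB

variable {Γ : Type*} [Group Γ]

/-- CT3-K2. -/
theorem cubic_rs (D : Sys Γ) {M W U W₀ U₂ : Subgroup Γ} {r τ : Γ} (hM : M ∈ D.N) (h : Cubic W U W₀ U₂ r τ)
    (hMW : M ≤ W) {ψ : Γ → ℂ} (hψ : Lin D U ψ) :
    ∃ ψ', Lin D U ψ' ∧ TowA D U ((∑ k ∈ Finset.range 3, cj (r ^ k) (rs W ψ)) - ψ') := sorry

end SB
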