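import Pool.Agent.Helper21.CT.Base3

namespace SB

variable {Γ : Type*} [Group Γ]

/-- CT3-K3. -/
theorem cubic_orient {W U W₀ U₂ : Subgroup Γ} {r τ : Γ} (h : Cubic W U W₀ U₂ r τ) (S : Set Γ)
    (hconj : ∀ s ∈ S, ∀ g, g * s * g⁻¹ ∈ S) (hcent : ∀ s ∈ S, ∀ g, g * s * g⁻¹ = s → g = 1 ∨ g = s)
    (c : Γ → ℤ) (hfin : (Set.range c).Finite)
    (hc : ∀ s ∈ S, s ∈ W₀ → ∀ u ∈ W, c (u * s * u⁻¹) = c s)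
    (hsum : ∀ s ∈ S, s ∈ W₀ → ∑ k ∈ Finset.range 3, c ((r ^ k)⁻¹ * s * r ^ k) = 0) :
    ∃ γ : Γ → ℤ, (Set.range γ).Finite ∧ (∀ s ∈ S, s ∈ W₀ → ∀ u ∈ W₀, γ (u * s * u⁻¹) = γ s) ∧
      (∀ s ∈ S, s ∈ W₀ → γ s + γ (τ⁻¹ * s * τ) = c s) ∧
      (∀ s ∈ S, s ∈ W₀ → ∑ k ∈ Finset.range 3, γ ((r ^ k)⁻¹ * s * r ^ k) = 0) := sorry

end SB
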