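import Pool.Agent.Helper21.SB.Trans

namespace SB

/-- CT3-K9. The centralizer of a complex conjugation. -/
theorem cc_cent {c g : GQ} (hc : c ∈ CC) (h : g * c * g⁻¹ = c) : g = 1 ∨ g = c := sorry

end SB
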