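import Pool.Agent.Helper21.CT.Base

namespace SB

universe u

/-! ### CT-L: linear functions -/
section L
variable {Γ : Type*} [Group Γ]

/-- CT-L. Conjugate the characters. -/
theorem lin_cj (D : Sys Γ) {H : Subgroup Γ} {φ : Γ → ℂ} (hφ : Lin D H φ) {u : Γ}
    (hu : ∀ h, h ∈ H ↔ u⁻¹ * h * u ∈ H) : Lin D H (cj u φ) := sorry

/-- CT-L. `b s` = sum of the `n i` with `χ i s = -1`. -/
theorem lin_int (D : Sys Γ) {U : Subgroup Γ} {φ : Γ → ℂ} (h : Lin D U φ) :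
    ∃ (n : ℤ) (b : Γ → ℤ), (Set.range b).Finite ∧ φ 1 = n ∧ (∀ s ∈ D.S, s ∈ U → φ s = n - 2 * b s) ∧
      ∀ s ∈ D.S, s ∈ U → ∀ u ∈ U, b (u * s * u⁻¹) = b s := sorry

/-- CT-L. Restrict the characters (`M` is there so that the restrictions are `OpC`: intersect with `M`). -/
theorem lin_rs (D : Sys Γ) {M H U : Subgroup Γ} (hM : M ∈ D.N) (hMH : M ≤ H) (hHU : H ≤ U) {φ : Γ → ℂ}
    (hφ : Lin D U φ) : Lin D H (rs H φ) := sorry

/-- CT-L. `φ` is a class function of `U` and `H` is normal in `U`. -/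
theorem sum_rs {p : ℕ} {H U : Subgroup Γ} {t : Γ} (h : IsStep p H U t) {ψ : Γ → ℂ} (hψ : Cls U ψ) (g : Γ) :
    (∑ k ∈ Finset.range p, cj (t ^ k) (rs H ψ)) g = (p : ℂ) * rs H ψ g := sorry

/-- CT-L. By `g2_sum` (SB/G2) for each character. -/
theorem lin_ind_rs (D : Sys Γ) {M : Subgroup Γ} (hM : M ∈ D.N) {p : ℕ} (hp : p.Prime) {H U : Subgroup Γ} {t : Γ}
    (h : IsStep p H U t) (hMH : M ≤ H) {ψ : Γ → ℂ} (hψ : Lin D U ψ) :
    Lin D U (∑ k ∈ Finset.range p, cj (t ^ k) (rs H ψ)) := sorry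

/-- CT-L. `φ = Σ_j j (x_j - 1)`, `j` in the range of `β`, `x_j` the quadratic character negative exactly at
`{s ∈ S ∩ H | β s = j}`. -/
theorem exists_lin_of_sign (D : Sys Γ) (hnt : NtU D) {M H : Subgroup Γ} (hM : M ∈ D.N) (hMH : M ≤ H)
    (β : Γ → ℤ) (hfin : (Set.range β).Finite)
    (hβ : ∀ s ∈ D.S, s ∈ H → ∀ u ∈ H, β (u * s * u⁻¹) = β s) :
    ∃ φ, Lin D H φ ∧ φ 1 = 0 ∧ ∀ s ∈ D.S, s ∈ H → φ s = -2 * β s := sorry

end L


end SB
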