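import Pool.Agent.Helper21.CT.Base

namespace SB

universe u

/-! ### CT-P: prime steps -/
section P
variable {Γ : Type*} [Group Γ]

/-- CT-P. The representatives of the cosets are `1, t, ..., t^(p-1)`. -/
theorem relIndex_isStep {p : ℕ} {W U : Subgroup Γ} {t : Γ} (h : IsStep p W U t) : W.relIndex U = p := sorry

/-- CT-P. The quotient is cyclic of prime order; `t` = a lift of a generator. -/
theorem exists_isStep {W U : Subgroup Γ} (hle : W ≤ U) (hn : ∀ u ∈ U, ∀ w ∈ W, u * w * u⁻¹ ∈ W)
    (hp : (W.relIndex U).Prime) : ∃ t, IsStep (W.relIndex U) W U t := sorry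

/-- CT-P. -/
theorem tower_step {S : Set Γ} {p : ℕ} (hp : p.Prime) {W U : Subgroup Γ} {t : Γ} (h : IsStep p W U t)
    (hU : Tower S U) : Tower S W := sorry

/-- CT-P. -/
theorem tower_fin {S : Set Γ} {U : Subgroup Γ} (h : Tower S U) : U.FiniteIndex := sorry

/-- CT-P. As `fam_of_tow` in SB/A2, by induction on `TowA`. -/
theorem fam_of_towA (D : Sys Γ) {U : Subgroup Γ} (hU : Tower D.S U) {φ : Γ → ℂ} (h : TowA D U φ) :
    Fam D (Tower D.S) (Ind U φ) := sorry

end P


end SB
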