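import Pool.Agent.Helper21.CT.Base

namespace SB

universe u

/-! ### CT-S: the steps -/
section S
variable {Γ : Type*} [Group Γ]

/-- CT-S. From CT-L, CT-C. -/
theorem odd_step (D : Sys Γ) (hnt : NtU D) {M : Subgroup Γ} (hM : M ∈ D.N) {p : ℕ} (hp : p.Prime) (hp2 : p ≠ 2)
    {H U : Subgroup Γ} {t : Γ} (h : IsStep p H U t) (hMH : M ≤ H) {φ : Γ → ℂ} (hφ : Lin D H φ)
    (hdiv : ∀ s ∈ D.S, s ∈ U → ∃ b : ℤ,
      (∑ k ∈ Finset.range p, cj (t ^ k) φ) 1 - (∑ k ∈ Finset.range p, cj (t ^ k) φ) s = 2 * p * b) :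
    ∃ ψ, Lin D U ψ ∧ TowA D U ((∑ k ∈ Finset.range p, cj (t ^ k) φ) - ψ) := sorry

/-- CT-S. `gStep2` for each character. -/
theorem two_step (D : Sys Γ) {H U : Subgroup Γ} {t : Γ} (h : IsStep 2 H U t) {φ : Γ → ℂ} (hφ : Lin D H φ) :
    ∃ ψ, Lin D U ψ ∧ TowA D U ((∑ k ∈ Finset.range 2, cj (t ^ k) φ) - ψ) := sorry

/-- CT-S. Induction on `Bal`; the values at `1` and on `S` do not change (`TowA.vanish`). -/
theorem bal_nf (D : Sys Γ) (hnt : NtU D) {U : Subgroup Γ} {φ : Γ → ℂ} (h : Bal D U φ) :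
    (∃ M ∈ D.N, M ≤ U) ∧ ∃ ψ, Lin D U ψ ∧ TowA D U (φ - ψ) := sorry

end S


end SB
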